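import Pool.Agent.S3.Cl.Main
import Pool.Agent.S3.Cl.Low
import Pool.Agent.AT.LowD2
import Pool.Agent.MX.LowK2

/-!
# The small indices: the closed edges of a tree with arbitrary signs
-/

set_option autoImplicit false

namespace Pool.Agent.MX2

open Complex Pool.Agent.S3 Pool.Agent.S3.Cl
open Pool.Agent.MX (kx tk rK tk_eq kx_spec kg_abs kg_igd kg_one rK_le' Ht4)
open Pool.Agent.H25.RK (gdv gdv_re_lt gdv_hasDerivAt)

variable {Φ : ℂ → ℂ} {θ xc b v1 : ℝ}

/-- The bound at a point of the line is at least the value of the potential. -/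
theorem tp_ge (H : ClH Φ θ xc b v1) {t : ℂ} (hv : |t.re| < 1 / 2) (ht : t.im = bl θ t.re) :
    (Φ t).re ≤ EE (.op (gdv (UU xc θ))) (.cl 1) (yc (UU xc θ)) +
      ell (gdv (UU xc θ)) (qcl (UU xc θ)) (-(2 * Real.pi * b)) t := by
  have hpi := Real.pi_pos
  have hbl : 0 ≤ t.im := by
    rw [ht, bl]
    apply div_nonneg _ hpi.le
    rw [Real.arsinh_nonneg_iff]
    apply mul_nonneg (tan_nonneg' H.θ0.le H.th2)
    have := abs_lt.1 hv
    apply Real.cos_nonneg_of_mem_Icc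
    constructor <;> nlinarith
  obtain ⟨x, t', a1, a2, a3, a4, -, -⟩ := coord hv
  have ht' : t' = θ := (t_le H.θ0 H.th2 hv hbl a1 a3 a4).2.2 ht
  subst ht'
  have hD := H.D_le x
  rw [a3, a4, ← ell_eq H.hQ H.at'] at hD
  have e : gd (UU x t') / (Real.pi : ℂ) = t := by
    rw [gd_eq (by rwa [UU_im]), a2]
    field_simp
  rw [e, ← FF_eq H] at hD
  exact le_of_mul_le_mul_left hD hpi

theorem kc_deriv (hΦ : IsPhi1 Φ) {s : ℝ} (hs : |16 / 25 * s| < Real.pi / 2) :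
    HasDerivAt (fun s : ℝ => (Φ (UU (16 / 25 * s) s / (Real.pi : ℂ))).re)
      (2 / Real.pi * ((qcl (igd (UU (16 / 25 * s) s))).im -
        16 / 25 * (qcl (igd (UU (16 / 25 * s) s))).re)) s := by
  have hu : |(igd (UU (16 / 25 * s) s)).im| < Real.pi / 2 := igd_im_lt (UU_re_lt hs)
  have h1 := hΦ.deriv (fun s : ℝ => igd (UU (16 / 25 * s) s))
    ((((16 / 25 : ℝ) : ℂ) + I) * cosh (igd (UU (16 / 25 * s) s))) s hu (kg_igd hs)
  have h2 := hasDerivAt_re h1
  have e : (fun s : ℝ => (Φ (UU (16 / 25 * s) s / (Real.pi : ℂ))).re) =ᶠ[nhds s]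
      (fun s : ℝ => (Φ (gd (igd (UU (16 / 25 * s) s)) / (Real.pi : ℂ))).re) := by
    have hc : ContinuousAt (fun t : ℝ => |16 / 25 * t|) s := by fun_prop
    have hn : ∀ᶠ t in nhds s, |16 / 25 * t| < Real.pi / 2 := hc.eventually_lt_const hs
    filter_upwards [hn] with t ht
    rw [gd_igd (UU_re_lt ht)]
  refine (h2.congr_of_eventuallyEq e).congr_deriv ?_
  have hpi : (Real.pi : ℂ) ≠ 0 := by exact_mod_cast Real.pi_ne_zero
  have hc : cosh (igd (UU (16 / 25 * s) s)) ≠ 0 := cosh_ne hu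
  have e2 : ∀ G q : ℂ, cosh G ≠ 0 → -2 * q * ((((16 / 25 : ℝ) : ℂ) + I) * cosh G) /
      ((Real.pi : ℂ) * cosh G) = ((-(2 / Real.pi) : ℝ) : ℂ) * (q * (((16 / 25 : ℝ) : ℂ) + I)) := by
    intro G q hG
    push_cast
    field_simp
  rw [e2 _ _ hc, re_ofReal_mul, mul_re, add_re, add_im, ofReal_re, ofReal_im, I_re, I_im]
  ring

theorem kc_qcl {s : ℝ} (hs0 : 0 < s) (hs1 : s ≤ 1 / 2) :
    319 / 400 * s ≤ (qcl (igd (UU (16 / 25 * s) s))).im -
      16 / 25 * (qcl (igd (UU (16 / 25 * s) s))).re := by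
  have hs : |16 / 25 * s| < Real.pi / 2 := kg_abs hs0.le hs1
  have hu : |(igd (UU (16 / 25 * s) s)).im| < Real.pi / 2 := igd_im_lt (UU_re_lt hs)
  have h1 := kg_one hs0 hs1 (q := igd (UU (16 / 25 * s) s)) hu (by rw [sinh_igd])
  have e : qcl (igd (UU (16 / 25 * s) s)) = (((igd (UU (16 / 25 * s) s)).re - s) / 2 : ℝ) +
      (((igd (UU (16 / 25 * s) s)).im + 16 / 25 * s) / 2 : ℝ) * I := by
    rw [qcl, gd_igd (UU_re_lt hs)]
    conv_lhs => rw [← re_add_im (igd (UU (16 / 25 * s) s))]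
    unfold UU
    push_cast
    linear_combination (s / 2 : ℂ) * I_sq
  rw [e, add_re, add_im, ofReal_re, ofReal_im, re_ofReal_mul, im_ofReal_mul, I_re, I_im]
  linarith

/-- The gain at the test point of a vertex with at least four twists. -/
theorem kc_gain (hΦ : IsPhi1 Φ) (h : Ht4 θ) : (Φ 0).re + kx θ ^ 2 / 4 ≤ (Φ (tk θ)).re := by
  have hpi := Real.pi_pos
  have hpc : (Real.pi : ℂ) ≠ 0 := by exact_mod_cast Real.pi_ne_zero
  obtain ⟨x0, x1, x2⟩ := kx_spec h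
  have hmono : MonotoneOn (fun s : ℝ => (Φ (UU (16 / 25 * s) s / (Real.pi : ℂ))).re - s ^ 2 / 4)
      (Set.Icc 0 (kx θ)) := by
    have hd : ∀ s ∈ Set.Icc 0 (kx θ), HasDerivAt
        (fun s : ℝ => (Φ (UU (16 / 25 * s) s / (Real.pi : ℂ))).re - s ^ 2 / 4)
        (2 / Real.pi * ((qcl (igd (UU (16 / 25 * s) s))).im -
        16 / 25 * (qcl (igd (UU (16 / 25 * s) s))).re) - 2 * s / 4) s := by
      intro s hs
      have h1 := kc_deriv hΦ (kg_abs hs.1 (hs.2.trans x1.le))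
      have h2 := (hasDerivAt_pow 2 s).div_const (4 : ℝ)
      refine (h1.sub h2).congr_deriv ?_
      norm_num
    apply monotoneOn_of_deriv_nonneg (convex_Icc _ _)
    · exact fun s hs => (hd s hs).continuousAt.continuousWithinAt
    · intro s hs
      rw [interior_Icc] at hs
      exact (hd s ⟨hs.1.le, hs.2.le⟩).differentiableAt.differentiableWithinAt
    · intro s hs
      rw [interior_Icc] at hs
      rw [(hd s ⟨hs.1.le, hs.2.le⟩).deriv]
      have h1 := kc_qcl hs.1 (by linarith [hs.2])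
      have h2 : 2 / Real.pi * (319 / 400 * s) ≤ 2 / Real.pi *
          ((qcl (igd (UU (16 / 25 * s) s))).im -
        16 / 25 * (qcl (igd (UU (16 / 25 * s) s))).re) :=
        mul_le_mul_of_nonneg_left h1 (by positivity)
      have h3 : 2 * s / 4 ≤ 2 / Real.pi * (319 / 400 * s) := by
        rw [div_mul_eq_mul_div, le_div_iff₀ hpi]
        have := Real.pi_lt_d4
        nlinarith [hs.1]
      linarith
  have key := hmono ⟨le_rfl, x0.le⟩ ⟨x0.le, le_rfl⟩ x0.le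
  simp only at key
  have e0 : (Φ (UU (16 / 25 * 0) 0 / (Real.pi : ℂ))).re = (Φ 0).re := by
    rw [mul_zero, LowA_UU0, ofReal_zero, zero_div]
  have e1 : (Φ (UU (16 / 25 * kx θ) (kx θ) / (Real.pi : ℂ))).re = (Φ (tk θ)).re := by
    rw [← tk_eq h, mul_div_cancel_left₀ _ hpc]
  rw [e0, e1] at key
  linarith

theorem low_K3c (hΦ : IsPhi1 Φ) (h : Ht4 θ) : (Φ 0).re < (Φ (tk θ)).re := by
  have h1 := kc_gain hΦ h
  have := (kx_spec h).1
  have : 0 < kx θ ^ 2 := by positivity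
  linarith

theorem low_K2c (hΦ : IsPhi1 Φ) (h0 : Φ 0 = Fc 0) (h : Ht4 θ) : rK θ < (Φ (tk θ)).re := by
  have hpi := Real.pi_pos
  have h1 := kc_gain hΦ h
  have h2 := Phi_zero_ge hΦ h0
  have h3 := Real.pi_lt_d4
  norm_num at h3
  have h4 := rK_le' h
  obtain ⟨x0, x1, -⟩ := kx_spec h
  have h5 : 5658 / 10000 ≤ (Φ 0).re := by
    by_contra hc
    push Not at hc
    nlinarith
  nlinarith

end Pool.Agent.MX2
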