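import Pool.Agent.H25.RK.DGI
import Pool.Agent.H25.RK.DGf
import Pool.Agent.H63.GO.MTaylor
import Pool.Agent.H63.VC.Asym
import Pool.Agent.H63.VC.EndB
import Pool.Agent.H63.VC.Riem
import Pool.Agent.H63.VC.SlowL
import Pool.Agent.H63.VC.SlowU
import Pool.Agent.H63.VC3.CritB
import Pool.Agent.H63.VC3.Upper
import Pool.Agent.H63.VC4.GaussN
import Pool.Agent.H63.VC4.KBN
import Pool.Agent.H63.VC4.LaplaceN
import Pool.Agent.H63.VC4.UpperN
import Pool.Agent.H63.VC5.Defs
import Pool.Agent.H63.VC6.LocU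
import Pool.Agent.H63.VC6.SlotU
import Pool.Agent.H63.VC7.Link
import Pool.Agent.S3.Asm.Def
import Pool.Agent.S3.Cl.Hyp
import Pool.Agent.S3.Cl.Mir

/-!
# Closed edges of a tree: the hypotheses of the main inequality

The angle of the node is at most `1 / 2` and its share of the closed edge is positive.
-/

set_option autoImplicit false

namespace Pool.Agent.MX2

open Complex Pool.Agent.S3 Pool.Agent.S3.Cl Set
open Pool.Agent.H25.RK (gdv gdv_re_lt gdv_hasDerivAt)

section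

variable {R J θ x : ℝ}

theorem sc_le (hR : 0 < Real.cos R) (hθ : 0 < Real.cos θ)
    (g1 : Real.sin R * Real.cos θ = Real.sinh x * Real.cos R)
    (g3 : Real.sinh J * Real.cos θ = Real.sin θ * Real.cos R) (h : J ≤ x) :
    Real.sin θ * Real.cos R ^ 2 ≤ Real.sin R * Real.cos θ ^ 2 := by
  have h1 := Real.sinh_le_sinh.2 h
  have h2 := mul_le_mul_of_nonneg_right h1 (mul_pos hθ hR).le
  have e1 : Real.sinh J * (Real.cos θ * Real.cos R) = Real.sin θ * Real.cos R ^ 2 := by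
    rw [← mul_assoc, g3]; ring
  have e2 : Real.sinh x * (Real.cos θ * Real.cos R) = Real.sin R * Real.cos θ ^ 2 := by
    rw [show Real.sinh x * (Real.cos θ * Real.cos R) = Real.sinh x * Real.cos R * Real.cos θ by ring,
      ← g1]; ring
  rwa [e1, e2] at h2

theorem th_le_R (R0 : 0 < R) (R1 : R < Real.pi / 2) (θ1 : θ < Real.pi / 2)
    (g1 : Real.sin R * Real.cos θ = Real.sinh x * Real.cos R)
    (g3 : Real.sinh J * Real.cos θ = Real.sin θ * Real.cos R) (h : J ≤ x) : θ ≤ R := by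
  by_contra hc
  push Not at hc
  have cR : 0 < Real.cos R := Real.cos_pos_of_mem_Ioo ⟨by linarith, R1⟩
  have cθ : 0 < Real.cos θ := Real.cos_pos_of_mem_Ioo ⟨by linarith, θ1⟩
  have sR : 0 < Real.sin R := Real.sin_pos_of_pos_of_lt_pi R0 (by linarith [Real.pi_pos])
  have h1 := sc_le cR cθ g1 g3 h
  have h2 : Real.sin R < Real.sin θ :=
    Real.sin_lt_sin_of_lt_of_le_pi_div_two (by linarith) θ1.le hc
  have h3 : Real.cos θ < Real.cos R :=
    Real.cos_lt_cos_of_nonneg_of_le_pi_div_two R0.le θ1.le hc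
  have h4 : Real.cos θ ^ 2 < Real.cos R ^ 2 := by nlinarith
  nlinarith [mul_lt_mul'' h2 h4 sR.le (sq_nonneg _)]

theorem sinh_chord {y : ℝ} (h0 : 0 ≤ J) (h1 : J ≤ y) : y * Real.sinh J ≤ J * Real.sinh y := by
  rcases h0.eq_or_lt with h | h0'
  · rw [← h, Real.sinh_zero]; simp
  have hy : 0 < y := h0'.trans_le h1
  have hc : ConvexOn ℝ (Ici (0 : ℝ)) Real.sinh := by
    apply MonotoneOn.convexOn_of_deriv (convex_Ici 0) Real.continuous_sinh.continuousOn
      Real.differentiable_sinh.differentiableOn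
    rw [interior_Ici, Real.deriv_sinh]
    intro s hs t _ hst
    exact Real.cosh_le_cosh.2 (by
      have hs' : 0 < s := hs
      rw [abs_of_pos hs', abs_of_pos (hs'.trans_le hst)]
      exact hst)
  have h2 := hc.2 (mem_Ici.2 le_rfl) (mem_Ici.2 hy.le)
    (show (0 : ℝ) ≤ 1 - J / y by rw [sub_nonneg, div_le_one hy]; exact h1)
    (show (0 : ℝ) ≤ J / y by positivity) (by ring)
  simp only [smul_eq_mul, mul_zero, zero_add, Real.sinh_zero, div_mul_cancel₀ _ hy.ne'] at h2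
  rw [div_mul_eq_mul_div, le_div_iff₀ hy] at h2
  linarith

theorem sin_half_ge : 4791 / 10000 ≤ Real.sin (1 / 2) := by
  have := n_s3 (x := 1 / 2) (by norm_num)
  norm_num at this ⊢
  linarith

theorem cos_half_le : Real.cos (1 / 2) ≤ 8777 / 10000 := by
  have := n_c4 (x := 1 / 2) (by norm_num)
  norm_num at this ⊢
  linarith

theorem cos_half_ge : 8775 / 10000 ≤ Real.cos (1 / 2) := by
  have := n_c6 (x := 1 / 2) (by norm_num)
  norm_num at this ⊢
  linarith

/-- The angle is at most `1/2` at a node with a closed leaf whose weight is at least `7/2`. -/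
theorem th_half (R0 : 0 < R) (R1 : R < Real.pi / 2) (θ0 : 0 < θ) (θ1 : θ < Real.pi / 2)
    (J0 : 0 ≤ J) (x0 : 0 < x) (g1 : Real.sin R * Real.cos θ = Real.sinh x * Real.cos R)
    (g3 : Real.sinh J * Real.cos θ = Real.sin θ * Real.cos R) (h : J ≤ x)
    (hc : 7 / 2 * (x * R + θ * J) ≤ Real.pi * x) : θ ≤ 1 / 2 := by
  by_contra hθ
  push Not at hθ
  have hpi := Real.pi_lt_d4
  have hpi3 := Real.pi_gt_three
  norm_num at hpi
  have cR : 0 < Real.cos R := Real.cos_pos_of_mem_Ioo ⟨by linarith, R1⟩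
  have cθ : 0 < Real.cos θ := Real.cos_pos_of_mem_Ioo ⟨by linarith, θ1⟩
  have sR : 0 < Real.sin R := Real.sin_pos_of_pos_of_lt_pi R0 (by linarith)
  have sx : 0 < Real.sinh x := Real.sinh_pos_iff.2 x0
  -- the chord inequality with `sinh`
  have a1 := sinh_chord J0 h
  have a2 : x * (7 / 2 * (R * Real.sinh x + θ * Real.sinh J)) ≤ x * (Real.pi * Real.sinh x) := by
    have b1 := mul_le_mul_of_nonneg_right hc sx.le
    have b2 := mul_le_mul_of_nonneg_left a1 θ0.le
    nlinarith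
  have a3 := le_of_mul_le_mul_left a2 x0
  have a4 := mul_le_mul_of_nonneg_right a3 (mul_pos cθ cR).le
  have e1 : 7 / 2 * (R * Real.sinh x + θ * Real.sinh J) * (Real.cos θ * Real.cos R) =
      7 / 2 * (R * (Real.sin R * Real.cos θ ^ 2) + θ * Real.sin θ * Real.cos R ^ 2) := by
    linear_combination (-(7 / 2) * R * Real.cos θ) * g1 + (7 / 2 * θ * Real.cos R) * g3
  have e2 : Real.pi * Real.sinh x * (Real.cos θ * Real.cos R) =
      Real.pi * (Real.sin R * Real.cos θ ^ 2) := by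
    linear_combination (-Real.pi * Real.cos θ) * g1
  rw [e1, e2] at a4
  -- the bounds at `1/2`
  have s1 : 4791 / 10000 ≤ Real.sin θ := sin_half_ge.trans
    (Real.sin_le_sin_of_le_of_le_pi_div_two (by linarith) θ1.le hθ.le)
  have c1 : Real.cos θ ≤ 8777 / 10000 :=
    (Real.cos_le_cos_of_nonneg_of_le_pi (by norm_num) (by linarith) hθ.le).trans cos_half_le
  have c2 : Real.cos θ ^ 2 ≤ 7704 / 10000 := by nlinarith
  have s2 : 2395 / 10000 ≤ θ * Real.sin θ := by nlinarith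
  have s3 : 310 / 1000 * Real.cos θ ^ 2 ≤ θ * Real.sin θ := by linarith
  have r1 : Real.sin R ≤ R := Real.sin_le R0.le
  have k1 := mul_le_mul_of_nonneg_right s3 (sq_nonneg (Real.cos R))
  have k2 := mul_le_mul_of_nonneg_right r1 (mul_nonneg sR.le (sq_nonneg (Real.cos θ)))
  have k3 : Real.cos R ^ 2 = 1 - Real.sin R ^ 2 := by
    have := Real.sin_sq_add_cos_sq R
    linarith
  have k4 : 0 < Real.cos θ ^ 2 := by positivity
  have k5 : Real.pi * (Real.sin R * Real.cos θ ^ 2) ≤ 31416 / 10000 * (Real.sin R * Real.cos θ ^ 2) :=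
    mul_le_mul_of_nonneg_right (by linarith) (mul_nonneg sR.le k4.le)
  rw [k3] at k1
  have k6 : Real.cos θ ^ 2 * (7 / 2 * (Real.sin R ^ 2 + 310 / 1000 * (1 - Real.sin R ^ 2))) ≤
      Real.cos θ ^ 2 * (31416 / 10000 * Real.sin R) := by
    rw [k3] at a4
    nlinarith
  have k7 := le_of_mul_le_mul_left k6 k4
  nlinarith [sq_nonneg (Real.sin R - 65 / 100)]

theorem tan_half_le (θ0 : 0 < θ) (hθ : θ ≤ 1 / 2) {S : ℝ} (h : S * Real.cos θ = Real.sin θ)  :
    S ≤ 57 / 50 * θ := by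
  have hpi := Real.pi_gt_three
  have c1 : 8775 / 10000 ≤ Real.cos θ :=
    cos_half_ge.trans (Real.cos_le_cos_of_nonneg_of_le_pi θ0.le (by linarith) hθ)
  have s1 : Real.sin θ ≤ θ := Real.sin_le θ0.le
  by_contra hc
  push Not at hc
  nlinarith

/-- The first inequality. -/
theorem num2 {Y1 : ℝ} (θ0 : 0 < θ) (hθ : θ ≤ 1 / 2) (hR : θ ≤ R) (R1 : R < Real.pi / 2)
    (J0 : 0 ≤ J) (g3 : Real.sinh J * Real.cos θ = Real.sin θ * Real.cos R)
    (h1 : 2 * Real.sinh Y1 * Real.cos θ = Real.sin θ) (hY : 0 ≤ Y1) :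
    J * (Real.pi - θ - R) < 1215 / 1000 - θ * Y1 := by
  have hpi := Real.pi_lt_d4
  have hpi3 := Real.pi_gt_three
  norm_num at hpi
  have cθ : 0 < Real.cos θ := Real.cos_pos_of_mem_Ioo ⟨by linarith, by linarith⟩
  have sθ : 0 < Real.sin θ := Real.sin_pos_of_pos_of_lt_pi θ0 (by linarith)
  have a1 : Real.cos R ≤ Real.cos θ := Real.cos_le_cos_of_nonneg_of_le_pi θ0.le (by linarith) hR
  have a2 : Real.sinh J ≤ Real.sin θ := by
    have := mul_le_mul_of_nonneg_left a1 sθ.le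
    rw [← g3] at this
    exact le_of_mul_le_mul_right this cθ
  have a3 : J ≤ θ := (Real.self_le_sinh_iff.2 J0).trans (a2.trans (Real.sin_le θ0.le))
  have a4 : Y1 ≤ 57 / 100 * θ := by
    have b1 := tan_half_le θ0 hθ h1
    have b2 := Real.self_le_sinh_iff.2 hY
    linarith
  have a5 : J * (Real.pi - θ - R) ≤ θ * (Real.pi - 2 * θ) :=
    mul_le_mul a3 (by linarith) (by linarith) θ0.le
  have a6 : θ * Y1 ≤ θ * (57 / 100 * θ) := mul_le_mul_of_nonneg_left a4 θ0.le
  have a7 : θ * (Real.pi - 2 * θ) ≤ θ * (31416 / 10000 - 2 * θ) :=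
    mul_le_mul_of_nonneg_left (by linarith) θ0.le
  nlinarith [mul_nonneg (sub_nonneg.2 hθ) (show (0 : ℝ) ≤ 31416 / 10000 - 143 / 100 * (θ + 1 / 2) by
    linarith)]

/-- The second inequality. -/
theorem num1 {Y0 Y1 : ℝ} (θ0 : 0 < θ) (hθ : θ ≤ 1 / 2) (hR : θ ≤ R)
    (R1 : R < Real.pi / 3) (x0 : 0 < x)
    (g1 : Real.sin R * Real.cos θ = Real.sinh x * Real.cos R)
    (h0 : Real.sinh Y0 * Real.cos θ = Real.sin θ) (hY0 : 0 ≤ Y0)
    (h1 : 2 * Real.sinh Y1 * Real.cos θ = Real.sin θ) (hY : 0 ≤ Y1) :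
    Y0 * (Real.pi - θ - R) < 1215 / 1000 - θ * Y1 + x * (Real.pi / 3 - R) := by
  have hpi := Real.pi_lt_d4
  have hpi4 := Real.pi_gt_d4
  have hpi3 := Real.pi_gt_three
  norm_num at hpi hpi4
  have cθ : 0 < Real.cos θ := Real.cos_pos_of_mem_Ioo ⟨by linarith, by linarith⟩
  have cR : 0 < Real.cos R := Real.cos_pos_of_mem_Ioo ⟨by linarith, by linarith⟩
  have sθ : 0 < Real.sin θ := Real.sin_pos_of_pos_of_lt_pi θ0 (by linarith)
  have a4 : Y1 ≤ 57 / 100 * θ := by
    have b1 := tan_half_le θ0 hθ h1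
    have b2 := Real.self_le_sinh_iff.2 hY
    linarith
  have a5 : Y0 ≤ 57 / 50 * θ := (Real.self_le_sinh_iff.2 hY0).trans (tan_half_le θ0 hθ h0)
  -- the lower bound of `x`
  have b1 : Real.sin θ ≤ Real.sinh x := by
    have c1 : Real.cos R ≤ Real.cos θ := Real.cos_le_cos_of_nonneg_of_le_pi θ0.le (by linarith) hR
    have c2 : Real.sin θ ≤ Real.sin R :=
      Real.sin_le_sin_of_le_of_le_pi_div_two (by linarith) (by linarith) hR
    have c3 : Real.sin θ * Real.cos R ≤ Real.sinh x * Real.cos R := by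
      rw [← g1]
      exact mul_le_mul c2 c1 cR.le (sθ.le.trans c2)
    exact le_of_mul_le_mul_right c3 cR
  have b2 : 9 / 10 * θ ≤ x := by
    have d1 : Real.arsinh (Real.sin θ) ≤ x := by
      rw [← Real.sinh_le_sinh, Real.sinh_arsinh]
      exact b1
    have d2 := n_arsinh (x := Real.arsinh (Real.sin θ)) (Real.arsinh_nonneg_iff.2 sθ.le)
    rw [Real.sinh_arsinh] at d2
    have d3 := n_s3 θ0.le
    have d4 := Real.sin_le θ0.le
    have d5 : Real.sin θ ^ 3 ≤ θ ^ 3 := pow_le_pow_left₀ sθ.le d4 3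
    have d7 : θ * θ ≤ 1 / 4 := by nlinarith
    have d6 : θ ^ 3 ≤ θ * (1 / 4) := by
      have := mul_le_mul_of_nonneg_left d7 θ0.le
      nlinarith
    linarith
  have e1 : Y0 * (Real.pi - θ - R) ≤ 57 / 50 * θ * (Real.pi - θ - R) :=
    mul_le_mul_of_nonneg_right a5 (by linarith)
  have e2 : 9 / 10 * θ * (Real.pi / 3 - R) ≤ x * (Real.pi / 3 - R) :=
    mul_le_mul_of_nonneg_right b2 (by linarith)
  have e3 : θ * Y1 ≤ θ * (57 / 100 * θ) := mul_le_mul_of_nonneg_left a4 θ0.le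
  have e4 : θ * Real.pi ≤ θ * (31416 / 10000) := mul_le_mul_of_nonneg_left (by linarith) θ0.le
  have e5 : θ * θ ≤ θ * R := mul_le_mul_of_nonneg_left hR θ0.le
  nlinarith [mul_nonneg (sub_nonneg.2 hθ) (show (0 : ℝ) ≤ 2639 / 1000 - 81 / 100 * (θ + 1 / 2) by
    linarith)]

end

variable {Φ : ℂ → ℂ} {θ xc b : ℝ}

/-- All hypotheses of a closed edge. -/
theorem clH_of (hΦ : IsPhi1 Φ) (h0 : Φ 0 = Fc 0) (b0 : 0 < b)
    (hQ : (qcl (UU xc θ)).re = b * (gd (UU xc θ)).im)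
    (hR : Ra xc θ < Real.pi * (13 / 40)) (θ0 : 0 < θ) (θh : θ ≤ 1 / 2) (xc0 : 0 < xc) :
    ClH Φ θ xc b (13 / 40) := by
  have hpi := Real.pi_pos
  have hpi3 := Real.pi_gt_three
  have θ2 : θ < Real.pi / 2 := by linarith
  have hθ : |θ| < Real.pi / 2 := by rwa [abs_of_pos θ0]
  have hvpi : Real.pi * (13 / 40) ≤ Real.pi / 3 := by linarith
  have hvpi0 : 0 < Real.pi * (13 / 40) := by positivity
  -- the critical point
  have hY0 : 0 < Ya xc θ := by rw [Ya]; exact gd_im_pos θ0 θ2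
  have hJx : Ya xc θ ≤ xc := by
    have q1 := two_qcl_re xc θ
    have q2 : (qcl (UU xc θ)).re = b * Ya xc θ := hQ
    rw [q2] at q1
    have := mul_pos b0 hY0
    linarith
  have g1 := RaS (x := xc) hθ
  have g3 := curve (x := xc) hθ
  have hRlt := (abs_lt.1 (Ra_lt (x := xc) hθ)).2
  have hR0 : 0 < Ra xc θ := by
    have := Ra_mono hθ xc0
    simp only at this
    rwa [Ra_zero_x hθ] at this
  have hθR := th_le_R hR0 hRlt θ2 g1 g3 hJx
  -- the point `x1` with `Ra x1 θ = π/3`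
  have r1 : (((1 / 3 : ℝ) : ℂ) + (bl θ (1 / 3) : ℝ) * I).re = 1 / 3 := by simp
  have r2 : (((1 / 3 : ℝ) : ℂ) + (bl θ (1 / 3) : ℝ) * I).im = bl θ (1 / 3) := by simp
  have hv : |(((1 / 3 : ℝ) : ℂ) + (bl θ (1 / 3) : ℝ) * I).re| < 1 / 2 := by
    rw [r1]; exact third_lt
  have hbl : 0 ≤ bl θ (1 / 3) := by
    rw [bl]
    apply div_nonneg _ hpi.le
    rw [Real.arsinh_nonneg_iff]
    apply mul_nonneg (tan_nonneg' θ0.le θ2)
    apply Real.cos_nonneg_of_mem_Icc
    constructor <;> linarith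
  obtain ⟨x1, t1, a1, -, a3, a4, a5, -⟩ := coord hv
  have ht1 : t1 = θ := (t_le θ0 θ2 hv (by rw [r2]; exact hbl) a1 a3 a4).2.2 (by rw [r1, r2])
  rw [r1] at a3
  rw [r2] at a4
  have hx1 : 0 ≤ x1 := a5 (by rw [r1]; norm_num)
  rw [ht1] at a3 a4
  have hR1 : Ra x1 θ = Real.pi / 3 := by rw [a3]; ring
  have hV1 := VV_third hΦ h0 θ0.le θ2 hR1
  have mono := Ra_mono hθ
  have xlt : xc < x1 := by
    by_contra hc
    push Not at hc
    have h2 : Ra x1 θ ≤ Ra xc θ := mono.monotone hc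
    linarith
  -- the heights
  have k0 : Real.sinh (Ya 0 θ) * Real.cos θ = Real.sin θ := by
    rw [curve hθ, Ra_zero_x hθ, Real.cos_zero, mul_one]
  have k1 : 2 * Real.sinh (Ya x1 θ) * Real.cos θ = Real.sin θ := by
    have := curve (x := x1) hθ
    rw [hR1, Real.cos_pi_div_three] at this
    linarith
  have n0 := Ya_nonneg (x := 0) θ0.le θ2
  have n1 := Ya_nonneg (x := x1) θ0.le θ2
  have m1 := num1 θ0 θh hθR (by linarith) xc0 g1 k0 n0 k1 n1
  have m2 := num2 θ0 θh hθR hRlt hY0.le g3 k1 n1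
  have hc : VV Φ x1 θ + xc * Ra x1 θ ≤ VV Φ xc θ + xc * Ra xc θ :=
    VV_anti_c' hΦ (c := xc) hθ (a := xc) (b := x1) (mem_Ici.2 le_rfl) (mem_Ici.2 xlt.le) xlt.le
  rw [hR1] at hc
  refine ⟨hΦ, h0, θ0, by linarith, xc0, b0, hQ, by norm_num, by norm_num, ?_, ?_, hR, by linarith,
    ?_⟩
  · have h1 : Real.sin (Real.pi * (13 / 40)) ≤ Real.sin (Real.pi / 3) :=
      Real.sin_le_sin_of_le_of_le_pi_div_two (by linarith) (by linarith) hvpi
    have h2 : 0 ≤ Real.sin (Real.pi * (13 / 40)) :=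
      Real.sin_nonneg_of_nonneg_of_le_pi hvpi0.le (by linarith)
    have h3 : Real.sin (Real.pi / 3) ^ 2 = 3 / 4 := by
      rw [Real.sin_pi_div_three, div_pow, Real.sq_sqrt (by norm_num)]; norm_num
    have h4 := pow_le_pow_left₀ h2 h1 2
    linarith
  · have h1 : Real.tan (Real.pi * (13 / 40)) ≤ Real.tan (Real.pi / 3) :=
      Real.strictMonoOn_tan.monotoneOn ⟨by linarith, by linarith⟩ ⟨by linarith, by linarith⟩ hvpi
    rw [Real.tan_pi_div_three] at h1
    have h2 : √3 ≤ 2 := by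
      rw [Real.sqrt_le_left (by norm_num)]; norm_num
    have h3 := Real.sin_le_one (2 * θ)
    have h4 : 0 ≤ Real.sin (2 * θ) := Real.sin_nonneg_of_nonneg_of_le_pi (by linarith) (by linarith)
    have h5 : 0 ≤ Real.tan (Real.pi * (13 / 40)) := tan_nonneg' hvpi0.le (by linarith)
    calc Real.tan (Real.pi * (13 / 40)) * Real.sin (2 * θ) ≤ 2 * 1 :=
          mul_le_mul (by linarith) h3 h4 (by norm_num)
      _ = 2 := by norm_num
  · intro x hx
    have h1 : x ≤ x1 := by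
      by_contra hc
      push Not at hc
      have := mono hc
      simp only at this
      rw [hR1, hx] at this
      linarith
    have h2 : xc ≤ x := by
      by_contra hc
      push Not at hc
      have := mono hc
      simp only at this
      rw [hx] at this
      linarith
    have h3 : VV Φ x1 θ ≤ VV Φ x θ := (VV_anti_x hΦ hθ).antitoneOn (a := x) (b := x1)
      (mem_Ici.2 (xc0.le.trans h2)) (mem_Ici.2 hx1) h1
    linarith

end Pool.Agent.MX2
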