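import Pool.Agent.MX2.CritCfg
import Pool.Agent.MX2.Hyp
import Pool.Agent.MX.WCfg

/-!
# The edges of a tree with arbitrary signs and closed leaves
-/

set_option autoImplicit false
set_option linter.unusedSectionVars false

namespace Pool.Agent.MX2

open Pool.Agent.S3 hiding Cfg oth OOD lamC cfgOf EdC Qv mem_Op uc_neg uc_pos slc_op slc_cl crit edC
  oth_cs oth_su ell_mirror wr_mirror lamC_sum vcC_neg vcC_pos r_neg r_pos evC lw_neg lw_pos gdv_re_eq
  apos β_eq yc_eq Qv_neg Qv_pos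
open Complex
open Pool.Agent.H63.VC7 (inc)
open Pool.Agent.S3.E
open Pool.Agent.AT (Tr oth Adj adj_cs adj_su oth_cs oth_su mem_inc mem_inc_par mem_inc_succ exists_edge
  Cfg ell_mirror wr_mirror OOD)
open Pool.Agent.AT2 (Rg yC mem_Om Om y1)
open Pool.Agent.MX (qC qm_opp qm_same NB LLS OOS EndS ReflS uz_neg uz_pos qm_ne qm_eq SamHyp)
open Pool.Agent.MX.G (uz qm)
open Pool.Agent.H25.RK (gdv gdv_re_lt gdv_hasDerivAt ul)

variable {m : ℕ} [Tr m]

/-- The weight of the vertex `i` in the edge `j`. -/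
noncomputable def lamC (a : Fin (m + 1) → ℕ) (σ : Fin (m + 1) → ℤ) (z : Fin (m + 1) → ℂ)
    (j : Fin m) (i : Fin (m + 1)) : ℝ := bx a σ z i (oth j i) / a i

section

variable {a : Fin (m + 1) → ℕ} {σ : Fin (m + 1) → ℤ} {z : Fin (m + 1) → ℂ}

theorem lamC_sum (h : MZ2 a σ z) {i : Fin (m + 1)} (hi : a i ≠ 2) :
    ∑ j ∈ inc (Tr.par (m := m)) Fin.succ i, lamC a σ z j i = 1 := by
  have h0 : (a i : ℝ) ≠ 0 := by
    have := h.a2 i
    positivity
  unfold lamC
  rw [← Finset.sum_div, h.sum_bx hi, div_self h0]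

theorem vcC_neg {i : Fin (m + 1)} (h : σ i = -1) : (cfgOf a σ z).vc i =
    gdv (UU (xx (z i).re (z i).im) (th (z i).re (z i).im)) := by
  unfold AT.Cfg.vc
  rw [uc_neg h]
  rfl

theorem vcC_pos {i : Fin (m + 1)} (hθ : |th (z i).re (z i).im| < Real.pi / 2) (h : σ i = 1) :
    (cfgOf a σ z).vc i = mir (gdv (UU (xx (z i).re (z i).im) (th (z i).re (z i).im))) := by
  unfold AT.Cfg.vc
  rw [uc_pos h]
  have e : -((starRingEnd ℂ) (E.uu (z i))) =
      UU (-(xx (z i).re (z i).im)) (th (z i).re (z i).im) := by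
    unfold E.uu
    rw [UU_conj, UU_neg, neg_neg]
  rw [e, gdv_refl hθ, mir]

theorem r_neg {i : Fin (m + 1)} (h : σ i = -1) : (cfgOf a σ z).r i = -(a i : ℝ) / 2 := by
  show (σ i : ℝ) * a i / 2 = _
  rw [h]; push_cast; ring

theorem r_pos {i : Fin (m + 1)} (h : σ i = 1) : (cfgOf a σ z).r i = -(-(a i : ℝ) / 2) := by
  show (σ i : ℝ) * a i / 2 = _
  rw [h]; push_cast; ring

theorem evC {j : Fin m} (H : EdC a σ z j) {i : Fin (m + 1)}
    (hj : i = (Tr.par j) ∨ i = j.succ) (hi : a i ≠ 2) :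
    -(ev ((cfgOf a σ z).yc j) ((cfgOf a σ z).vc i)) / 2 = Qv a σ z j i := by
  rcases hj with h | h
  · subst h; rw [H.ev1 hi]; ring
  · subst h; rw [H.ev2 hi]; ring

/-- The share of a vertex with the sign `-1`. -/
theorem lw_neg {j : Fin m} (H : EdC a σ z j) {v1 : Fin (m + 1) → ℝ} {i : Fin (m + 1)}
    (hj : i = (Tr.par j) ∨ i = j.succ) (hi : a i ≠ 2) (s : σ i = -1) (v : ℂ) :
    (cfgOf a σ z).lw v1 (lamC a σ z) j i v =
      lwf (th (z i).re (z i).im) (v1 i) (gdv (UU (xx (z i).re (z i).im) (th (z i).re (z i).im)))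
        (qx a σ z i (oth j i)) (bx a σ z i (oth j i)) (a i) v := by
  unfold AT.Cfg.lw AT.Cfg.lv lwf
  rw [if_pos (mem_Op.2 hi), if_pos (mem_Op.2 hi), evC H hj hi, Qv_neg s, vcC_neg s, r_neg s,
    β_eq]
  have e : (2 * Real.pi * (σ i : ℝ) * bx a σ z i (oth j i)) =
      -2 * Real.pi * bx a σ z i (oth j i) := by
    rw [s]
    push_cast
    ring
  rw [e]
  rfl

/-- The share of a vertex with the sign `1`. -/
theorem lw_pos {j : Fin m} (H : EdC a σ z j) {v1 : Fin (m + 1) → ℝ} {i : Fin (m + 1)}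
    (hv1 : V1 (v1 i)) (hθ : |th (z i).re (z i).im| < Real.pi / 2)
    (hj : i = (Tr.par j) ∨ i = j.succ) (hi : a i ≠ 2) (s : σ i = 1) (v : ℂ) :
    (cfgOf a σ z).lw v1 (lamC a σ z) j i v =
      lwf (th (z i).re (z i).im) (v1 i) (gdv (UU (xx (z i).re (z i).im) (th (z i).re (z i).im)))
        (qx a σ z i (oth j i)) (bx a σ z i (oth j i)) (a i) (mir v) := by
  unfold AT.Cfg.lw AT.Cfg.lv lwf
  rw [if_pos (mem_Op.2 hi), if_pos (mem_Op.2 hi), evC H hj hi, Qv_pos s, vcC_pos hθ s, r_pos s,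
    β_eq]
  have e : (2 * Real.pi * (σ i : ℝ) * bx a σ z i (oth j i)) =
      -(-2 * Real.pi * bx a σ z i (oth j i)) := by
    rw [s]
    push_cast
    ring
  rw [e, wr_mirror, wr_mirror, pl_mir hv1, ← ell_mirror]
  rfl

/-- The share of a closed leaf. -/
theorem lw_cl {j : Fin m} {v1 : Fin (m + 1) → ℝ} {i : Fin (m + 1)} (hi : a i = 2) (v : ℂ) :
    (cfgOf a σ z).lw v1 (lamC a σ z) j i v = 0 := by
  unfold AT.Cfg.lw
  rw [if_neg (fun h => mem_Op.1 h hi)]

theorem gdv_re_eq (h : MZ2 a σ z) {i : Fin (m + 1)} (hi : a i ≠ 2) :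
    (gdv (UU (xx (z i).re (z i).im) (th (z i).re (z i).im))).re = (z i).re / Real.pi := by
  have h1 := h.gd_uu hi
  rw [gd_eq (by rw [UU_im]; exact h.abs_th hi)] at h1
  have h2 := congrArg Complex.re h1
  rw [re_ofReal_mul] at h2
  rw [eq_div_iff Real.pi_ne_zero]
  linarith

theorem apos (h : MZ2 a σ z) (i : Fin (m + 1)) : (0 : ℝ) < a i := by
  have := h.a2 i
  have h : 0 < a i := by omega
  exact_mod_cast h

/-! ### The bound of an open edge -/

section

variable {v1 : Fin (m + 1) → ℝ} {j : Fin m}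

/-- `par j` has the sign `-1`, `j.succ` has the sign `1`. -/
theorem Lw_np (h : MZ2 a σ z) (hv1 : ∀ i, V1 (v1 i)) (H : EdC a σ z j)
    (o1 : a (Tr.par j) ≠ 2) (o2 : a j.succ ≠ 2)
    (s1 : σ (Tr.par j) = -1) (s2 : σ j.succ = 1) (v w : ℂ) :
    (cfgOf a σ z).Lw v1 (lamC a σ z) j v w =
      LL1 (th (z (Tr.par j)).re (z (Tr.par j)).im) (th (z j.succ).re (z j.succ).im)
        (bx a σ z (Tr.par j) j.succ) (bx a σ z j.succ (Tr.par j))
        (xx (z (Tr.par j)).re (z (Tr.par j)).im) (xx (z j.succ).re (z j.succ).im)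
        (a (Tr.par j)) (a j.succ) (v1 (Tr.par j)) (v1 j.succ) v w := by
  have t2 := h.abs_th o2
  have hne : σ (Tr.par j) ≠ σ j.succ := by rw [s1, s2]; decide
  unfold AT.Cfg.Lw LL1
  rw [lw_neg H (Or.inl rfl) o1 s1, lw_pos H (hv1 _) t2 (Or.inr rfl) o2 s2, oth_cs, oth_su,
    qx_op o2, qx_op o1, qm_ne hne, qm_ne hne.symm]
  unfold AT.Cfg.Fc
  rw [slc_op o1, slc_op o2, vcC_neg s1, vcC_pos t2 s2, yc_op o1 o2, s1, s2, uz_neg, uz_pos,
    yy_neg_right, UU_conj]
  rfl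

/-- `par j` has the sign `1`, `j.succ` has the sign `-1`. -/
theorem Lw_pn (h : MZ2 a σ z) (hv1 : ∀ i, V1 (v1 i)) (H : EdC a σ z j)
    (o1 : a (Tr.par j) ≠ 2) (o2 : a j.succ ≠ 2)
    (s1 : σ (Tr.par j) = 1) (s2 : σ j.succ = -1) (v w : ℂ) :
    (cfgOf a σ z).Lw v1 (lamC a σ z) j v w =
      LL1 (th (z j.succ).re (z j.succ).im) (th (z (Tr.par j)).re (z (Tr.par j)).im)
        (bx a σ z j.succ (Tr.par j)) (bx a σ z (Tr.par j) j.succ)
        (xx (z j.succ).re (z j.succ).im) (xx (z (Tr.par j)).re (z (Tr.par j)).im)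
        (a j.succ) (a (Tr.par j)) (v1 j.succ) (v1 (Tr.par j)) w v := by
  have t1 := h.abs_th o1
  have hne : σ (Tr.par j) ≠ σ j.succ := by rw [s1, s2]; decide
  unfold AT.Cfg.Lw LL1
  rw [lw_neg H (Or.inr rfl) o2 s2, lw_pos H (hv1 _) t1 (Or.inl rfl) o1 s1, oth_cs, oth_su,
    qx_op o2, qx_op o1, qm_ne hne, qm_ne hne.symm]
  unfold AT.Cfg.Fc
  rw [slc_op o1, slc_op o2, vcC_neg s2, vcC_pos t1 s1, yc_op o1 o2, s1, s2, uz_neg, uz_pos,
    yy_comm, yy_neg_right, UU_conj, MX.EE_comm]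
  unfold qe
  ring

/-- Both signs are `-1`. -/
theorem Lw_nn (H : EdC a σ z j) (o1 : a (Tr.par j) ≠ 2) (o2 : a j.succ ≠ 2)
    (s1 : σ (Tr.par j) = -1) (s2 : σ j.succ = -1) (v w : ℂ) :
    (cfgOf a σ z).Lw (fun _ => 13 / 40) (lamC a σ z) j v w =
      LLS (th (z (Tr.par j)).re (z (Tr.par j)).im) (th (z j.succ).re (z j.succ).im)
        (bx a σ z (Tr.par j) j.succ) (bx a σ z j.succ (Tr.par j))
        (xx (z (Tr.par j)).re (z (Tr.par j)).im) (xx (z j.succ).re (z j.succ).im)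
        (a (Tr.par j)) (a j.succ) v w := by
  have he : σ (Tr.par j) = σ j.succ := by rw [s1, s2]
  unfold AT.Cfg.Lw LLS
  rw [lw_neg H (Or.inl rfl) o1 s1, lw_neg H (Or.inr rfl) o2 s2, oth_cs, oth_su, qx_op o2, qx_op o1,
    qm_eq he, qm_eq he.symm]
  unfold AT.Cfg.Fc
  rw [slc_op o1, slc_op o2, vcC_neg s1, vcC_neg s2, yc_op o1 o2, s1, s2, uz_neg, uz_neg]

/-- Both signs are `1`. -/
theorem Lw_pp (h : MZ2 a σ z) (H : EdC a σ z j) (o1 : a (Tr.par j) ≠ 2) (o2 : a j.succ ≠ 2)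
    (s1 : σ (Tr.par j) = 1) (s2 : σ j.succ = 1) (v w : ℂ) :
    (cfgOf a σ z).Lw (fun _ => 13 / 40) (lamC a σ z) j v w =
      LLS (th (z (Tr.par j)).re (z (Tr.par j)).im) (th (z j.succ).re (z j.succ).im)
        (bx a σ z (Tr.par j) j.succ) (bx a σ z j.succ (Tr.par j))
        (xx (z (Tr.par j)).re (z (Tr.par j)).im) (xx (z j.succ).re (z j.succ).im)
        (a (Tr.par j)) (a j.succ) (mir v) (mir w) := by
  have he : σ (Tr.par j) = σ j.succ := by rw [s1, s2]
  have t1 := h.abs_th o1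
  have t2 := h.abs_th o2
  have hs := h.same _ _ (adj_cs j) o1 o2 he
  unfold AT.Cfg.Lw LLS
  rw [lw_pos H V1_t t1 (Or.inl rfl) o1 s1, lw_pos H V1_t t2 (Or.inr rfl) o2 s2, oth_cs, oth_su,
    qx_op o2, qx_op o1, qm_eq he, qm_eq he.symm]
  unfold AT.Cfg.Fc
  rw [slc_op o1, slc_op o2, vcC_pos t1 s1, vcC_pos t2 s2, yc_op o1 o2, s1, s2, uz_pos, uz_pos,
    MX.EE_crit_mir (hs.reg _ _)]

end

/-! ### The closed edges -/

/-- The two forms of the critical point of a closed edge. -/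
theorem yC_one_eq {z : ℂ} (hz : MX.G.Rz z) (hr : Rg 1 (z / Real.pi)) :
    yC 1 (z / Real.pi) = Cl.yc (UU (xx z.re z.im) (th z.re z.im)) := by
  have hpi := Real.pi_pos
  have hθ : |(UU (xx z.re z.im) (th z.re z.im)).im| < Real.pi / 2 := by
    rw [UU_im]; exact abs_th_lt hz.re0 hz.re1 hz.im0
  obtain ⟨-, -, hk⟩ := MX.Rz.cosz hz
  have ev0 : (Real.pi : ℂ) * (z / Real.pi) = z := by
    have : (Real.pi : ℂ) ≠ 0 := by exact_mod_cast Real.pi_ne_zero
    field_simp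
  obtain ⟨c1, c2⟩ := MX.tan_yC hr (by rw [ev0]; exact hk)
  rw [ev0] at c2
  obtain ⟨d1, d2⟩ := Cl.cs_yc hθ
  have hch : cosh (UU (xx z.re z.im) (th z.re z.im)) = 1 / cos z := by
    have := cosh_uu hz.re0 hz.re1 hz.im0
    rw [eq_div_iff hk]
    exact this
  have e1 : sin (Real.pi * (yC 1 (z / Real.pi) - Cl.yc (UU (xx z.re z.im) (th z.re z.im)))) = 0 := by
    rw [mul_sub, Complex.sin_sub, d1, d2, c2, hch]
    push_cast
    ring
  obtain ⟨k, hk'⟩ := Complex.sin_eq_zero_iff.1 e1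
  have e2 : yC 1 (z / Real.pi) - Cl.yc (UU (xx z.re z.im) (th z.re z.im)) = (k : ℂ) := by
    apply mul_left_cancel₀ Cl.pi_ne
    rw [hk']; ring
  have e3 : (yC 1 (z / Real.pi)).re - (Cl.yc (UU (xx z.re z.im) (th z.re z.im))).re = (k : ℝ) := by
    have := congrArg Complex.re e2
    simpa using this
  have hOm : z / Real.pi ∈ Om := by
    rcases hr with h | h
    · exact h.2
    · exact absurd h.1 (by decide)
  have y0 := (AT2.y1_re hOm).1
  have y1 := (AT2.y1_re hOm).2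
  rw [← AT2.yC_one] at y0 y1
  have z0 := Cl.yc_re_pos hθ
  have z1 := Cl.yc_re_lt hθ
  have k0 : k = 0 := by
    have a1 : (k : ℝ) < 1 := by linarith
    have a2 : (-1 : ℝ) < (k : ℝ) := by linarith
    have b1 : k < 1 := by exact_mod_cast a1
    have b2 : -1 < k := by exact_mod_cast a2
    omega
  rw [k0, Int.cast_zero] at e2
  exact sub_eq_zero.1 e2

/-- The hypotheses of a closed edge. -/
theorem MZ2.clH (h : MZ2 a σ z) {i k : Fin (m + 1)} (hik : Adj i k) (hi : a i ≠ 2) (hk : a k = 2)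
    {Φ : ℂ → ℂ} (hΦ : IsPhi1 Φ) (h0 : Φ 0 = Cl.Fc 0) :
    Cl.ClH Φ (th (z i).re (z i).im) (xx (z i).re (z i).im) (bx a σ z i k) (13 / 40) := by
  refine clH_of hΦ h0 (h.bx_pos hik hi) ?_ ?_ (h.thpos hi) (h.clT i k hik hi hk) (h.xxpos hi)
  · rw [qcl, h.gd_uu hi, bx, h.qx_cl' hik hi hk, div_mul_cancel₀ _ (h.pos i hi).2.2.ne']
    congr 1
    unfold E.uu
    ring
  · rw [Cl.Ra, h.gd_uu hi]
    have := h.hR i hi
    rw [div_lt_iff₀ Real.pi_pos] at this
    linarith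

theorem MZ2.clq (h : MZ2 a σ z) {i k : Fin (m + 1)} (hik : Adj i k) (hi : a i ≠ 2) (hk : a k = 2) :
    qx a σ z i k = qcl (UU (xx (z i).re (z i).im) (th (z i).re (z i).im)) := by
  rw [qcl, h.gd_uu hi, h.qx_cl' hik hi hk]
  unfold E.uu
  ring

theorem lam_le (h : MZ2 a σ z) {i k : Fin (m + 1)} (hik : Adj i k) (hi : a i ≠ 2) :
    2 * (bx a σ z i k / a i) * (1 - a i * (13 / 40)) ≤ 13 / 40 ∧
    2 * (bx a σ z i k / a i) * (1 + a i * (13 / 40)) ≤ (4 * bx a σ z i k + 1) * (13 / 40) := by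
  have ha : (3 : ℝ) ≤ a i := by exact_mod_cast h.a3 i hi
  have ha0 : (0 : ℝ) < a i := by linarith
  have hb := h.bx_pos hik hi
  have hb1 := h.bx_le hik hi
  have h1 : bx a σ z i k / a i ≤ 1 := (div_le_one ha0).2 hb1
  have h0 : 0 < bx a σ z i k / a i := div_pos hb ha0
  have e : bx a σ z i k / a i * a i = bx a σ z i k := div_mul_cancel₀ _ ha0.ne'
  constructor
  · have : 2 * (bx a σ z i k / a i) * (1 - a i * (13 / 40)) =
        2 * (bx a σ z i k / a i) - 13 / 20 * bx a σ z i k := by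
      linear_combination (-13 / 20 : ℝ) * e
    have h3 := mul_le_mul_of_nonneg_left ha h0.le
    rw [e] at h3
    linarith
  · have : 2 * (bx a σ z i k / a i) * (1 + a i * (13 / 40)) =
        2 * (bx a σ z i k / a i) + 13 / 20 * bx a σ z i k := by
      linear_combination (13 / 20 : ℝ) * e
    have h3 := mul_le_mul_of_nonneg_left ha h0.le
    rw [e] at h3
    linarith

/-- The data of a closed edge: the growth at the critical point and the share. -/
theorem far_cl (h : MZ2 a σ z) {i k : Fin (m + 1)} (hik : Adj i k) (hi : a i ≠ 2) (hk : a k = 2)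
    {v : ℂ} (hv : v ∈ G0 (th (z i).re (z i).im) (13 / 40)) (hne : v ≠ (cfgOf a σ z).vc i) :
    EdgeOK (.op v) (.cl (σ k)) (EE (.op ((cfgOf a σ z).vc i)) (.cl (σ k))
        (yC (σ k) (gdv (uz (σ i) (z i)))) +
      lwf (th (z i).re (z i).im) (13 / 40)
        (gdv (UU (xx (z i).re (z i).im) (th (z i).re (z i).im)))
        (qx a σ z i k) (bx a σ z i k) (a i) (if σ i = -1 then v else mir v)) := by
  obtain ⟨Φ, hΦ, h0⟩ := Cl.exists_Phi1 (Cl.Fc 0)
  have H := h.clH hik hi hk hΦ h0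
  obtain ⟨P1, P2⟩ := lam_le h hik hi
  have hz := h.rz hi
  have hr := h.rg hik hi hk
  rw [h.neg_mul_sg hik hi hk] at hr
  have hq := h.clq hik hi hk
  have hy := yC_one_eq hz hr
  have key : ∀ w ∈ G0 (th (z i).re (z i).im) (13 / 40),
      w ≠ gdv (UU (xx (z i).re (z i).im) (th (z i).re (z i).im)) →
      EdgeOK (.op w) (.cl 1) (EE (.op (gdv (UU (xx (z i).re (z i).im) (th (z i).re (z i).im))))
          (.cl 1) (Cl.yc (UU (xx (z i).re (z i).im) (th (z i).re (z i).im))) +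
        lwf (th (z i).re (z i).im) (13 / 40)
          (gdv (UU (xx (z i).re (z i).im) (th (z i).re (z i).im)))
          (qx a σ z i k) (bx a σ z i k) (a i) w) := by
    intro w hw hw'
    have K := Cl.W1n (r := -(a i : ℝ) / 2) (lam := bx a σ z i k / a i) H (by linarith) (by linarith)
      hw hw'
    rw [← hq] at K
    have e : Cl.Lsh (EE (.op (gdv (UU (xx (z i).re (z i).im) (th (z i).re (z i).im)))) (.cl 1)
        (Cl.yc (UU (xx (z i).re (z i).im) (th (z i).re (z i).im))))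
        (gdv (UU (xx (z i).re (z i).im) (th (z i).re (z i).im))) (qx a σ z i k)
        (-(2 * Real.pi * bx a σ z i k)) (th (z i).re (z i).im) (13 / 40) (-(a i : ℝ) / 2)
        (bx a σ z i k / a i) w =
        EE (.op (gdv (UU (xx (z i).re (z i).im) (th (z i).re (z i).im)))) (.cl 1)
          (Cl.yc (UU (xx (z i).re (z i).im) (th (z i).re (z i).im))) +
        lwf (th (z i).re (z i).im) (13 / 40)
          (gdv (UU (xx (z i).re (z i).im) (th (z i).re (z i).im)))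
          (qx a σ z i k) (bx a σ z i k) (a i) w := by
      unfold Cl.Lsh lwf
      rw [show -(2 * Real.pi * bx a σ z i k) = -2 * Real.pi * bx a σ z i k by ring]
    rwa [e] at K
  rcases h.sg i with s | s
  · have sk : σ k = -1 := by
      have := h.neg_mul_sg hik hi hk
      rw [s] at this
      linarith
    have t := h.abs_th hi
    rw [vcC_pos t s] at hne ⊢
    have hne' : mir v ≠ gdv (UU (xx (z i).re (z i).im) (th (z i).re (z i).im)) := by
      intro h1
      apply hne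
      rw [← h1, mir_mir]
    have K := (key (mir v) (G0_mir hv) hne').mir_cl
    rw [mir_mir] at K
    have m1 := (MX.yC_mirror hr).1
    have e2 : gdv (uz (σ i) (z i)) = -((starRingEnd ℂ) (z i / Real.pi)) := by
      rw [s, MX.uz_one, hz.gdv_uu', map_div₀, conj_ofReal, neg_div]
    rw [sk, if_neg (by rw [s]; decide), e2, ← m1, hy, EE_cl_mir]
    exact K
  · have sk : σ k = 1 := by
      have := h.neg_mul_sg hik hi hk
      rw [s] at this
      linarith
    rw [vcC_neg s] at hne ⊢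
    rw [sk, if_pos s, s, MX.uz_neg_one, hz.gdv_uu, hy]
    exact key v hv hne

/-- The closed edge at the critical point. -/
theorem near_cl (h : MZ2 a σ z) {i k : Fin (m + 1)} (hik : Adj i k) (hi : a i ≠ 2)
    (hk : a k = 2) : EdgeC (.op ((cfgOf a σ z).vc i)) (.cl (σ k)) (yC (σ k) (gdv (uz (σ i) (z i))))
      (EE (.op ((cfgOf a σ z).vc i)) (.cl (σ k)) (yC (σ k) (gdv (uz (σ i) (z i))))) := by
  obtain ⟨Φ, hΦ, h0⟩ := Cl.exists_Phi1 (Cl.Fc 0)
  have H := h.clH hik hi hk hΦ h0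
  have hz := h.rz hi
  have hr := h.rg hik hi hk
  rw [h.neg_mul_sg hik hi hk] at hr
  have hy := yC_one_eq hz hr
  rcases h.sg i with s | s
  · have sk : σ k = -1 := by
      have := h.neg_mul_sg hik hi hk
      rw [s] at this
      linarith
    have m1 := (MX.yC_mirror hr).1
    have e2 : gdv (uz (σ i) (z i)) = -((starRingEnd ℂ) (z i / Real.pi)) := by
      rw [s, MX.uz_one, hz.gdv_uu', map_div₀, conj_ofReal, neg_div]
    rw [sk, e2, ← m1, hy, vcC_pos (h.abs_th hi) s]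
    exact Cl.W2p H
  · have sk : σ k = 1 := by
      have := h.neg_mul_sg hik hi hk
      rw [s] at this
      linarith
    rw [sk, s, MX.uz_neg_one, hz.gdv_uu, hy, vcC_neg s]
    exact Cl.W2c H

end

end Pool.Agent.MX2
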