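import Pool.Agent.S3.W.FlatW
import Pool.Agent.S3.W.Gain
import Pool.Agent.S3.W.Edg1
import Pool.Agent.S3.Es7
import Pool.Agent.MX.S.EndS
import Pool.Agent.MX2.WCfg

/-!
# The estimates of the edges of a tree with arbitrary signs and closed leaves
-/

set_option autoImplicit false
set_option linter.unusedSectionVars false

namespace Pool.Agent.MX2

open Pool.Agent.S3 hiding Cfg oth OOD lamC cfgOf EdC Qv mem_Op uc_neg uc_pos slc_op slc_cl crit edC
  oth_cs oth_su ell_mirror wr_mirror lamC_sum vcC_neg vcC_pos r_neg r_pos evC lw_neg lw_pos gdv_re_eq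
  apos β_eq yc_eq Qv_neg Qv_pos
open Complex
open Pool.Agent.H63.VC7 (inc)
open Pool.Agent.S3.E
open Pool.Agent.AT (Tr oth Adj adj_cs adj_su oth_cs oth_su mem_inc mem_inc_par mem_inc_succ exists_edge
  Cfg ell_mirror wr_mirror OOD)
open Pool.Agent.AT2 (Rg yC mem_Om Om y1)
open Pool.Agent.MX (qC qm_opp qm_same NB LLS OOS EndS ReflS uz_neg uz_pos qm_ne qm_eq SamHyp SplitS)
open Pool.Agent.MX.G (uz qm)
open Pool.Agent.H25.RK (gdv gdv_re_lt gdv_hasDerivAt ul)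

variable {m : ℕ} [Tr m] {a : Fin (m + 1) → ℕ} {σ : Fin (m + 1) → ℤ} {z : Fin (m + 1) → ℂ}

/-- The data of an edge with opposite signs. -/
theorem OOD_oo {Φ : ℂ → ℂ → ℂ} (hΦ : IsPhi Φ) (h0 : Φ 0 0 = c00)
    (h : MZ2 a σ z) {n p : Fin (m + 1)} (hnp : Adj n p) (on : a n ≠ 2) (op : a p ≠ 2)
    (hs : σ n ≠ σ p) {v1 v1' : ℝ} (hv : V1 v1)
    (hv' : V1 v1') (D : OOD Φ (z n) (z p) (a n) (a p) v1 v1') :
    OO Φ (th (z n).re (z n).im) (th (z p).re (z p).im) (xx (z n).re (z n).im)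
      (xx (z p).re (z p).im) (bx a σ z n p) (bx a σ z p n) v1 v1' where
  hΦ := hΦ
  h0 := h0
  ho := h.opp n p hnp on op hs
  hs := h.split hnp on op hs
  hc := h.xxpos on
  hc' := h.xxpos op
  hθ := D.hθ
  hθ' := D.hθ'
  hv1 := hv
  hv1' := hv'
  hr := by rw [gdv_re_eq h on]; exact D.hr
  hr' := by rw [gdv_re_eq h op]; exact D.hr'

/-- The data of an edge with equal signs. -/
def OOSd (a : Fin (m + 1) → ℕ) (σ : Fin (m + 1) → ℤ) (z : Fin (m + 1) → ℂ) (Φ : ℂ → ℂ → ℂ)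
    (i k : Fin (m + 1)) : Prop :=
  OOS Φ (th (z i).re (z i).im) (th (z k).re (z k).im) (xx (z i).re (z i).im)
      (xx (z k).re (z k).im) (bx a σ z i k) (bx a σ z k i) (a i) (a k) ∧
    EndS Φ (th (z i).re (z i).im) (th (z k).re (z k).im) ∧
    ReflS Φ (th (z i).re (z i).im) (th (z k).re (z k).im)

/-- The data at the open edges with opposite signs. -/
def OODopp (a : Fin (m + 1) → ℕ) (σ : Fin (m + 1) → ℤ) (z : Fin (m + 1) → ℂ) (Φ : ℂ → ℂ → ℂ) :
    Prop := ∀ n p : Fin (m + 1), Adj n p → a n ≠ 2 → a p ≠ 2 → σ n = -1 → σ p = 1 →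
    OOD Φ (z n) (z p) (a n) (a p) (13 / 40) (13 / 40)

/-- The data at the open edges with equal signs. -/
def OOSall (a : Fin (m + 1) → ℕ) (σ : Fin (m + 1) → ℤ) (z : Fin (m + 1) → ℂ) (Φ : ℂ → ℂ → ℂ) :
    Prop := ∀ i k : Fin (m + 1), Adj i k → a i ≠ 2 → a k ≠ 2 → σ i = σ k → OOSd a σ z Φ i k

/-- **The estimate of an open edge away from the critical point.** -/
theorem far_op {Φ : ℂ → ℂ → ℂ} (hΦ : IsPhi Φ) (h0 : Φ 0 0 = c00) (h : MZ2 a σ z)
    {j : Fin m} (H : EdC a σ z j) (o1 : a (Tr.par j) ≠ 2) (o2 : a j.succ ≠ 2)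
    (hO : OODopp a σ z Φ) (hS : OOSall a σ z Φ) {v w : ℂ}
    (hv : v ∈ G0 ((cfgOf a σ z).θ (Tr.par j)) (13 / 40))
    (hw : w ∈ G0 ((cfgOf a σ z).θ j.succ) (13 / 40))
    (hne : v ≠ (cfgOf a σ z).vc (Tr.par j) ∨ w ≠ (cfgOf a σ z).vc j.succ) :
    EdgeOK (.op v) (.op w) ((cfgOf a σ z).Lw (fun _ => 13 / 40) (lamC a σ z) j v w) := by
  have t1 := h.abs_th o1
  have t2 := h.abs_th o2
  rcases h.sg (Tr.par j) with s1 | s1 <;> rcases h.sg j.succ with s2 | s2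
  · -- `(1, 1)`
    obtain ⟨K, hE, hR⟩ := hS _ _ (adj_cs j) o1 o2 (by rw [s1, s2])
    rw [vcC_pos t1 s1, vcC_pos t2 s2] at hne
    rw [Lw_pp h H o1 o2 s1 s2]
    exact K.far_pos hE hR hv hw hne
  · -- `(1, -1)`
    have hs : σ j.succ ≠ σ (Tr.par j) := by rw [s1, s2]; decide
    have D := hO _ _ (adj_su j) o2 o1 s2 s1
    have K := OOD_oo hΦ h0 h (adj_su j) o2 o1 hs V1_t V1_t D
    rw [vcC_neg s2, vcC_pos t1 s1] at hne
    rw [Lw_pn h (fun _ => V1_t) H o1 o2 s1 s2]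
    have hE := D.ends
    have gL := D.gL
    have gR := D.gR
    rw [← bx_opp o1 hs, ← bx_opp o2 hs.symm] at hE
    rw [← bx_opp o1 hs] at gL
    rw [← bx_opp o2 hs.symm] at gR
    exact (K.far D.flat D.flatc hE gL gR (apos h _) (apos h _) hw hv hne.symm).symm
  · -- `(-1, 1)`
    have hs : σ (Tr.par j) ≠ σ j.succ := by rw [s1, s2]; decide
    have D := hO _ _ (adj_cs j) o1 o2 s1 s2
    have K := OOD_oo hΦ h0 h (adj_cs j) o1 o2 hs V1_t V1_t D
    rw [vcC_neg s1, vcC_pos t2 s2] at hne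
    rw [Lw_np h (fun _ => V1_t) H o1 o2 s1 s2]
    have hE := D.ends
    have gL := D.gL
    have gR := D.gR
    rw [← bx_opp o2 hs, ← bx_opp o1 hs.symm] at hE
    rw [← bx_opp o2 hs] at gL
    rw [← bx_opp o1 hs.symm] at gR
    exact K.far D.flat D.flatc hE gL gR (apos h _) (apos h _) hv hw hne
  · -- `(-1, -1)`
    obtain ⟨K, hE, hR⟩ := hS _ _ (adj_cs j) o1 o2 (by rw [s1, s2])
    rw [vcC_neg s1, vcC_neg s2] at hne
    rw [Lw_nn H o1 o2 s1 s2]
    exact K.far hE hR hv hw hne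

/-- The share of an open vertex in terms of its sign. -/
theorem lw_eq (h : MZ2 a σ z) {j : Fin m} (H : EdC a σ z j) {i : Fin (m + 1)}
    (hj : i = (Tr.par j) ∨ i = j.succ) (hi : a i ≠ 2) (v : ℂ) :
    (cfgOf a σ z).lw (fun _ => 13 / 40) (lamC a σ z) j i v =
      lwf (th (z i).re (z i).im) (13 / 40) (gdv (UU (xx (z i).re (z i).im) (th (z i).re (z i).im)))
        (qx a σ z i (oth j i)) (bx a σ z i (oth j i)) (a i) (if σ i = -1 then v else mir v) := by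
  rcases h.sg i with s | s
  · rw [lw_pos H V1_t (h.abs_th hi) hj hi s, if_neg (by rw [s]; decide)]
  · rw [lw_neg H hj hi s, if_pos s]

/-- The bound of a closed edge, the leaf is `j.succ`. -/
theorem Lw_left (h : MZ2 a σ z) {j : Fin m} (H : EdC a σ z j) (o1 : a (Tr.par j) ≠ 2)
    (c2 : a j.succ = 2) (v w : ℂ) : (cfgOf a σ z).Lw (fun _ => 13 / 40) (lamC a σ z) j v w =
      EE (.op ((cfgOf a σ z).vc (Tr.par j))) (.cl (σ j.succ))
        (yC (σ j.succ) (gdv (uz (σ (Tr.par j)) (z (Tr.par j))))) +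
      lwf (th (z (Tr.par j)).re (z (Tr.par j)).im) (13 / 40)
        (gdv (UU (xx (z (Tr.par j)).re (z (Tr.par j)).im) (th (z (Tr.par j)).re (z (Tr.par j)).im)))
        (qx a σ z (Tr.par j) j.succ) (bx a σ z (Tr.par j) j.succ) (a (Tr.par j))
        (if σ (Tr.par j) = -1 then v else mir v) := by
  unfold AT.Cfg.Lw
  rw [lw_eq h H (Or.inl rfl) o1, lw_cl c2, add_zero, oth_cs]
  unfold AT.Cfg.Fc
  rw [slc_op o1, slc_cl c2, yc_left o1 c2]

/-- The bound of a closed edge, the leaf is `par j`. -/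
theorem Lw_right (h : MZ2 a σ z) {j : Fin m} (H : EdC a σ z j) (c1 : a (Tr.par j) = 2)
    (o2 : a j.succ ≠ 2) (v w : ℂ) : (cfgOf a σ z).Lw (fun _ => 13 / 40) (lamC a σ z) j v w =
      EE (.op ((cfgOf a σ z).vc j.succ)) (.cl (σ (Tr.par j)))
        (yC (σ (Tr.par j)) (gdv (uz (σ j.succ) (z j.succ)))) +
      lwf (th (z j.succ).re (z j.succ).im) (13 / 40)
        (gdv (UU (xx (z j.succ).re (z j.succ).im) (th (z j.succ).re (z j.succ).im)))
        (qx a σ z j.succ (Tr.par j)) (bx a σ z j.succ (Tr.par j)) (a j.succ)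
        (if σ j.succ = -1 then w else mir w) := by
  unfold AT.Cfg.Lw
  rw [lw_eq h H (Or.inr rfl) o2, lw_cl c1, add_zero, oth_su]
  unfold AT.Cfg.Fc
  rw [slc_op o2, slc_cl c1, yc_right c1, MX.EE_comm]

/-- **The estimate of an edge at the critical point.** -/
theorem near_edge {Φ : ℂ → ℂ → ℂ} (hΦ : IsPhi Φ) (h0 : Φ 0 0 = c00) (h : MZ2 a σ z)
    {j : Fin m}
    (hO : OODopp a σ z Φ) (hS : OOSall a σ z Φ) :
    EdgeC ((cfgOf a σ z).slc (Tr.par j)) ((cfgOf a σ z).slc j.succ) ((cfgOf a σ z).yc j)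
      ((cfgOf a σ z).Fc j) := by
  unfold AT.Cfg.Fc
  by_cases o1 : a (Tr.par j) = 2
  · have o2 := h.one _ _ (adj_cs j) o1
    rw [slc_op o2, slc_cl o1, yc_right o1, MX.EE_comm]
    exact (near_cl h (adj_su j) o2 o1).symm
  by_cases o2 : a j.succ = 2
  · rw [slc_op o1, slc_cl o2, yc_left o1 o2]
    exact near_cl h (adj_cs j) o1 o2
  have t1 := h.abs_th o1
  have t2 := h.abs_th o2
  rw [slc_op o1, slc_op o2, yc_op o1 o2]
  rcases h.sg (Tr.par j) with s1 | s1 <;> rcases h.sg j.succ with s2 | s2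
  · -- `(1, 1)`
    obtain ⟨K, hE, hR⟩ := hS _ _ (adj_cs j) o1 o2 (by rw [s1, s2])
    rw [vcC_pos t1 s1, vcC_pos t2 s2, s1, s2, uz_pos, uz_pos]
    exact K.near_pos hE
  · -- `(1, -1)`
    have hs : σ j.succ ≠ σ (Tr.par j) := by rw [s1, s2]; decide
    have D := hO _ _ (adj_su j) o2 o1 s2 s1
    have K := OOD_oo hΦ h0 h (adj_su j) o2 o1 hs V1_t V1_t D
    have hE := D.ends
    rw [← bx_opp o1 hs, ← bx_opp o2 hs.symm] at hE
    have k := (K.near D.flatc hE).symm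
    rw [vcC_neg s2, vcC_pos t1 s1, s1, s2, uz_pos, uz_neg, yy_comm, yy_neg_right, UU_conj,
      MX.EE_comm]
    exact k
  · -- `(-1, 1)`
    have hs : σ (Tr.par j) ≠ σ j.succ := by rw [s1, s2]; decide
    have D := hO _ _ (adj_cs j) o1 o2 s1 s2
    have K := OOD_oo hΦ h0 h (adj_cs j) o1 o2 hs V1_t V1_t D
    have hE := D.ends
    rw [← bx_opp o2 hs, ← bx_opp o1 hs.symm] at hE
    have k := K.near D.flatc hE
    rw [vcC_neg s1, vcC_pos t2 s2, s1, s2, uz_pos, uz_neg, yy_neg_right, UU_conj]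
    exact k
  · -- `(-1, -1)`
    obtain ⟨K, hE, hR⟩ := hS _ _ (adj_cs j) o1 o2 (by rw [s1, s2])
    rw [vcC_neg s1, vcC_neg s2, s1, s2, uz_neg, uz_neg]
    exact K.near hE

theorem mu_le_pi (h : MZ2 a σ z) {i k : Fin (m + 1)} (hik : Adj i k) (hi : a i ≠ 2) :
    mu (bx a σ z i k) (a i) (13 / 40) ≤ Real.pi :=
  (mu_le (h.a3 i hi) (h.bx_pos hik hi) (h.bx_le hik hi)).trans (by linarith [Real.pi_pos])

/-- The slope at a vertex of weight `3`. -/
theorem mu_three {b θ : ℝ} (h : 3 / 32 * b ≤ Real.tan θ) (hb : 0 < b) :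
    mu b ((3 : ℕ) : ℝ) (13 / 40) ≤ 14 / 25 * Real.tan θ := by
  have hpi := Real.pi_lt_d2
  unfold mu
  have e : b / ((3 : ℕ) : ℝ) * (2 * Real.pi * (1 - ((3 : ℕ) : ℝ) * (13 / 40))) =
      b * Real.pi / 60 := by
    push_cast
    ring
  rw [e]
  nlinarith

/-- The data of the edges with opposite signs. -/
theorem MZ2.oppD {Φ : ℂ → ℂ → ℂ} (hΦ : IsPhi Φ) (h0 : Φ 0 0 = c00) (h : MZ2 a σ z) :
    OODopp a σ z Φ := by
  intro n p hnp on op s1 s2
  have hs : σ n ≠ σ p := by rw [s1, s2]; decide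
  have tn := Ht_of (h.thpos on) (h.hT n on)
  have tp := Ht_of (h.thpos op) (h.hT p op)
  have K : OO Φ (th (z n).re (z n).im) (th (z p).re (z p).im) (xx (z n).re (z n).im)
      (xx (z p).re (z p).im) (bx a σ z n p) (bx a σ z p n) (13 / 40) (13 / 40) :=
    ⟨hΦ, h0, h.opp n p hnp on op hs, h.split hnp on op hs, h.xxpos on, h.xxpos op, tn, tp, V1_t,
      V1_t, by rw [gdv_re_eq h on]; exact h.hR n on, by rw [gdv_re_eq h op]; exact h.hR p op⟩
  have hE := endAll' hΦ h0 K.ho K.hs (h.xxpos on) (h.xxpos op) tn tp V1_t V1_t le_rfl le_rfl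
    (mu_le_pi h hnp on) (mu_le_pi h hnp.symm op)
  rw [bx_opp op hs, bx_opp on hs.symm] at hE
  refine ⟨tn, tp, h.hR n on, h.hR p op, flatAll_of tn tp K.ho.S le_rfl le_rfl,
    flatC_of K le_rfl le_rfl, hE, ?_, ?_⟩
  · rw [← bx_opp op hs]
    rcases (h.a3 n on).eq_or_lt with e | e
    · rw [← e]
      exact gainL_of' hΦ (mu_three (h.hG n p hnp e.symm op hs) (h.bx_pos hnp on))
    · exact gainL_nonpos hΦ (mu_nonpos e (h.bx_pos hnp on))
  · rw [← bx_opp on hs.symm]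
    rcases (h.a3 p op).eq_or_lt with e | e
    · rw [← e]
      exact gainR_of' hΦ (mu_three (h.hG p n hnp.symm e.symm on hs.symm) (h.bx_pos hnp.symm op))
    · exact gainR_nonpos hΦ (mu_nonpos e (h.bx_pos hnp.symm op))

/-- The share of an edge with equal signs. -/
theorem MZ2.splitS (h : MZ2 a σ z) {i k : Fin (m + 1)} (hik : Adj i k) (hi : a i ≠ 2)
    (hk : a k ≠ 2) (hs : σ i = σ k) :
    SplitS (th (z i).re (z i).im) (th (z k).re (z k).im) (xx (z i).re (z i).im)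
      (xx (z k).re (z k).im) (bx a σ z i k) (bx a σ z k i) where
  b1 := h.share i k hik hi hk hs
  b1' := h.share k i hik.symm hk hi hs.symm
  hQ := h.hQS hi hk hs
  hQ' := h.hQS hk hi hs.symm

/-- The data of the edges with equal signs. -/
theorem MZ2.sameD {Φ : ℂ → ℂ → ℂ} (hΦ : IsPhi Φ) (h0 : Φ 0 0 = c00) (h : MZ2 a σ z)
    (hR : ∀ θ θ' : ℝ, SamHyp θ θ' → ReflS Φ θ θ') : OOSall a σ z Φ := by
  intro i k hik hi hk hs
  have hS := h.same i k hik hi hk hs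
  refine ⟨⟨hΦ, h0, hS, h.splitS hik hi hk hs, h.xxpos hi, h.xxpos hk,
    by rw [gdv_re_eq h hi]; exact h.hR i hi,
    by rw [gdv_re_eq h hk]; exact h.hR k hk, apos h i, apos h k, h.nb i k hik hi hk hs,
    h.nb k i hik.symm hk hi hs.symm⟩,
    fun v w hp h1 h2 => hp.end_lt hΦ h0 h1 h2, hR _ _ hS⟩

/-- **The estimates of the edges of the tree.** -/
theorem edg_t1 {Φ : ℂ → ℂ → ℂ} (hΦ : IsPhi Φ) (h0 : Φ 0 0 = c00) (h : MZ2 a σ z)
    (hO : OODopp a σ z Φ) (hS : OOSall a σ z Φ) :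
    (cfgOf a σ z).Edg (fun _ => 13 / 40) (lamC a σ z) where
  v0 := fun i _ => V1_t.pos
  vh := fun i _ => by norm_num
  vx := fun i hi0 => by
    have hi := mem_Op.1 hi0
    have h1 := h.hR i hi
    have h3 := h.abs_th hi
    have h4 : 0 < (z i).re / Real.pi := div_pos (h.pos i hi).1 Real.pi_pos
    rcases h.sg i with s | s
    · rw [vcC_pos h3 s, mir_re, abs_neg, gdv_re_eq h hi, abs_of_pos h4]; exact h1
    · rw [vcC_neg s, gdv_re_eq h hi, abs_of_pos h4]; exact h1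
  lam1 := fun i hi => lamC_sum h (mem_Op.1 hi)
  far := by
    intro j v w hv hw hne
    have H := edC h j
    by_cases o1 : a (Tr.par j) = 2
    · have o2 := h.one _ _ (adj_cs j) o1
      have e1 : (cfgOf a σ z).sv (Tr.par j) v = .cl (σ (Tr.par j)) :=
        if_neg fun hc => mem_Op.1 hc o1
      have e2 : (cfgOf a σ z).sv j.succ w = .op w := if_pos (mem_Op.2 o2)
      have hne' : w ≠ (cfgOf a σ z).vc j.succ := by
        rcases hne with h1 | h1
        · exact absurd o1 (mem_Op.1 h1.1)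
        · exact h1.2
      rw [e1, e2, Lw_right h H o1 o2]
      exact (far_cl h (adj_su j) o2 o1 (hw (mem_Op.2 o2)) hne').symm
    by_cases o2 : a j.succ = 2
    · have e1 : (cfgOf a σ z).sv (Tr.par j) v = .op v := if_pos (mem_Op.2 o1)
      have e2 : (cfgOf a σ z).sv j.succ w = .cl (σ j.succ) := if_neg fun hc => mem_Op.1 hc o2
      have hne' : v ≠ (cfgOf a σ z).vc (Tr.par j) := by
        rcases hne with h1 | h1
        · exact h1.2
        · exact absurd o2 (mem_Op.1 h1.1)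
      rw [e1, e2, Lw_left h H o1 o2]
      exact far_cl h (adj_cs j) o1 o2 (hv (mem_Op.2 o1)) hne'
    have e1 : (cfgOf a σ z).sv (Tr.par j) v = .op v := if_pos (mem_Op.2 o1)
    have e2 : (cfgOf a σ z).sv j.succ w = .op w := if_pos (mem_Op.2 o2)
    have hne' : v ≠ (cfgOf a σ z).vc (Tr.par j) ∨ w ≠ (cfgOf a σ z).vc j.succ := by
      rcases hne with h | h
      · exact Or.inl h.2
      · exact Or.inr h.2
    rw [e1, e2]
    exact far_op hΦ h0 h H o1 o2 hO hS (hv (mem_Op.2 o1)) (hw (mem_Op.2 o2)) hne'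
  near := fun j => near_edge hΦ h0 h hO hS

end Pool.Agent.MX2
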