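import Pool.Agent.MX.Low6
import Pool.Agent.MX2.WEdg1
import Pool.Agent.MX2.LowC

/-!
# The small indices: the tree with arbitrary signs and closed leaves
-/

set_option autoImplicit false
set_option linter.unusedSectionVars false

namespace Pool.Agent.MX2

open Pool.Agent.S3 hiding Cfg oth OOD lamC cfgOf EdC Qv mem_Op uc_neg uc_pos slc_op slc_cl crit edC
  oth_cs oth_su ell_mirror wr_mirror lamC_sum vcC_neg vcC_pos r_neg r_pos evC lw_neg lw_pos gdv_re_eq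
  apos β_eq yc_eq Qv_neg Qv_pos J0
open Complex
open Pool.Agent.H63.VC7 (inc)
open Pool.Agent.S3.E
open Pool.Agent.AT (Tr oth Adj adj_cs adj_su oth_cs oth_su mem_inc mem_inc_par mem_inc_succ exists_edge
  Cfg OOD adj_oth J0)
open Pool.Agent.AT2 (Rg yC)
open Pool.Agent.MX (Bm tq rM tM tM_neg tM_pos tq_A tq_B rM_A rM_B TP tp_td tp_tk tk rK Ht4 tk_cost
  rK_nonneg low_K1 low_K1l low_K1r lowT_ge lowT_rr lowT_rg lowT_gr lowS_bad lowS_rr lowS_rg lowS_gr
  rseg_eq)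
open Pool.Agent.MX.G (uz qm)
open Pool.Agent.H63.VC3 Pool.Agent.H63.VC4 Pool.Agent.H63.VC6 Pool.Agent.H63.VC7 Complex
open Pool.Agent.H25.RK Pool.Agent.H63.GO Filter Topology MeasureTheory
open scoped BigOperators

variable {m : ℕ} [Tr m]

section

variable {a : Fin (m + 1) → ℕ} {σ : Fin (m + 1) → ℤ} {z : Fin (m + 1) → ℂ}

theorem MZ2.ht4 (h : MZ2 a σ z) {i : Fin (m + 1)} (ho : a i ≠ 2) (hi : Bm σ i) :
    Ht4 (th (z i).re (z i).im) := by
  obtain ⟨k, h1, h2⟩ := hi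
  have hk : a k ≠ 2 := fun hk => h.clo i k h1 ho hk h2
  exact (h.same i k h1 ho hk h2).ht4

theorem MZ2.ht (h : MZ2 a σ z) {i : Fin (m + 1)} (ho : a i ≠ 2) : Ht (th (z i).re (z i).im) :=
  Ht_of (h.thpos ho) (h.hT i ho)

theorem tq_TP (h : MZ2 a σ z) {i : Fin (m + 1)} (ho : a i ≠ 2) :
    TP (th (z i).re (z i).im) (tq σ z i) := by
  by_cases hi : Bm σ i
  · rw [tq_B hi]; exact tp_tk (h.ht4 ho hi)
  · rw [tq_A hi]; exact tp_td (h.ht ho)

/-- At the test points the two shares agree. -/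
theorem lw_tM {v1 : Fin (m + 1) → ℝ} {lam : Fin m → Fin (m + 1) → ℝ} (j : Fin m)
    {i : Fin (m + 1)} (h : MZ2 a σ z) (hv1 : V1 (v1 i)) (h1 : 1 / 4 ≤ v1 i) :
    (cfgOf a σ z).lw v1 lam j i (tM σ z i) = (cfgOf a σ z).lv j i (tM σ z i) := by
  by_cases ho : a i = 2
  · unfold AT.Cfg.lw AT.Cfg.lv
    rw [if_neg (fun hc => mem_Op.1 hc ho), if_neg (fun hc => mem_Op.1 hc ho)]
  have e : pl ((cfgOf a σ z).θ i) (v1 i) (tM σ z i) = tM σ z i := by
    show pl (th (z i).re (z i).im) (v1 i) (tM σ z i) = tM σ z i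
    rcases h.sg i with s | s
    · rw [tM_pos s, pl_mir hv1, (tq_TP h ho).pl h1]
    · rw [tM_neg s, (tq_TP h ho).pl h1]
  unfold AT.Cfg.lw
  rw [e, sub_self, mul_zero, add_zero, if_pos (mem_Op.2 ho)]

theorem wr_tM {i : Fin (m + 1)} (h : MZ2 a σ z) (ho : a i ≠ 2) (h4 : Bm σ i → 4 ≤ a i) :
    -(wr ((cfgOf a σ z).r i) (tM σ z i)).re ≤ rM σ z i := by
  have key : -(wr ((cfgOf a σ z).r i) (tM σ z i)).re =
      2 * Real.pi * (tq σ z i).im * (1 - a i * (tq σ z i).re) := by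
    rw [wr_reW, neg_neg]
    rcases h.sg i with s | s
    · rw [tM_pos s, r_pos s, mir_im, mir_re]
      ring
    · rw [tM_neg s, r_neg s]
      ring
  rw [key]
  by_cases hi : Bm σ i
  · have ha : (4 : ℝ) ≤ a i := by exact_mod_cast h4 hi
    rw [tq_B hi, rM_B hi]
    exact tk_cost (h.ht4 ho hi) ha
  · have ha : (3 : ℝ) ≤ a i := by exact_mod_cast h.a3 i ho
    rw [tq_A hi, rM_A hi]
    exact td_cost (h.ht ho) ha

theorem rM_nonneg (h : MZ2 a σ z) {i : Fin (m + 1)} (ho : a i ≠ 2) : 0 ≤ rM σ z i := by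
  have := Real.pi_pos
  by_cases hi : Bm σ i
  · rw [rM_B hi]; exact rK_nonneg (h.ht4 ho hi)
  · rw [rM_A hi]; positivity

section

variable {Φ : ℂ → ℂ → ℂ} {v1 : Fin (m + 1) → ℝ}

theorem tq_opp (h : MZ2 a σ z) (hΦ : IsPhi Φ) (h0 : Φ 0 0 = c00) {n p : Fin (m + 1)}
    (on : a n ≠ 2) (op : a p ≠ 2) :
    rM σ z n + rM σ z p < (Φ (tq σ z n) ((starRingEnd ℂ) (tq σ z p))).re ∧
      (Φ 0 0).re < (Φ (tq σ z n) ((starRingEnd ℂ) (tq σ z p))).re := by
  by_cases hn : Bm σ n <;> by_cases hp : Bm σ p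
  · rw [tq_B hn, tq_B hp, rM_B hn, rM_B hp]
    exact low_K1 hΦ h0 (h.ht4 on hn) (h.ht4 op hp)
  · rw [tq_B hn, tq_A hp, rM_B hn, rM_A hp]
    exact low_K1r hΦ h0 (h.ht4 on hn) (h.ht op)
  · rw [tq_A hn, tq_B hp, rM_A hn, rM_B hp]
    exact low_K1l hΦ h0 (h.ht on) (h.ht4 op hp)
  · rw [tq_A hn, tq_A hp, rM_A hn, rM_A hp]
    exact ⟨low_D1 hΦ h0 (h.ht on) (h.ht op), (low_D0 hΦ h0 (h.ht on) (h.ht op)).2⟩

/-- The hypotheses of the abstract theorem at an open edge. -/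
theorem low_edge (h : MZ2 a σ z) (hΦ : IsPhi Φ) (h0 : Φ 0 0 = c00) (hO : OODopp a σ z Φ)
    (hS : OOSall a σ z Φ) {j : Fin m} (o1 : a (Tr.par j) ≠ 2) (o2 : a j.succ ≠ 2) :
    (rM σ z (Tr.par j) + rM σ z j.succ <
      (cfgOf a σ z).Lw (fun _ => 13 / 40) (lamC a σ z) j (tM σ z (Tr.par j)) (tM σ z j.succ)) ∧
    (∀ x x' : ℝ, |x| ≤ 1 / 2 → |x'| ≤ 1 / 2 → EdgeOK (.op (x : ℂ)) (.op (x' : ℂ))
      ((cfgOf a σ z).Lw (fun _ => 13 / 40) (lamC a σ z) j (tM σ z (Tr.par j))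
        (tM σ z j.succ))) ∧
    (∀ (x : ℝ) (w : ℂ), |x| ≤ 1 / 2 → w ∈ G0 (th (z j.succ).re (z j.succ).im) (13 / 40) →
      EdgeOK (.op (x : ℂ)) (.op w)
        ((cfgOf a σ z).Lw (fun _ => 13 / 40) (lamC a σ z) j (tM σ z (Tr.par j)) w)) ∧
    (∀ (v : ℂ) (x : ℝ), |x| ≤ 1 / 2 →
      v ∈ G0 (th (z (Tr.par j)).re (z (Tr.par j)).im) (13 / 40) →
      EdgeOK (.op v) (.op (x : ℂ))
        ((cfgOf a σ z).Lw (fun _ => 13 / 40) (lamC a σ z) j v (tM σ z j.succ))) := by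
  have H := edC h j
  have ha0 : ∀ i, (0 : ℝ) < a i := apos h
  have h14 : (1 : ℝ) / 4 ≤ 13 / 40 := by norm_num
  have TP1 := tq_TP h o1
  have TP2 := tq_TP h o2
  rcases h.sg (Tr.par j) with s1 | s1 <;> rcases h.sg j.succ with s2 | s2
  · -- `(1, 1)`
    have hs : σ (Tr.par j) = σ j.succ := by rw [s1, s2]
    obtain ⟨K, -, -⟩ := hS _ _ (adj_cs j) o1 o2 hs
    have b1 : Bm σ (Tr.par j) := ⟨_, adj_cs j, hs⟩
    have b2 : Bm σ j.succ := ⟨_, adj_su j, hs.symm⟩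
    simp only [Lw_pp h H o1 o2 s1 s2, tM_pos s1, tM_pos s2, mir_mir, tq_B b1, tq_B b2, rM_B b1,
      rM_B b2]
    refine ⟨lowS_bad K, fun x x' hx hx' => lowS_rr K hx hx', ?_, ?_⟩
    · intro x w hx hw
      have k := (lowS_rg K (mir_mem hw) (x := -x) (by rwa [abs_neg])).mir_both
      rwa [mir_mir, mir_ofReal, neg_neg] at k
    · intro v x hx hv
      have k := (lowS_gr K (mir_mem hv) (x := -x) (by rwa [abs_neg])).mir_both
      rwa [mir_mir, mir_ofReal, neg_neg] at k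
  · -- `(1, -1)`
    have hs : σ j.succ ≠ σ (Tr.par j) := by rw [s1, s2]; decide
    have D := hO _ _ (adj_su j) o2 o1 s2 s1
    have K := OOD_oo hΦ h0 h (adj_su j) o2 o1 hs V1_t V1_t D
    have gL := D.gL
    have gR := D.gR
    rw [← bx_opp o1 hs] at gL
    rw [← bx_opp o2 hs.symm] at gR
    obtain ⟨c1, c2⟩ := tq_opp h hΦ h0 o2 o1
    simp only [Lw_pn h (fun _ => V1_t) H o1 o2 s1 s2, tM_pos s1, tM_neg s2]
    refine ⟨?_, ?_, ?_, ?_⟩
    · have := lowT_ge K gL gR (ha0 _) (ha0 _) h14 h14 TP2 TP1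
      linarith
    · intro x x' hx hx'
      exact (lowT_rr K D.flat gL gR (ha0 _) (ha0 _) h14 h14 TP2 TP1 c2 hx' hx).symm
    · intro x w hx hw
      exact (lowT_gr K D.flat gL gR (ha0 _) (ha0 _) h14 TP1 hw hx).symm
    · intro v x hx hv
      exact (lowT_rg K D.flat gL gR (ha0 _) (ha0 _) h14 TP2 hv hx).symm
  · -- `(-1, 1)`
    have hs : σ (Tr.par j) ≠ σ j.succ := by rw [s1, s2]; decide
    have D := hO _ _ (adj_cs j) o1 o2 s1 s2
    have K := OOD_oo hΦ h0 h (adj_cs j) o1 o2 hs V1_t V1_t D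
    have gL := D.gL
    have gR := D.gR
    rw [← bx_opp o2 hs] at gL
    rw [← bx_opp o1 hs.symm] at gR
    obtain ⟨c1, c2⟩ := tq_opp h hΦ h0 o1 o2
    simp only [Lw_np h (fun _ => V1_t) H o1 o2 s1 s2, tM_pos s2, tM_neg s1]
    refine ⟨?_, ?_, ?_, ?_⟩
    · have := lowT_ge K gL gR (ha0 _) (ha0 _) h14 h14 TP1 TP2
      linarith
    · intro x x' hx hx'
      exact lowT_rr K D.flat gL gR (ha0 _) (ha0 _) h14 h14 TP1 TP2 c2 hx hx'
    · intro x w hx hw
      exact lowT_rg K D.flat gL gR (ha0 _) (ha0 _) h14 TP1 hw hx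
    · intro v x hx hv
      exact lowT_gr K D.flat gL gR (ha0 _) (ha0 _) h14 TP2 hv hx
  · -- `(-1, -1)`
    have hs : σ (Tr.par j) = σ j.succ := by rw [s1, s2]
    obtain ⟨K, -, -⟩ := hS _ _ (adj_cs j) o1 o2 hs
    have b1 : Bm σ (Tr.par j) := ⟨_, adj_cs j, hs⟩
    have b2 : Bm σ j.succ := ⟨_, adj_su j, hs.symm⟩
    simp only [Lw_nn H o1 o2 s1 s2, tM_neg s1, tM_neg s2, tq_B b1, tq_B b2, rM_B b1, rM_B b2]
    exact ⟨lowS_bad K, fun x x' hx hx' => lowS_rr K hx hx', fun x w hx hw => lowS_rg K hw hx,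
      fun v x hx hv => lowS_gr K hv hx⟩

/-! ### The closed edges -/

/-- The growth of a closed edge at the critical point. -/
theorem EE_cl (h : MZ2 a σ z) {i k : Fin (m + 1)} (hik : Adj i k) (hi : a i ≠ 2)
    (hk : a k = 2) : EE (.op ((cfgOf a σ z).vc i)) (.cl (σ k)) (yC (σ k) (gdv (uz (σ i) (z i)))) =
      EE (.op (gdv (UU (xx (z i).re (z i).im) (th (z i).re (z i).im)))) (.cl 1)
        (Cl.yc (UU (xx (z i).re (z i).im) (th (z i).re (z i).im))) := by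
  have hz := h.rz hi
  have hr := h.rg hik hi hk
  rw [h.neg_mul_sg hik hi hk] at hr
  have hy := yC_one_eq hz hr
  rcases h.sg i with s | s
  · have sk : σ k = -1 := by
      have := h.neg_mul_sg hik hi hk
      rw [s] at this
      linarith
    have m1 := (MX.yC_mirror hr).1
    have e2 : gdv (uz (σ i) (z i)) = -((starRingEnd ℂ) (z i / Real.pi)) := by
      rw [s, MX.uz_one, hz.gdv_uu', map_div₀, conj_ofReal, neg_div]
    rw [sk, e2, ← m1, hy, vcC_pos (h.abs_th hi) s, EE_cl_mir]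
  · have sk : σ k = 1 := by
      have := h.neg_mul_sg hik hi hk
      rw [s] at this
      linarith
    rw [sk, s, MX.uz_neg_one, hz.gdv_uu, hy, vcC_neg s]

/-- The closed edge at the test point. -/
theorem low_cl (h : MZ2 a σ z) {i k : Fin (m + 1)} (hik : Adj i k) (hi : a i ≠ 2)
    (hk : a k = 2) {L : ℝ} (hL : L = EE (.op ((cfgOf a σ z).vc i)) (.cl (σ k))
        (yC (σ k) (gdv (uz (σ i) (z i)))) +
      lwf (th (z i).re (z i).im) (13 / 40)
        (gdv (UU (xx (z i).re (z i).im) (th (z i).re (z i).im)))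
        (qx a σ z i k) (bx a σ z i k) (a i) (tq σ z i)) :
    rM σ z i < L ∧ ∀ x : ℝ, |x| ≤ 1 / 2 → EdgeOK (.op (x : ℂ)) (.cl (σ k)) L := by
  obtain ⟨Φ1, hΦ1, h01⟩ := Cl.exists_Phi1 (Cl.Fc 0)
  have H := h.clH hik hi hk hΦ1 h01
  have T := tq_TP h hi
  have hre : |(tq σ z i).re| < 1 / 2 := by
    rw [abs_of_pos T.re0]
    linarith [T.re1]
  have k1 := tp_ge H hre T.im
  have k2 : (Φ1 (tq σ z i)).re ≤ L := by
    rw [hL, EE_cl h hik hi hk]
    unfold lwf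
    rw [T.pl (by norm_num), sub_self, mul_zero, add_zero, h.clq hik hi hk,
      show -2 * Real.pi * bx a σ z i k = -(2 * Real.pi * bx a σ z i k) by ring]
    exact k1
  have k3 : rM σ z i < (Φ1 (tq σ z i)).re ∧ (Φ1 0).re < (Φ1 (tq σ z i)).re := by
    by_cases hB : Bm σ i
    · rw [tq_B hB, rM_B hB]
      exact ⟨low_K2c hΦ1 h01 (h.ht4 hi hB), low_K3c hΦ1 (h.ht4 hi hB)⟩
    · rw [tq_A hB, rM_A hB]
      exact ⟨Cl.low_D2c hΦ1 h01 (h.ht hi), Cl.low_D3c hΦ1 (h.ht hi)⟩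
  exact ⟨k3.1.trans_le k2, fun x hx => Cl.low_C1 hΦ1 h01 (h.sg k) hx (k3.2.trans_le k2)⟩

theorem if_tM (h : MZ2 a σ z) (i : Fin (m + 1)) :
    (if σ i = -1 then tM σ z i else mir (tM σ z i)) = tq σ z i := by
  rcases h.sg i with s | s
  · rw [if_neg (by rw [s]; decide), tM_pos s, mir_mir]
  · rw [if_pos s, tM_neg s]

theorem mem_sT {b : Bool} {i : Fin (m + 1)} (ho : a i ≠ 2) {v : ℂ}
    (h : v ∈ (cfgOf a σ z).sT v1 b i) :
    (b = true ∧ v ∈ AT.rseg) ∨ (b = false ∧ v ∈ G0 (th (z i).re (z i).im) (v1 i)) := by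
  unfold AT.Cfg.sT at h
  cases b
  · right
    simp only [Bool.false_eq_true, if_false] at h
    exact ⟨rfl, h.1 (mem_Op.2 ho)⟩
  · left
    simp only [if_true] at h
    exact ⟨rfl, h⟩

/-- **The hypotheses of the abstract theorem for a tree with arbitrary signs and closed leaves.** -/
theorem lowH_of (h : MZ2 a σ z) (h4 : ∀ i, Bm σ i → 4 ≤ a i) (hΦ : IsPhi Φ) (h0 : Φ 0 0 = c00)
    (hO : OODopp a σ z Φ) (hS : OOSall a σ z Φ) :
    (cfgOf a σ z).LowH (fun _ => 13 / 40) (lamC a σ z) (tM σ z) 0 (rM σ z) where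
  hg := rfl
  hρ := fun i hi => rM_nonneg h (mem_Op.1 hi)
  wt := fun i hi => wr_tM h (mem_Op.1 hi) (h4 i)
  bad := by
    intro j
    have h14 : (1 : ℝ) / 4 ≤ 13 / 40 := by norm_num
    have e1 : ∀ i, a i ≠ 2 → (cfgOf a σ z).cr 0 (rM σ z) i = rM σ z i := by
      intro i hi
      unfold AT.Cfg.cr; rw [if_pos (mem_Op.2 hi), zero_add]
    have e2 : ∀ i, a i = 2 → (cfgOf a σ z).cr 0 (rM σ z) i = 0 := by
      intro i hi
      unfold AT.Cfg.cr; rw [if_neg (fun hc => mem_Op.1 hc hi)]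
    have e3 : (cfgOf a σ z).Lt j (tM σ z (Tr.par j)) (tM σ z j.succ) =
        (cfgOf a σ z).Lw (fun _ => 13 / 40) (lamC a σ z) j (tM σ z (Tr.par j)) (tM σ z j.succ) := by
      unfold AT.Cfg.Lw AT.Cfg.Lt
      rw [lw_tM j h V1_t h14, lw_tM j h V1_t h14]
    rw [e3]
    by_cases o1 : a (Tr.par j) = 2
    · have o2 := h.one _ _ (adj_cs j) o1
      rw [e2 _ o1, e1 _ o2, zero_add, Lw_right h (edC h j) o1 o2, if_tM h]
      exact (low_cl h (adj_su j) o2 o1 rfl).1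
    by_cases o2 : a j.succ = 2
    · rw [e1 _ o1, e2 _ o2, add_zero, Lw_left h (edC h j) o1 o2, if_tM h]
      exact (low_cl h (adj_cs j) o1 o2 rfl).1
    rw [e1 _ o1, e1 _ o2]
    exact (low_edge h hΦ h0 hO hS o1 o2).1
  good := by
    intro j b b' hb hb' hbb v hv w hw
    have h14 : (1 : ℝ) / 4 ≤ 13 / 40 := by norm_num
    have lt_t : ∀ i v, (cfgOf a σ z).lT (fun _ => 13 / 40) (lamC a σ z) (tM σ z) 0 true j i v =
        (cfgOf a σ z).lv j i (tM σ z i) := by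
      intro i v
      unfold AT.Cfg.lT
      simp
    have lt_f : ∀ i v, (cfgOf a σ z).lT (fun _ => 13 / 40) (lamC a σ z) (tM σ z) 0 false j i v =
        (cfgOf a σ z).lw (fun _ => 13 / 40) (lamC a σ z) j i v := by
      intro i v
      unfold AT.Cfg.lT
      simp
    have sv_op : ∀ i v, a i ≠ 2 → (cfgOf a σ z).sv i v = .op v := fun i v hi =>
      if_pos (mem_Op.2 hi)
    have sv_cl : ∀ i v, a i = 2 → (cfgOf a σ z).sv i v = .cl (σ i) := fun i v hi =>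
      if_neg fun hc => mem_Op.1 hc hi
    by_cases o1 : a (Tr.par j) = 2
    · have o2 := h.one _ _ (adj_cs j) o1
      have hbf : b = false := by
        cases b
        · rfl
        · exact absurd o1 (mem_Op.1 (hb rfl))
      have hbt : b' = true := by
        rcases hbb with h1 | h1
        · rw [hbf] at h1
          exact absurd h1 (by decide)
        · exact h1
      subst hbf hbt
      rw [sv_cl _ _ o1, sv_op _ _ o2, lt_f, lt_t]
      rcases mem_sT o2 hw with ⟨-, hw'⟩ | ⟨e, -⟩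
      · have k := low_cl h (adj_su j) o2 o1 (L := (cfgOf a σ z).Lw (fun _ => 13 / 40) (lamC a σ z) j v
          (tM σ z j.succ)) (by rw [Lw_right h (edC h j) o1 o2, if_tM h])
        rw [rseg_eq hw']
        refine ((k.2 w.re hw'.2).symm).mono (le_of_eq ?_)
        unfold AT.Cfg.Lw
        rw [lw_tM j h V1_t h14]
      · exact absurd e (by decide)
    by_cases o2 : a j.succ = 2
    · have hbf : b' = false := by
        cases b'
        · rfl
        · exact absurd o2 (mem_Op.1 (hb' rfl))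
      have hbt : b = true := by
        rcases hbb with h1 | h1
        · exact h1
        · rw [hbf] at h1
          exact absurd h1 (by decide)
      subst hbf hbt
      rw [sv_op _ _ o1, sv_cl _ _ o2, lt_f, lt_t]
      rcases mem_sT o1 hv with ⟨-, hv'⟩ | ⟨e, -⟩
      · have k := low_cl h (adj_cs j) o1 o2 (L := (cfgOf a σ z).Lw (fun _ => 13 / 40) (lamC a σ z) j
          (tM σ z (Tr.par j)) w) (by rw [Lw_left h (edC h j) o1 o2, if_tM h])
        rw [rseg_eq hv']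
        refine (k.2 v.re hv'.2).mono (le_of_eq ?_)
        unfold AT.Cfg.Lw
        rw [lw_tM j h V1_t h14]
      · exact absurd e (by decide)
    obtain ⟨-, k2, k3, k4⟩ := low_edge h hΦ h0 hO hS o1 o2
    rw [sv_op _ _ o1, sv_op _ _ o2]
    rcases mem_sT o1 hv with ⟨e, hv'⟩ | ⟨e, hv'⟩
    · subst e
      rcases mem_sT o2 hw with ⟨e', hw'⟩ | ⟨e', hw'⟩
      · subst e'
        rw [lt_t, lt_t, rseg_eq hv', rseg_eq hw']
        refine (k2 v.re w.re hv'.2 hw'.2).mono (le_of_eq ?_)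
        unfold AT.Cfg.Lw
        rw [lw_tM j h V1_t h14, lw_tM j h V1_t h14]
      · subst e'
        rw [lt_t, lt_f, rseg_eq hv']
        refine (k3 v.re w hv'.2 hw').mono (le_of_eq ?_)
        unfold AT.Cfg.Lw
        rw [lw_tM j h V1_t h14]
    · subst e
      rcases mem_sT o2 hw with ⟨e', hw'⟩ | ⟨e', hw'⟩
      · subst e'
        rw [lt_f, lt_t, rseg_eq hw']
        refine (k4 v w.re hw'.2 hv').mono (le_of_eq ?_)
        unfold AT.Cfg.Lw
        rw [lw_tM j h V1_t h14]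
      · subst e'
        rcases hbb with h | h
        · exact absurd h (by decide)
        · exact absurd h (by decide)

/-- The closed leaves have one edge. -/
theorem MZ2.inc1 (h : MZ2 a σ z) {i : Fin (m + 1)} (hi : i ∉ (cfgOf a σ z).Op) :
    ∃ j, inc (Tr.par (m := m)) Fin.succ i = {j} := by
  have hi' : a i = 2 := by
    by_contra hc
    exact hi (mem_Op.2 hc)
  exact h.lf i hi'

theorem MZ2.r_cl {i : Fin (m + 1)} (hi : i ∉ (cfgOf a σ z).Op) :
    (cfgOf a σ z).r i = (cfgOf a σ z).s i := by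
  have hi' : a i = 2 := by
    by_contra hc
    exact hi (mem_Op.2 hc)
  show (σ i : ℝ) * a i / 2 = (σ i : ℝ)
  rw [hi']
  push_cast
  ring

/-- **The small indices are negligible: the tree.** -/
theorem low_tree (hm : 1 ≤ m) (h : MZ2 a σ z) (h4 : ∀ i, Bm σ i → 4 ≤ a i) (hΦ : IsPhi Φ)
    (h0 : Φ 0 0 = c00) (hO : OODopp a σ z Φ) (hS : OOSall a σ z Φ) :
    ∃ δ : ℝ, 0 < δ ∧ ∃ (K : ℝ) (p : ℕ), ∀ᶠ M : ℕ in atTop,
      ‖JG (Tr.par (m := m)) Fin.succ (cfgOf a σ z).r M - J0 (cfgOf a σ z).r M‖ ≤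
        K * (M : ℝ) ^ p * Real.exp (M * (((cfgOf a σ z).V (cp (cfgOf a σ z).ac
          (cfgOf a σ z).bc)).re - δ)) := by
  have hC := crit hm h
  obtain ⟨δ, hδ, K, -, p, hb⟩ := AT.Cfg.low_main ksB ksL hC (fun i _ => h.sg i)
    (fun i hi => MZ2.r_cl hi) (fun i hi => h.inc1 hi)
    (Eventually.of_forall fun M i hi j k hk => by
      rw [MZ2.r_cl hi]
      exact cl_eq (h.sg i) j k (hk j)) (edg_t1 hΦ h0 h hO hS)
    (lowH_of h h4 hΦ h0 hO hS)
    (fun v y hv hy => low_E1a hv hy.1 hy.2) (fun s y hy => low_E1c hy.1 hy.2 s)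
  refine ⟨δ, hδ, K, p, ?_⟩
  filter_upwards [hb] with M hM
  rw [AT.JLim_V_re hC]
  exact hM

end

end

end Pool.Agent.MX2
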