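import Pool.Agent.MX2.CritT
import Pool.Agent.MX2.Low6
import Pool.Agent.MX.S.ReflC
import Pool.Agent.AT.FinL

/-!
# The asymptotics of Kashaev's invariant of trees with arbitrary signs and closed leaves
-/

set_option autoImplicit false
set_option linter.unusedSectionVars false

namespace Pool.Agent.MX2

open Pool.Agent.S3 hiding Cfg oth OOD lamC cfgOf EdC Qv mem_Op uc_neg uc_pos slc_op crit edC
  oth_cs oth_su ell_mirror wr_mirror lamC_sum vcC_neg vcC_pos r_neg r_pos evC lw_neg lw_pos gdv_re_eq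
  apos β_eq yc_eq Qv_neg Qv_pos J0
open Pool.Agent.AT (Tr oth Adj Cfg J0)
open Pool.Agent.MX (Bm)
open Complex Pool.Agent.H25.RK Pool.Agent.S3.E Pool.Agent.H63.VC Pool.Agent.H63.GO
open Pool.Agent.H63.VC3 Pool.Agent.H63.VC7 Pool.Agent.H63.VC10 Filter Topology
open scoped ComplexConjugate

variable {m : ℕ} [Tr m]

variable {a : Fin (m + 1) → ℕ} {σ : Fin (m + 1) → ℤ} {z : Fin (m + 1) → ℂ}

/-- **The asymptotics of Kashaev's invariant of a tree with arbitrary signs and closed leaves**,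
from a solution of the vertex equations satisfying the inequalities of `MZ2`. -/
theorem jones_tree (hm : 1 ≤ m) (h : MZ2 a σ z) (h4 : ∀ i, Bm σ i → 4 ≤ a i) (e : ℤ) :
    ∃ C : ℝ, (∃ k : ℤ, I * (((2 * Real.pi * (Wv a σ z).re : ℝ) : ℂ) + C * I) =
        2 * Real.pi * I * Wv a σ z + (Real.pi : ℂ) ^ 2 / 2 * (∑ i, ((wt a σ i : ℤ) : ℂ)) +
          k * (Real.pi : ℂ) ^ 2) ∧
      ∃ J : ℕ → ℂ,
        (∀ N : ℕ, Tendsto (fun q => coloredJones
          (diagram (Tr.par (m := m)) (wt a σ)) e N q)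
          (𝓝[≠] exp (Real.pi * I / ((N + 1 : ℕ) : ℂ))) (𝓝 (J N))) ∧
        (∃ L : ℕ → ℂ, (∀ᶠ N : ℕ in atTop, exp (L N) = J N) ∧
          Tendsto (fun N : ℕ => 2 * (Real.pi : ℂ) * L N / (N + 1)) atTop
            (𝓝 (((2 * Real.pi * (Wv a σ z).re : ℝ) : ℂ) + C * I))) ∧
        Tendsto (fun N : ℕ => 2 * (Real.pi : ℂ) * log (J N) / (N + 1)) atTop
          (𝓝 (((2 * Real.pi * (Wv a σ z).re : ℝ) : ℂ))) ∧
        ∃ κ : ℂ, κ ≠ 0 ∧ Tendsto (fun N : ℕ => J N /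
          ((((N : ℝ) + 1) ^ (3 / 2 : ℝ) : ℝ) *
            exp ((N + 1) * (((2 * Real.pi * (Wv a σ z).re : ℝ) : ℂ) + C * I) /
              (2 * Real.pi)))) atTop (𝓝 κ) := by
  obtain ⟨Φ, hΦ, h0⟩ := exists_Phi c00
  have hO := h.oppD hΦ h0
  have hS := h.sameD hΦ h0 fun θ θ' _ => MX.reflS hΦ
  have hC := crit hm h
  obtain ⟨κ0, hκ0, hJ0⟩ := AT.Cfg.J0_lim ksB ksL hC (fun i _ => h.sg i)
    (fun i hi => MZ2.r_cl hi) (fun i hi => h.inc1 hi)
    (edg_t1 hΦ h0 h hO hS)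
  have hJG := AT.FinL_JG (cfgOf a σ z).r _ (cfgOf a σ z).Op.card hJ0
    (low_tree hm h h4 hΦ h0 hO hS)
  have hrc : (cfgOf a σ z).r = fun i => ((wt a σ i : ℤ) : ℝ) / 2 := by
    funext i
    show (σ i : ℝ) * a i / 2 = ((σ i * (a i : ℤ) : ℤ) : ℝ) / 2
    push_cast
    ring
  rw [hrc] at hJG
  exact AT.fin_of_lim (wt a σ) _ (cfgOf a σ z).Op.card hκ0 hJG e

end Pool.Agent.MX2
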