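import Pool.Agent.MX.ECl
import Pool.Agent.MX.CritCfg

/-!
# The critical point of a tree with closed leaves, with arbitrary signs

`cfgOf a σ z`: the configuration with twists `σ i * a i / 2`, `σ i = ±1`, at the solution `z` of the
vertex equations. The nodes with `a i = 2` are closed ends; they have only one neighbour, which has
another weight.
-/

set_option autoImplicit false
set_option linter.unusedSectionVars false

namespace Pool.Agent.MX2

open Pool.Agent.S3 hiding oth oth_cs oth_su Cfg cfgOf Qv EdC β_eq yc_eq Qv_neg Qv_pos uc_neg uc_pos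
  slc_op slc_cl mem_Op crit edC
open Pool.Agent.AT (Tr Cfg oth Adj adj_cs adj_su adj_oth oth_cs oth_su mem_inc mem_inc_par
  mem_inc_succ)
open Pool.Agent.MX (qC uz_one uz_neg_one qm_opp qm_same SamHyp)
open Pool.Agent.MX.G (uz qm Rz)
open Pool.Agent.AT2 (Rg yC mem_Om)
open Pool.Agent.H63.VC hiding ext
open Pool.Agent.H63.VC7 Complex
open Pool.Agent.S3.E
open Pool.Agent.H25.RK (gdv gdv_re_lt gdv_hasDerivAt ul)
open scoped BigOperators

variable {m : ℕ} [Tr m]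

/-- The slot of the node `i` at the edge to `k`; closed if `a k = 2`. -/
noncomputable def qx (a : Fin (m + 1) → ℕ) (σ : Fin (m + 1) → ℤ) (z : Fin (m + 1) → ℂ)
    (i k : Fin (m + 1)) : ℂ :=
  if a k = 2 then qC (-(σ i * σ k)) (z i) else qm (σ i) (σ k) (z i) (z k)

/-- The share of the edge from `i` to `k` at the node `i`. -/
noncomputable def bx (a : Fin (m + 1) → ℕ) (σ : Fin (m + 1) → ℤ) (z : Fin (m + 1) → ℂ)
    (i k : Fin (m + 1)) : ℝ :=
  (qx a σ z i k).re / (z i).im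

/-- A solution of the vertex equations `a_i z_i = π + i ∑ q_ij`, and its properties. The closed
leaves have the opposite sign. -/
structure MZ2 (a : Fin (m + 1) → ℕ) (σ : Fin (m + 1) → ℤ) (z : Fin (m + 1) → ℂ) : Prop where
  sg : ∀ i, σ i = 1 ∨ σ i = -1
  a3 : ∀ i, a i ≠ 2 → 3 ≤ a i
  lf : ∀ i, a i = 2 → ∃ j, inc (Tr.par (m := m)) Fin.succ i = {j}
  clo : ∀ i k, Adj i k → a i ≠ 2 → a k = 2 → σ i ≠ σ k
  clT : ∀ i k, Adj i k → a i ≠ 2 → a k = 2 → th (z i).re (z i).im ≤ 1 / 2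
  one : ∀ i k, Adj i k → a i = 2 → a k ≠ 2
  pos : ∀ i, a i ≠ 2 → 0 < (z i).re ∧ (z i).re < Real.pi / 2 ∧ 0 < (z i).im
  vertex : ∀ i, a i ≠ 2 → (a i : ℂ) * z i = (Real.pi : ℂ) +
    I * ∑ j ∈ inc (Tr.par (m := m)) Fin.succ i, qx a σ z i (oth j i)
  qx_re : ∀ i k, Adj i k → a i ≠ 2 → 0 < (qx a σ z i k).re
  opp : ∀ i k, Adj i k → a i ≠ 2 → a k ≠ 2 → σ i ≠ σ k →
    OppHyp (th (z i).re (z i).im) (th (z k).re (z k).im)
      (xx (z i).re (z i).im) (xx (z k).re (z k).im)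
  crit : ∀ i k, Adj i k → a i ≠ 2 → a k ≠ 2 → σ i ≠ σ k →
    ECrit (E.uu (z i)) (-((starRingEnd ℂ) (E.uu (z k))))
      (yy (E.uu (z i)) ((starRingEnd ℂ) (E.uu (z k)))) (qe (z i) (z k))
      (-((starRingEnd ℂ) (qe (z k) (z i)))) (-(2 * Real.pi * bw (z i) (z k)))
      (2 * Real.pi * bw (z k) (z i))
  same : ∀ i k, Adj i k → a i ≠ 2 → a k ≠ 2 → σ i = σ k →
    SamHyp (th (z i).re (z i).im) (th (z k).re (z k).im)
  share : ∀ i k, Adj i k → a i ≠ 2 → a k ≠ 2 → σ i = σ k → 2 / 5 < bx a σ z i k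
  nb : ∀ i k, Adj i k → a i ≠ 2 → a k ≠ 2 → σ i = σ k →
    MX.NB (th (z i).re (z i).im) (xx (z i).re (z i).im) (bx a σ z i k) (a i)
  hR : ∀ i, a i ≠ 2 → (z i).re / Real.pi < 13 / 40
  hT : ∀ i, a i ≠ 2 → th (z i).re (z i).im ≤ 27 / 50
  hG : ∀ i k, Adj i k → a i = 3 → a k ≠ 2 → σ i ≠ σ k →
    3 / 32 * bx a σ z i k ≤ Real.tan (th (z i).re (z i).im)

theorem qx_cl {a : Fin (m + 1) → ℕ} {σ : Fin (m + 1) → ℤ} {z : Fin (m + 1) → ℂ}
    {i k : Fin (m + 1)} (h : a k = 2) : qx a σ z i k = qC (-(σ i * σ k)) (z i) := if_pos h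

theorem qx_op {a : Fin (m + 1) → ℕ} {σ : Fin (m + 1) → ℤ} {z : Fin (m + 1) → ℂ}
    {i k : Fin (m + 1)} (h : a k ≠ 2) : qx a σ z i k = qm (σ i) (σ k) (z i) (z k) := if_neg h

theorem bx_opp {a : Fin (m + 1) → ℕ} {σ : Fin (m + 1) → ℤ} {z : Fin (m + 1) → ℂ}
    {i k : Fin (m + 1)} (hk : a k ≠ 2) (h : σ i ≠ σ k) : bx a σ z i k = bw (z i) (z k) := by
  rw [bx, qx_op hk, qm_opp h, bw]

namespace MZ2

variable {a : Fin (m + 1) → ℕ} {σ : Fin (m + 1) → ℤ} {z : Fin (m + 1) → ℂ}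

theorem a2 (h : MZ2 a σ z) (i : Fin (m + 1)) : 2 ≤ a i := by
  by_cases hi : a i = 2
  · exact hi.ge
  · exact (by norm_num : 2 ≤ 3).trans (h.a3 i hi)

theorem thpos (h : MZ2 a σ z) {i : Fin (m + 1)} (hi : a i ≠ 2) : 0 < th (z i).re (z i).im :=
  th_pos (h.pos i hi).1 (h.pos i hi).2.1 (h.pos i hi).2.2

theorem xxpos (h : MZ2 a σ z) {i : Fin (m + 1)} (hi : a i ≠ 2) : 0 < xx (z i).re (z i).im :=
  xx_pos (h.pos i hi).1 (h.pos i hi).2.1 (h.pos i hi).2.2

theorem abs_th (h : MZ2 a σ z) {i : Fin (m + 1)} (hi : a i ≠ 2) :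
    |th (z i).re (z i).im| < Real.pi / 2 :=
  abs_th_lt (h.pos i hi).1 (h.pos i hi).2.1 (h.pos i hi).2.2

theorem gd_uu (h : MZ2 a σ z) {i : Fin (m + 1)} (hi : a i ≠ 2) :
    gd (UU (xx (z i).re (z i).im) (th (z i).re (z i).im)) = z i :=
  E.gd_uu (h.pos i hi).1 (h.pos i hi).2.1 (h.pos i hi).2.2

theorem rz (h : MZ2 a σ z) {i : Fin (m + 1)} (hi : a i ≠ 2) : Rz (z i) :=
  ⟨(h.pos i hi).1, (h.pos i hi).2.1, (h.pos i hi).2.2⟩

theorem bx_pos (h : MZ2 a σ z) {i k : Fin (m + 1)} (hik : Adj i k) (hi : a i ≠ 2) :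
    0 < bx a σ z i k :=
  div_pos (h.qx_re i k hik hi) (h.pos i hi).2.2

/-- Regularity, without conjugates. -/
theorem reg (h : MZ2 a σ z) {i k : Fin (m + 1)} (hik : Adj i k) (hi : a i ≠ 2) (hk : a k ≠ 2) :
    Reg (E.uu (z i)) (E.uu (z k)) := by
  by_cases hs : σ i = σ k
  · exact (h.same i k hik hi hk hs).reg _ _
  · have h1 : Reg (E.uu (z i)) (UU (xx (z k).re (z k).im) (-(th (z k).re (z k).im))) :=
      (h.opp i k hik hi hk hs).reg (xx (z i).re (z i).im) (xx (z k).re (z k).im)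
    rw [← UU_conj] at h1
    have h2 := MX.G.reg_conj_right h1
    rwa [conj_conj] at h2

/-- The canonical split of an edge with opposite signs. -/
theorem split (h : MZ2 a σ z) {i k : Fin (m + 1)} (hik : Adj i k) (hi : a i ≠ 2) (hk : a k ≠ 2)
    (hs : σ i ≠ σ k) :
    Split (th (z i).re (z i).im) (th (z k).re (z k).im) (xx (z i).re (z i).im)
      (xx (z k).re (z k).im) (bx a σ z i k) (bx a σ z k i) where
  b0 := h.bx_pos hik hi
  b0' := h.bx_pos hik.symm hk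
  hQ := by
    rw [h.gd_uu hi, bx_opp hk hs, bw, div_mul_cancel₀ _ (h.pos i hi).2.2.ne']
    rfl
  hQ' := by
    rw [h.gd_uu hk, bx_opp hi (Ne.symm hs), bw, div_mul_cancel₀ _ (h.pos k hk).2.2.ne']
    rfl

/-- The split of an edge with equal signs. -/
theorem hQS (h : MZ2 a σ z) {i k : Fin (m + 1)} (hi : a i ≠ 2) (hk : a k ≠ 2) (hs : σ i = σ k) :
    (qq (UU (xx (z i).re (z i).im) (th (z i).re (z i).im))
      (UU (xx (z k).re (z k).im) (th (z k).re (z k).im))).re =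
      bx a σ z i k * (gd (UU (xx (z i).re (z i).im) (th (z i).re (z i).im))).im := by
  rw [h.gd_uu hi, bx, qx_op hk, qm_same hs, div_mul_cancel₀ _ (h.pos i hi).2.2.ne']
  rfl

/-- The weights have sum `a`. -/
theorem sum_bx (h : MZ2 a σ z) {i : Fin (m + 1)} (hi : a i ≠ 2) :
    ∑ j ∈ inc (Tr.par (m := m)) Fin.succ i, bx a σ z i (oth j i) = a i := by
  have h1 := congrArg im (h.vertex i hi)
  rw [← ofReal_natCast, im_ofReal_mul, add_im, ofReal_im, I_mul_im, zero_add, re_sum] at h1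
  unfold bx
  rw [← Finset.sum_div, ← h1, mul_div_cancel_right₀ _ (h.pos i hi).2.2.ne']

theorem bx_le (h : MZ2 a σ z) {i k : Fin (m + 1)} (hik : Adj i k) (hi : a i ≠ 2) :
    bx a σ z i k ≤ a i := by
  have hsum := h.sum_bx hi
  obtain ⟨j, hj⟩ := hik
  have hj' : j ∈ inc (Tr.par (m := m)) Fin.succ i ∧ oth j i = k := by
    rcases hj with ⟨e1, e2⟩ | ⟨e1, e2⟩
    · rw [e1, e2, oth_cs]; exact ⟨mem_inc_par j, rfl⟩
    · rw [e1, e2, oth_su]; exact ⟨mem_inc_succ j, rfl⟩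
  rw [← hsum, ← hj'.2]
  exact Finset.single_le_sum (f := fun j => bx a σ z i (oth j i))
    (fun j hj => (h.bx_pos (adj_oth hj) hi).le) hj'.1

theorem gdv_uu (h : MZ2 a σ z) {i : Fin (m + 1)} (hi : a i ≠ 2) :
    gdv (E.uu (z i)) = z i / Real.pi ∧
    gdv (-((starRingEnd ℂ) (E.uu (z i)))) = -((starRingEnd ℂ) (z i)) / Real.pi :=
  ⟨(h.rz hi).gdv_uu, (h.rz hi).gdv_uu'⟩

/-- The vertex equation, `c < 0`. -/
theorem hv_neg (h : MZ2 a σ z) {i : Fin (m + 1)} (hi : a i ≠ 2) :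
    2 * Real.pi * I * (2 * ((-((a i : ℝ) / 2) : ℝ) : ℂ) * gdv (E.uu (z i)) + 1)
      - 2 * ∑ j ∈ inc (Tr.par (m := m)) Fin.succ i, qx a σ z i (oth j i) = 0 := by
  have hpi : (Real.pi : ℂ) ≠ 0 := by exact_mod_cast Real.pi_ne_zero
  have h1 := h.vertex i hi
  rw [(h.gdv_uu hi).1]
  generalize (∑ j ∈ inc (Tr.par (m := m)) Fin.succ i, qx a σ z i (oth j i)) = S at *
  push_cast
  field_simp
  linear_combination (-2 * I) * h1 - (2 * S) * I_sq

/-- The vertex equation, `c > 0`. -/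
theorem hv_pos (h : MZ2 a σ z) {i : Fin (m + 1)} (hi : a i ≠ 2) :
    2 * Real.pi * I * (2 * ((((a i : ℝ) / 2) : ℝ) : ℂ) * gdv (-((starRingEnd ℂ) (E.uu (z i)))) + 1)
      + 2 * (starRingEnd ℂ) (∑ j ∈ inc (Tr.par (m := m)) Fin.succ i,
        qx a σ z i (oth j i)) = 0 := by
  have hpi : (Real.pi : ℂ) ≠ 0 := by exact_mod_cast Real.pi_ne_zero
  have h1 := congrArg (starRingEnd ℂ) (h.vertex i hi)
  rw [map_add, map_mul, map_mul, conj_ofReal, conj_I, map_natCast] at h1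
  rw [(h.gdv_uu hi).2]
  generalize (starRingEnd ℂ) (∑ j ∈ inc (Tr.par (m := m)) Fin.succ i,
    qx a σ z i (oth j i)) = S at *
  push_cast
  field_simp
  linear_combination (-2 * I) * h1 + (2 * S) * I_sq

/-- The range of the closed form at a closed edge. -/
theorem rg (h : MZ2 a σ z) {i k : Fin (m + 1)} (hik : Adj i k) (hi : a i ≠ 2) (hk : a k = 2) :
    Rg (-(σ i * σ k)) (z i / Real.pi) := by
  have hpi := Real.pi_pos
  obtain ⟨p1, p2, p3⟩ := h.pos i hi
  have hR := h.hR i hi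
  have hre : (z i / (Real.pi : ℂ)).re = (z i).re / Real.pi := div_ofReal_re _ _
  have him : (z i / (Real.pi : ℂ)).im = (z i).im / Real.pi := div_ofReal_im _ _
  have q1 : 0 < (z i).re / Real.pi := div_pos p1 hpi
  have q3 : 0 < (z i).im / Real.pi := div_pos p3 hpi
  have hs := h.clo i k hik hi hk
  refine Or.inl ⟨?_, mem_Om.2 ?_⟩
  · rcases h.sg i with s1 | s1 <;> rcases h.sg k with s2 | s2
    · exact absurd (by rw [s1, s2]) hs
    · rw [s1, s2]; decide
    · rw [s1, s2]; decide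
    · exact absurd (by rw [s1, s2]) hs
  · rw [hre, him]
    exact ⟨by linarith, by linarith, q3⟩

theorem neg_mul_sg (h : MZ2 a σ z) {i k : Fin (m + 1)} (hik : Adj i k) (hi : a i ≠ 2)
    (hk : a k = 2) : -(σ i * σ k) = 1 := by
  have hs := h.clo i k hik hi hk
  rcases h.sg i with s1 | s1 <;> rcases h.sg k with s2 | s2
  · exact absurd (by rw [s1, s2]) hs
  · rw [s1, s2]; decide
  · rw [s1, s2]; decide
  · exact absurd (by rw [s1, s2]) hs

/-- The slot at a closed leaf. -/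
theorem qx_cl' (h : MZ2 a σ z) {i k : Fin (m + 1)} (hik : Adj i k) (hi : a i ≠ 2)
    (hk : a k = 2) : qx a σ z i k = (E.uu (z i) + I * z i) / 2 := by
  rw [qx_cl hk, h.neg_mul_sg hik hi hk, qC]
  push_cast
  rw [one_mul]

end MZ2

section

variable (a : Fin (m + 1) → ℕ) (σ : Fin (m + 1) → ℤ) (z : Fin (m + 1) → ℂ)

/-- The configuration at a solution of the system. -/
noncomputable def cfgOf : Cfg m where
  r := fun i => (σ i : ℝ) * a i / 2
  Op := Finset.univ.filter fun i => a i ≠ 2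
  s := σ
  θ := fun i => th (z i).re (z i).im
  xc := fun i => -(σ i : ℝ) * xx (z i).re (z i).im
  yc := fun j =>
    if a (Tr.par j) = 2 then yC (σ (Tr.par j)) (gdv (uz (σ j.succ) (z j.succ)))
    else if a j.succ = 2 then yC (σ j.succ) (gdv (uz (σ (Tr.par j)) (z (Tr.par j))))
    else yy (uz (σ (Tr.par j)) (z (Tr.par j))) (uz (σ j.succ) (z j.succ))
  β := fun j i => 2 * Real.pi * σ i * bx a σ z i (oth j i)

/-- `-e_v / 2` at the edge from `i` to `k`. -/
noncomputable def Qm (i k : Fin (m + 1)) : ℂ :=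
  if σ i = 1 then -((starRingEnd ℂ) (qx a σ z i k)) else qx a σ z i k

/-- `-e_v / 2` at the edge `j` and its vertex `i`. -/
noncomputable def Qv (j : Fin m) (i : Fin (m + 1)) : ℂ := Qm a σ z i (oth j i)

end

section

variable {a : Fin (m + 1) → ℕ} {σ : Fin (m + 1) → ℤ} {z : Fin (m + 1) → ℂ}

theorem mem_Op {i : Fin (m + 1)} : i ∈ (cfgOf a σ z).Op ↔ a i ≠ 2 := by
  simp [cfgOf]

/-- The critical equations at the edge `j`. -/
structure EdC (a : Fin (m + 1) → ℕ) (σ : Fin (m + 1) → ℤ) (z : Fin (m + 1) → ℂ) (j : Fin m) :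
    Prop where
  dom : sdom ((cfgOf a σ z).yc j) ((cfgOf a σ z).slc (Tr.par j)) ∧
    sdom ((cfgOf a σ z).yc j) ((cfgOf a σ z).slc j.succ)
  hy : ey ((cfgOf a σ z).yc j) ((cfgOf a σ z).slc (Tr.par j)) +
    ey ((cfgOf a σ z).yc j) ((cfgOf a σ z).slc j.succ) = 0
  ev1 : a (Tr.par j) ≠ 2 → ev ((cfgOf a σ z).yc j) ((cfgOf a σ z).vc (Tr.par j)) =
    -2 * Qv a σ z j (Tr.par j)
  ev2 : a j.succ ≠ 2 → ev ((cfgOf a σ z).yc j) ((cfgOf a σ z).vc j.succ) =
    -2 * Qv a σ z j j.succ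
  hA : ((cfgOf a σ z).A j).re < 0
  hD : ∀ p q : ℝ, (a (Tr.par j) = 2 → p = 0) → (a j.succ = 2 → q = 0) →
    (p ≠ 0 ∨ q ≠ 0) → ((cfgOf a σ z).qf j p q).re < 0

theorem uc_neg {i : Fin (m + 1)} (h : σ i = -1) : (cfgOf a σ z).uc i = E.uu (z i) := by
  unfold AT.Cfg.uc cfgOf E.uu UU ul
  simp [h]

theorem uc_pos {i : Fin (m + 1)} (h : σ i = 1) :
    (cfgOf a σ z).uc i = -((starRingEnd ℂ) (E.uu (z i))) := by
  unfold AT.Cfg.uc cfgOf E.uu ul
  rw [UU_conj, UU_neg, UU, neg_neg]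
  simp [h]

theorem uc_eq (hσ : ∀ i, σ i = 1 ∨ σ i = -1) (i : Fin (m + 1)) :
    (cfgOf a σ z).uc i = uz (σ i) (z i) := by
  rcases hσ i with h | h
  · rw [uc_pos h, h, uz_one]
  · rw [uc_neg h, h, uz_neg_one]

theorem slc_op {i : Fin (m + 1)} (h : a i ≠ 2) :
    (cfgOf a σ z).slc i = .op ((cfgOf a σ z).vc i) := by
  unfold AT.Cfg.slc
  rw [if_pos (mem_Op.2 h)]

theorem slc_cl {i : Fin (m + 1)} (h : a i = 2) : (cfgOf a σ z).slc i = .cl (σ i) := by
  unfold AT.Cfg.slc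
  rw [if_neg (fun h1 => mem_Op.1 h1 h)]
  rfl

theorem EdC.of_open {j : Fin m} (hi : a (Tr.par j) ≠ 2) (hk : a j.succ ≠ 2)
    (H : ECrit ((cfgOf a σ z).uc (Tr.par j)) ((cfgOf a σ z).uc j.succ) ((cfgOf a σ z).yc j)
      (Qv a σ z j (Tr.par j)) (Qv a σ z j j.succ) ((cfgOf a σ z).β j (Tr.par j))
      ((cfgOf a σ z).β j j.succ)) : EdC a σ z j where
  dom := by rw [slc_op hi, slc_op hk]; exact H.dom
  hy := by rw [slc_op hi, slc_op hk]; exact H.hy
  ev1 := fun _ => H.ev1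
  ev2 := fun _ => H.ev2
  hA := by
    unfold AT.Cfg.A
    rw [slc_op hi, slc_op hk]; exact H.hA
  hD := by
    intro p q _ _ hpq
    have := H.hD p q hpq
    unfold AT.Cfg.qf AT.Cfg.c AT.Cfg.b AT.Cfg.A
    rw [slc_op hi, slc_op hk]
    exact this

theorem EdC.of_left {j : Fin m} (hi : a (Tr.par j) ≠ 2) (hk : a j.succ = 2)
    (H : ECrit1 ((cfgOf a σ z).uc (Tr.par j)) ((cfgOf a σ z).yc j)
      (Qv a σ z j (Tr.par j)) (σ j.succ) ((cfgOf a σ z).β j (Tr.par j))) : EdC a σ z j where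
  dom := by rw [slc_op hi, slc_cl hk]; exact H.dom
  hy := by rw [slc_op hi, slc_cl hk]; exact H.hy
  ev1 := fun _ => H.ev1
  ev2 := fun h => absurd hk h
  hA := by
    unfold AT.Cfg.A
    rw [slc_op hi, slc_cl hk]; exact H.hA
  hD := by
    intro p q _ hq hpq
    have hq0 := hq hk
    subst hq0
    have hp : p ≠ 0 := by
      rcases hpq with h | h
      · exact h
      · exact absurd rfl h
    have := H.hD p hp
    unfold AT.Cfg.qf AT.Cfg.c AT.Cfg.b AT.Cfg.A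
    rw [slc_op hi, slc_cl hk]
    convert this using 2
    unfold AT.Cfg.vc
    push_cast
    ring

theorem EdC.of_right {j : Fin m} (hi : a (Tr.par j) = 2) (hk : a j.succ ≠ 2)
    (H : ECrit1 ((cfgOf a σ z).uc j.succ) ((cfgOf a σ z).yc j)
      (Qv a σ z j j.succ) (σ (Tr.par j)) ((cfgOf a σ z).β j j.succ)) : EdC a σ z j where
  dom := by rw [slc_cl hi, slc_op hk]; exact ⟨H.dom.2, H.dom.1⟩
  hy := by rw [slc_cl hi, slc_op hk, add_comm]; exact H.hy
  ev1 := fun h => absurd hi h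
  ev2 := fun _ => H.ev1
  hA := by
    unfold AT.Cfg.A
    rw [slc_cl hi, slc_op hk, add_comm]; exact H.hA
  hD := by
    intro p q hp _ hpq
    have hp0 := hp hi
    subst hp0
    have hq : q ≠ 0 := by
      rcases hpq with h | h
      · exact absurd rfl h
      · exact h
    have := H.hD q hq
    unfold AT.Cfg.qf AT.Cfg.c AT.Cfg.b AT.Cfg.A
    rw [slc_cl hi, slc_op hk, add_comm (eyy _ (Sl.cl _))]
    convert this using 2
    unfold AT.Cfg.vc
    push_cast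
    ring

theorem β_eq (j : Fin m) (i : Fin (m + 1)) : (cfgOf a σ z).β j i =
    2 * Real.pi * σ i * bx a σ z i (oth j i) := rfl

theorem yc_op {j : Fin m} (h1 : a (Tr.par j) ≠ 2) (h2 : a j.succ ≠ 2) : (cfgOf a σ z).yc j =
    yy (uz (σ (Tr.par j)) (z (Tr.par j))) (uz (σ j.succ) (z j.succ)) := by
  show (if _ then _ else _) = _
  rw [if_neg h1, if_neg h2]

theorem yc_left {j : Fin m} (h1 : a (Tr.par j) ≠ 2) (h2 : a j.succ = 2) : (cfgOf a σ z).yc j =
    yC (σ j.succ) (gdv (uz (σ (Tr.par j)) (z (Tr.par j)))) := by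
  show (if _ then _ else _) = _
  rw [if_neg h1, if_pos h2]

theorem yc_right {j : Fin m} (h1 : a (Tr.par j) = 2) : (cfgOf a σ z).yc j =
    yC (σ (Tr.par j)) (gdv (uz (σ j.succ) (z j.succ))) := by
  show (if _ then _ else _) = _
  rw [if_pos h1]

theorem Qv_cs (j : Fin m) : Qv a σ z j (Tr.par j) = Qm a σ z (Tr.par j) j.succ := by
  rw [Qv, oth_cs]

theorem Qv_su (j : Fin m) : Qv a σ z j j.succ = Qm a σ z j.succ (Tr.par j) := by
  rw [Qv, oth_su]

theorem Qv_neg {j : Fin m} {i : Fin (m + 1)} (h : σ i = -1) : Qv a σ z j i =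
    qx a σ z i (oth j i) := by
  unfold Qv Qm; rw [if_neg (by rw [h]; decide)]

theorem Qv_pos {j : Fin m} {i : Fin (m + 1)} (h : σ i = 1) : Qv a σ z j i =
    -((starRingEnd ℂ) (qx a σ z i (oth j i))) := by
  unfold Qv Qm; rw [if_pos h]

/-- The critical equations of an open edge, for all signs. -/
theorem MZ2.ecrit (h : MZ2 a σ z) {i k : Fin (m + 1)} (hik : Adj i k) (hi : a i ≠ 2)
    (hk : a k ≠ 2) :
    ECrit (uz (σ i) (z i)) (uz (σ k) (z k)) (yy (uz (σ i) (z i)) (uz (σ k) (z k)))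
      (Qm a σ z i k) (Qm a σ z k i) (2 * Real.pi * σ i * bx a σ z i k)
      (2 * Real.pi * σ k * bx a σ z k i) := by
  have bi := h.bx_pos hik hi
  have bk := h.bx_pos hik.symm hk
  have xi := h.xxpos hi
  have xk := h.xxpos hk
  rcases h.sg i with s1 | s1 <;> rcases h.sg k with s2 | s2
  · have hs : σ i = σ k := by rw [s1, s2]
    have e1 : Qm a σ z i k = -((starRingEnd ℂ) (qq (E.uu (z i)) (E.uu (z k)))) := by
      rw [Qm, if_pos s1, qx_op hk, qm_same hs]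
    have e2 : Qm a σ z k i = -((starRingEnd ℂ) (qq (E.uu (z k)) (E.uu (z i)))) := by
      rw [Qm, if_pos s2, qx_op hi, qm_same hs.symm]
    have b1 : 2 * Real.pi * ((σ i : ℤ) : ℝ) * bx a σ z i k = 2 * Real.pi * bx a σ z i k := by
      rw [s1]; push_cast; ring
    have b2 : 2 * Real.pi * ((σ k : ℤ) : ℝ) * bx a σ z k i = 2 * Real.pi * bx a σ z k i := by
      rw [s2]; push_cast; ring
    rw [e1, e2, b1, b2, s1, s2, uz_one, uz_one]
    exact MX.ecrit_pos (h.same i k hik hi hk hs) bi bk xi xk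
  · have hs : σ i ≠ σ k := by rw [s1, s2]; decide
    have e1 : Qm a σ z i k = -((starRingEnd ℂ) (qe (z i) (z k))) := by
      rw [Qm, if_pos s1, qx_op hk, qm_opp hs]
    have e2 : Qm a σ z k i = qe (z k) (z i) := by
      rw [Qm, if_neg (by rw [s2]; decide), qx_op hi, qm_opp (Ne.symm hs)]
    have b1 : 2 * Real.pi * ((σ i : ℤ) : ℝ) * bx a σ z i k = 2 * Real.pi * bw (z i) (z k) := by
      rw [s1, bx_opp hk hs]; push_cast; ring
    have b2 : 2 * Real.pi * ((σ k : ℤ) : ℝ) * bx a σ z k i = -(2 * Real.pi * bw (z k) (z i)) := by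
      rw [s2, bx_opp hi (Ne.symm hs)]; push_cast; ring
    have H := (h.crit k i hik.symm hk hi (Ne.symm hs)).symm
    have ey0 : yy (uz (σ i) (z i)) (uz (σ k) (z k)) =
        yy (E.uu (z k)) ((starRingEnd ℂ) (E.uu (z i))) := by
      rw [s1, s2, uz_one, uz_neg_one, yy_neg_left, yy_comm]
    rw [ey0, e1, e2, b1, b2, s1, s2, uz_one, uz_neg_one]
    exact H
  · have hs : σ i ≠ σ k := by rw [s1, s2]; decide
    have e1 : Qm a σ z i k = qe (z i) (z k) := by
      rw [Qm, if_neg (by rw [s1]; decide), qx_op hk, qm_opp hs]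
    have e2 : Qm a σ z k i = -((starRingEnd ℂ) (qe (z k) (z i))) := by
      rw [Qm, if_pos s2, qx_op hi, qm_opp (Ne.symm hs)]
    have b1 : 2 * Real.pi * ((σ i : ℤ) : ℝ) * bx a σ z i k = -(2 * Real.pi * bw (z i) (z k)) := by
      rw [s1, bx_opp hk hs]; push_cast; ring
    have b2 : 2 * Real.pi * ((σ k : ℤ) : ℝ) * bx a σ z k i = 2 * Real.pi * bw (z k) (z i) := by
      rw [s2, bx_opp hi (Ne.symm hs)]; push_cast; ring
    have H := h.crit i k hik hi hk hs
    have ey0 : yy (uz (σ i) (z i)) (uz (σ k) (z k)) =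
        yy (E.uu (z i)) ((starRingEnd ℂ) (E.uu (z k))) := by
      rw [s1, s2, uz_one, uz_neg_one, yy_neg_right]
    rw [ey0, e1, e2, b1, b2, s1, s2, uz_one, uz_neg_one]
    exact H
  · have hs : σ i = σ k := by rw [s1, s2]
    have e1 : Qm a σ z i k = qq (E.uu (z i)) (E.uu (z k)) := by
      rw [Qm, if_neg (by rw [s1]; decide), qx_op hk, qm_same hs]
    have e2 : Qm a σ z k i = qq (E.uu (z k)) (E.uu (z i)) := by
      rw [Qm, if_neg (by rw [s2]; decide), qx_op hi, qm_same hs.symm]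
    have b1 : 2 * Real.pi * ((σ i : ℤ) : ℝ) * bx a σ z i k = -(2 * Real.pi * bx a σ z i k) := by
      rw [s1]; push_cast; ring
    have b2 : 2 * Real.pi * ((σ k : ℤ) : ℝ) * bx a σ z k i = -(2 * Real.pi * bx a σ z k i) := by
      rw [s2]; push_cast; ring
    rw [e1, e2, b1, b2, s1, s2, uz_neg_one, uz_neg_one]
    exact MX.ecrit_neg (h.same i k hik hi hk hs) bi bk xi xk

/-- The critical equations of a closed edge, for all signs. -/
theorem MZ2.ecrit1 (h : MZ2 a σ z) {i k : Fin (m + 1)} (hik : Adj i k) (hi : a i ≠ 2)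
    (hk : a k = 2) :
    ECrit1 (uz (σ i) (z i)) (yC (σ k) (gdv (uz (σ i) (z i)))) (Qm a σ z i k) (σ k)
      (2 * Real.pi * σ i * bx a σ z i k) := by
  have hr := h.rg hik hi hk
  have hz := h.rz hi
  rcases h.sg i with s1 | s1
  · have e0 : -(σ i * σ k) = -σ k := by rw [s1, one_mul]
    have H := MX.ecritC_pos hz hr
    rw [e0, neg_neg] at H
    have e1 : Qm a σ z i k = -((starRingEnd ℂ) (qC (-σ k) (z i))) := by
      rw [Qm, if_pos s1, qx_cl hk, e0]
    have b1 : 2 * Real.pi * ((σ i : ℤ) : ℝ) * bx a σ z i k =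
        2 * Real.pi * ((qC (-σ k) (z i)).re / (z i).im) := by
      rw [bx, qx_cl hk, e0, s1]; push_cast; ring
    rw [e1, b1, s1, uz_one, hz.gdv_uu']
    exact H
  · have e0 : -(σ i * σ k) = σ k := by rw [s1]; ring
    have H := MX.ecritC hz hr
    rw [e0] at H
    have e1 : Qm a σ z i k = qC (σ k) (z i) := by
      rw [Qm, if_neg (by rw [s1]; decide), qx_cl hk, e0]
    have b1 : 2 * Real.pi * ((σ i : ℤ) : ℝ) * bx a σ z i k =
        -(2 * Real.pi * ((qC (σ k) (z i)).re / (z i).im)) := by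
      rw [bx, qx_cl hk, e0, s1]; push_cast; ring
    rw [e1, b1, s1, uz_neg_one, hz.gdv_uu]
    exact H

/-- Every edge satisfies the critical equations. -/
theorem edC (h : MZ2 a σ z) (j : Fin m) : EdC a σ z j := by
  by_cases h1 : a (Tr.par j) = 2
  · have h2 := h.one _ _ (adj_cs j) h1
    refine EdC.of_right h1 h2 ?_
    rw [uc_eq h.sg, yc_right h1, Qv_su, β_eq, oth_su]
    exact h.ecrit1 (adj_su j) h2 h1
  · by_cases h2 : a j.succ = 2
    · refine EdC.of_left h1 h2 ?_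
      rw [uc_eq h.sg, yc_left h1 h2, Qv_cs, β_eq, oth_cs]
      exact h.ecrit1 (adj_cs j) h1 h2
    · refine EdC.of_open h1 h2 ?_
      rw [uc_eq h.sg, uc_eq h.sg, yc_op h1 h2, Qv_cs, Qv_su, β_eq, β_eq, oth_cs, oth_su]
      exact h.ecrit (adj_cs j) h1 h2

theorem ev_eq (H : ∀ j, EdC a σ z j) {i : Fin (m + 1)} (hi : a i ≠ 2) {j : Fin m}
    (h : j ∈ inc (Tr.par (m := m)) Fin.succ i) :
    ev ((cfgOf a σ z).yc j) ((cfgOf a σ z).vc i) = -2 * Qv a σ z j i := by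
  rcases mem_inc h with e | e
  · subst e
    exact (H j).ev1 hi
  · subst e
    exact (H j).ev2 hi

/-- **The critical point of the tree.** -/
theorem crit (hm : 1 ≤ m) (h : MZ2 a σ z) : (cfgOf a σ z).Crit := by
  have H := edC h
  refine ⟨hm, fun i hi => h.thpos (mem_Op.1 hi), fun i hi => ?_, fun j => (H j).dom,
    fun j => (H j).hy, ?_, ?_, fun j => (H j).hA, ?_⟩
  · exact (abs_lt.1 (h.abs_th (mem_Op.1 hi))).2
  · intro i hi0
    have hi := mem_Op.1 hi0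
    rw [Finset.sum_congr rfl fun j hj => ev_eq H hi hj, ← Finset.mul_sum]
    rcases h.sg i with s1 | s1
    · rw [Finset.sum_congr rfl fun j _ => Qv_pos s1, Finset.sum_neg_distrib, ← map_sum]
      have h3 := h.hv_pos hi
      have h4 : (cfgOf a σ z).vc i = gdv (-((starRingEnd ℂ) (E.uu (z i)))) := by
        unfold AT.Cfg.vc
        rw [uc_pos s1]
      have h5 : (cfgOf a σ z).r i = (a i : ℝ) / 2 := by
        show (σ i : ℝ) * a i / 2 = _
        rw [s1]; push_cast; ring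
      rw [h4, h5]
      linear_combination h3
    · rw [Finset.sum_congr rfl fun j _ => Qv_neg s1]
      have h3 := h.hv_neg hi
      have h4 : (cfgOf a σ z).vc i = gdv (E.uu (z i)) := by
        unfold AT.Cfg.vc
        rw [uc_neg s1]
      have h5 : (cfgOf a σ z).r i = -((a i : ℝ) / 2) := by
        show (σ i : ℝ) * a i / 2 = _
        rw [s1]; push_cast; ring
      rw [h4, h5]
      linear_combination h3
  · intro i hi0
    have hi := mem_Op.1 hi0
    have h3 : ∀ j ∈ inc (Tr.par (m := m)) Fin.succ i, (cfgOf a σ z).β j i =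
        (2 * Real.pi * σ i) * bx a σ z i (oth j i) :=
      fun j _ => β_eq j i
    rw [Finset.sum_congr rfl h3, ← Finset.mul_sum, h.sum_bx hi]
    show 2 * Real.pi * (σ i : ℝ) * (a i : ℝ) = 4 * Real.pi * ((σ i : ℝ) * a i / 2)
    ring
  · intro j p q hp hq hpq
    refine (H j).hD p q (fun h1 => hp (fun h2 => mem_Op.1 h2 h1))
      (fun h1 => hq (fun h2 => mem_Op.1 h2 h1)) hpq

end

end Pool.Agent.MX2
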