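import Pool.Agent.MX2.CritCfg
import Pool.Agent.AT2.CV.Main

/-!
# The critical point of a tree with closed leaves, volume and complex volume
-/

set_option autoImplicit false
set_option linter.unusedSectionVars false

namespace Pool.Agent.MX2

open Pool.Agent.S3 hiding oth oth_cs oth_su Cfg cfgOf Qv EdC β_eq yc_eq Qv_neg Qv_pos uc_neg uc_pos
  slc_op slc_cl mem_Op crit edC
open Pool.Agent.AT (Tr Cfg oth Adj adj_cs adj_su adj_oth oth_cs oth_su mem_inc mem_inc_par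
  mem_inc_succ exists_edge)
open Pool.Agent.AT.G (SV mq)
open Pool.Agent.MX (qC uz_one uz_neg_one qm_opp qm_same SamHyp good_same)
open Pool.Agent.MX.G (uz qm Rz)
open Pool.Agent.AT2 (Rg yC mem_Om ClE)
open Pool.Agent.AT2.G (EdS CritS2 PO PE WT2)
open Pool.Agent.AT2.Hyp (IsCl leaf node)
open Pool.Agent.H63.VC hiding ext
open Pool.Agent.H63.VC7 Complex
open Pool.Agent.S3.E
open Pool.Agent.H63.GO
open Pool.Agent.H63.VC3 (ff hh)
open Pool.Agent.H25.RK (gdv gdv_re_lt gdv_hasDerivAt ul)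
open scoped BigOperators ComplexConjugate

/-- An open edge from the variables of its vertices. -/
theorem edS_uw {u w : ℂ} (reg : Reg u w) (good : Good u w) (good' : Good w u)
    (pos : Real.pi * |(gdv w).re| + |(qq u w).im| < Real.pi / 2 ∧
      Real.pi * |(gdv u).re| + |(qq w u).im| < Real.pi / 2)
    (str : Real.pi * |(gdv u).re| + Real.pi * |(gdv w).re| + |(Lc w).im - (Lc u).im| < Real.pi) :
    EdS (yy u w) (gdv u) (gdv w) := by
  have m1 : mq (yy u w) (gdv u) = qq u w := MX.G.mq_uw reg good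
  have m2 : mq (yy u w) (gdv w) = qq w u := by
    have := MX.G.mq_uw reg.symm good'
    rw [yy_comm] at this
    exact this
  refine
    { hy := ⟨yy_re_pos reg, yy_re_lt reg⟩
      hv := gdv_re_lt reg.left
      hw := gdv_re_lt reg.right
      dom := ?_
      ey := ?_
      sv := ?_
      pos := ?_
      str := ?_
      ste := MX.G.str_uw reg good' }
  · have h3 := (he_sub_eq reg.symm good').1
    have h4 := (he_add_eq reg.symm good').1
    rw [yy_comm] at h3 h4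
    exact ⟨⟨(he_sub_eq reg good).1, (he_add_eq reg good).1⟩, h3, h4⟩
  · have h1 := ey_add_eq reg good good'
    unfold S3.ey at h1
    linear_combination h1
  · rw [m1, m2]
    exact MX.G.sv_uw reg
  · rw [m1, m2]
    exact pos
  · have e : (hh (gdv u + 1 / 2) - hh (gdv w + 1 / 2)).im = (Lc w).im - (Lc u).im := by
      rw [MX.G.hh_gdv reg.left, MX.G.hh_gdv reg.right, sub_im, sub_im, sub_im, ofReal_im]
      ring
    rw [e]
    exact str

variable {m : ℕ} [Tr m] {a : Fin (m + 1) → ℕ} {σ : Fin (m + 1) → ℤ} {z : Fin (m + 1) → ℂ}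

/-- The integer weights. -/
def wt (a : Fin (m + 1) → ℕ) (σ : Fin (m + 1) → ℤ) (i : Fin (m + 1)) : ℤ := σ i * (a i : ℤ)

theorem abs_wt (hσ : ∀ i, σ i = 1 ∨ σ i = -1) (i : Fin (m + 1)) : |wt a σ i| = a i := by
  unfold wt
  rcases hσ i with h | h
  · rw [h, one_mul, Nat.abs_cast]
  · rw [h, neg_one_mul, abs_neg, Nat.abs_cast]

theorem abs_wt_two (hσ : ∀ i, σ i = 1 ∨ σ i = -1) (i : Fin (m + 1)) :
    |wt a σ i| = 2 ↔ a i = 2 := by
  rw [abs_wt hσ]
  norm_cast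

/-- The critical value. -/
noncomputable def Wv (a : Fin (m + 1) → ℕ) (σ : Fin (m + 1) → ℤ) (z : Fin (m + 1) → ℂ) : ℂ :=
  (cfgOf a σ z).V (cp (cfgOf a σ z).ac (cfgOf a σ z).bc)

/-- `φ ≤ θ`. -/
theorem MZ2.ph_le_th (h : MZ2 a σ z) {i : Fin (m + 1)} (hi : a i ≠ 2) :
    ph (z i).re (z i).im ≤ th (z i).re (z i).im := by
  have h1 := (E.Lc_uu (h.pos i hi).1 (h.pos i hi).2.1 (h.pos i hi).2.2).2
  have h2 : |(E.uu (z i)).im| < Real.pi / 2 := by
    rw [E.uu, UU_im]; exact h.abs_th hi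
  have h3 := Lc_im_abs h2
  rw [h1, E.uu, UU_im, abs_of_pos (h.thpos hi)] at h3
  exact (le_abs_self _).trans h3

/-- `R + φ < π / 2`. -/
theorem MZ2.re_add_ph (h : MZ2 a σ z) {i : Fin (m + 1)} (hi : a i ≠ 2) :
    (z i).re + ph (z i).re (z i).im < Real.pi / 2 := by
  have h1 := h.hR i hi
  have h2 := h.hT i hi
  have h3 := h.ph_le_th hi
  rw [div_lt_iff₀ Real.pi_pos] at h1
  have := Real.pi_gt_d2
  linarith

/-- The properties of the solution used only for the geometry. -/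
structure MG2 (a : Fin (m + 1) → ℕ) (σ : Fin (m + 1) → ℤ) (z : Fin (m + 1) → ℂ) : Prop where
  good : ∀ i k, Adj i k → a i ≠ 2 → a k ≠ 2 → σ i ≠ σ k →
    S3.Good (E.uu (z i)) (conj (E.uu (z k)))
  qlt : ∀ i k, Adj i k → a i ≠ 2 → a k ≠ 2 →
    |(qm (σ i) (σ k) (z i) (z k)).im| + (z k).re < Real.pi / 2

/-- An open edge. -/
theorem edS_of (h : MZ2 a σ z) (hg : MG2 a σ z) {i k : Fin (m + 1)} (hik : Adj i k)
    (hi : a i ≠ 2) (hk : a k ≠ 2) :
    EdS (yy (uz (σ i) (z i)) (uz (σ k) (z k))) (gdv (uz (σ i) (z i))) (gdv (uz (σ k) (z k))) := by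
  have reg := h.reg hik hi hk
  have hr := MX.G.reg_uz reg (σ i) (σ k)
  have same : ∀ {i k}, Adj i k → a i ≠ 2 → a k ≠ 2 → σ i = σ k →
      Good (E.uu (z i)) (E.uu (z k)) := fun {i k} hik hi hk hs =>
    good_same (h.same i k hik hi hk hs) (h.xxpos hi).le (h.xxpos hk).le
  have g1 : Good (uz (σ i) (z i)) (uz (σ k) (z k)) :=
    MX.G.good_uz (h.sg i) (h.sg k) reg (same hik hi hk) (hg.good i k hik hi hk)
  have g2 : Good (uz (σ k) (z k)) (uz (σ i) (z i)) :=
    MX.G.good_uz (h.sg k) (h.sg i) reg.symm (same hik.symm hk hi) (hg.good k i hik.symm hk hi)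
  have zi := h.rz hi
  have zk := h.rz hk
  refine edS_uw hr g1 g2 ?_ ?_
  · rw [zi.gdv_re, zk.gdv_re, MX.G.qq_uz_im (h.sg i) (h.sg k) reg,
      MX.G.qq_uz_im (h.sg k) (h.sg i) reg.symm]
    have p1 := hg.qlt i k hik hi hk
    have p2 := hg.qlt k i hik.symm hk hi
    exact ⟨by linarith, by linarith⟩
  · rw [zi.gdv_re, zk.gdv_re]
    have a1 := zk.Lc_im (σ k)
    have a2 := zi.Lc_im (σ i)
    have a3 := abs_sub (Lc (uz (σ k) (z k))).im (Lc (uz (σ i) (z i))).im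
    rw [a1, a2] at a3
    have s1 := h.re_add_ph hi
    have s2 := h.re_add_ph hk
    linarith

/-- A closed edge. -/
theorem clE_of (h : MZ2 a σ z) {i k : Fin (m + 1)} (hik : Adj i k) (hi : a i ≠ 2)
    (hk : a k = 2) : ClE (σ k) (yC (σ k) (gdv (uz (σ i) (z i)))) (gdv (uz (σ i) (z i))) := by
  have hr := h.rg hik hi hk
  have hz := h.rz hi
  rcases h.sg i with s1 | s1
  · have e0 : -(σ i * σ k) = -σ k := by rw [s1, one_mul]
    rw [e0] at hr
    have h2 := (MX.yC_mirror hr).2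
    rw [neg_neg, map_div₀, conj_ofReal, ← neg_div] at h2
    rw [s1, uz_one, hz.gdv_uu']
    exact AT2.clE h2
  · have e0 : -(σ i * σ k) = σ k := by rw [s1]; ring
    rw [e0] at hr
    rw [s1, uz_neg_one, hz.gdv_uu]
    exact AT2.clE hr

theorem vc_eq (h : MZ2 a σ z) (i : Fin (m + 1)) :
    (cfgOf a σ z).vc i = gdv (uz (σ i) (z i)) := by
  unfold AT.Cfg.vc
  rw [uc_eq h.sg]

theorem leaf_t {j : Fin m} (hσ : ∀ i, σ i = 1 ∨ σ i = -1) (h : a j.succ = 2) :
    leaf (Tr.par (m := m)) Fin.succ (wt a σ) j = j.succ ∧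
    node (Tr.par (m := m)) Fin.succ (wt a σ) j = Tr.par j := by
  unfold leaf node
  rw [if_pos ((abs_wt_two hσ _).2 h), if_pos ((abs_wt_two hσ _).2 h)]
  exact ⟨rfl, rfl⟩

theorem leaf_s {j : Fin m} (hσ : ∀ i, σ i = 1 ∨ σ i = -1) (h : a j.succ ≠ 2) :
    leaf (Tr.par (m := m)) Fin.succ (wt a σ) j = Tr.par j ∧
    node (Tr.par (m := m)) Fin.succ (wt a σ) j = j.succ := by
  unfold leaf node
  rw [if_neg (fun e => h ((abs_wt_two hσ _).1 e)), if_neg (fun e => h ((abs_wt_two hσ _).1 e))]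
  exact ⟨rfl, rfl⟩

theorem isCl_iff {j : Fin m} (hσ : ∀ i, σ i = 1 ∨ σ i = -1) :
    IsCl (Tr.par (m := m)) Fin.succ (wt a σ) j ↔ a (Tr.par j) = 2 ∨ a j.succ = 2 := by
  unfold IsCl
  rw [abs_wt_two hσ, abs_wt_two hσ]

theorem sg_eq (hσ : ∀ i, σ i = 1 ∨ σ i = -1) {i : Fin (m + 1)} (hi : a i = 2) :
    (wt a σ i).sign = σ i := by
  unfold wt
  rw [hi]
  rcases hσ i with h | h <;> rw [h] <;> decide

/-- **The critical point of the tree in the form used for the geometry.** -/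
theorem critS2_of (hm : 1 ≤ m) (h : MZ2 a σ z) (hg : MG2 a σ z) :
    CritS2 (Tr.par (m := m)) Fin.succ (wt a σ) (cfgOf a σ z).yc (cfgOf a σ z).vc := by
  have hσ := h.sg
  refine ⟨fun j => Tr.ne j, ?_, ?_, ?_, ?_, ?_, ?_⟩
  · intro i
    obtain ⟨j, e | e⟩ := exists_edge hm i
    · exact ⟨j, by rw [e]; exact mem_inc_par j⟩
    · exact ⟨j, by rw [e]; exact mem_inc_succ j⟩
  · intro j hj
    rw [abs_wt_two hσ] at hj
    rw [Ne, abs_wt_two hσ]
    exact h.one _ _ (adj_su j) hj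
  · intro i hi j j' hj hj'
    rw [abs_wt_two hσ] at hi
    obtain ⟨j0, h0⟩ := h.lf i hi
    have key : ∀ j : Fin m, Tr.par j = i ∨ j.succ = i → j = j0 := by
      intro j hj
      have h1 : j ∈ inc (Tr.par (m := m)) Fin.succ i := by
        rcases hj with rfl | rfl
        · exact mem_inc_par j
        · exact mem_inc_succ j
      rw [h0] at h1
      exact Finset.mem_singleton.1 h1
    rw [key j hj, key j' hj']
  · intro j hj
    rw [isCl_iff hσ, not_or] at hj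
    rw [yc_op hj.1 hj.2, vc_eq h, vc_eq h]
    exact edS_of h hg (adj_cs j) hj.1 hj.2
  · intro j hj
    rw [isCl_iff hσ] at hj
    unfold AT2.G.sg
    by_cases h2 : a j.succ = 2
    · have h1 : a (Tr.par j) ≠ 2 := h.one _ _ (adj_su j) h2
      rw [(leaf_t hσ h2).1, (leaf_t hσ h2).2, sg_eq hσ h2, yc_left h1 h2, vc_eq h]
      exact clE_of h (adj_cs j) h1 h2
    · have h1 : a (Tr.par j) = 2 := hj.resolve_right h2
      rw [(leaf_s hσ h2).1, (leaf_s hσ h2).2, sg_eq hσ h1, yc_right h1, vc_eq h]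
      exact clE_of h (adj_su j) h2 h1
  · intro i hi
    rw [Ne, abs_wt_two hσ] at hi
    have h1 := (crit hm h).hv i (mem_Op.2 hi)
    have h2 : (((cfgOf a σ z).r i : ℝ) : ℂ) = ((wt a σ i : ℤ) : ℂ) / 2 := by
      show (((σ i : ℝ) * a i / 2 : ℝ) : ℂ) = _
      unfold wt
      push_cast
      ring
    rw [h2] at h1
    unfold ev at h1
    linear_combination h1

/-- The critical value. -/
theorem WT2_Wv (h : MZ2 a σ z) : WT2 (Tr.par (m := m)) Fin.succ (wt a σ) (cfgOf a σ z).yc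
    (cfgOf a σ z).vc = Wv a σ z := by
  have hσ := h.sg
  symm
  unfold Wv AT.Cfg.V WT2
  rw [add_comm]
  congr 1
  · refine Finset.sum_congr rfl fun j _ => ?_
    rw [AT.Cfg.Hess_Yz0, AT.Cfg.Hess_slz0, AT.Cfg.Hess_slz0]
    unfold PE
    by_cases h2 : a j.succ = 2
    · have h1 : a (Tr.par j) ≠ 2 := h.one _ _ (adj_su j) h2
      rw [if_pos ((isCl_iff hσ).2 (Or.inr h2)), slc_op h1, slc_cl h2, AT2.PC_eq_sP]
      unfold AT2.G.sg
      rw [(leaf_t hσ h2).1, (leaf_t hσ h2).2, sg_eq hσ h2]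
    · by_cases h1 : a (Tr.par j) = 2
      · rw [if_pos ((isCl_iff hσ).2 (Or.inl h1)), slc_op h2, slc_cl h1, AT2.PC_eq_sP]
        unfold AT2.G.sg
        rw [(leaf_s hσ h2).1, (leaf_s hσ h2).2, sg_eq hσ h1, add_comm]
      · rw [if_neg (fun e => ((isCl_iff hσ).1 e).elim h1 h2), slc_op h1, slc_op h2]
        unfold PO sP
        ring
  · have h1 : ∀ i : (cfgOf a σ z).Op, wr ((cfgOf a σ z).r i)
        (gdv ((cp (cfgOf a σ z).ac (cfgOf a σ z).bc) (Sum.inl i))) =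
          wr ((cfgOf a σ z).r i) ((cfgOf a σ z).vc i) := by
      intro i
      rfl
    rw [Finset.sum_congr rfl fun i _ => h1 i]
    rw [Finset.sum_coe_sort (cfgOf a σ z).Op
      (fun i => wr ((cfgOf a σ z).r i) ((cfgOf a σ z).vc i))]
    have h3 : (cfgOf a σ z).Op = Finset.univ.filter fun i => a i ≠ 2 := rfl
    rw [h3, Finset.sum_filter]
    refine Finset.sum_congr rfl fun i _ => ?_
    by_cases hi : a i = 2
    · rw [if_neg (not_not.2 hi), if_pos ((abs_wt_two hσ i).2 hi)]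
    · rw [if_pos hi, if_neg (fun e => hi ((abs_wt_two hσ i).1 e))]
      unfold wr
      have : (((cfgOf a σ z).r i : ℝ) : ℂ) = ((wt a σ i : ℤ) : ℂ) / 2 := by
        show (((σ i : ℝ) * a i / 2 : ℝ) : ℂ) = _
        unfold wt
        push_cast
        ring
      rw [this]

/-- **Volume and complex volume of the tree**, from the critical value. -/
theorem geo (hm : 1 ≤ m) (h : MZ2 a σ z) (hg : MG2 a σ z) :
    AT2.Hyp.IsVolume (Tr.par (m := m)) Fin.succ (wt a σ) (2 * Real.pi * (Wv a σ z).re) ∧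
    ∃ Z : ℂ, AT2.Hyp.IsComplexVolume (Tr.par (m := m)) Fin.succ (wt a σ) Z ∧
      ∃ k : ℤ, Z = 2 * Real.pi * I * Wv a σ z +
        (Real.pi : ℂ) ^ 2 / 2 * (∑ i, ((wt a σ i : ℤ) : ℂ)) + k * (Real.pi : ℂ) ^ 2 := by
  have hcs := critS2_of hm h hg
  have hW := WT2_Wv h
  obtain ⟨Z, hZ, k2, hk⟩ := AT2.CV.CritS2.isComplexVolume hcs
  refine ⟨?_, Z, hZ, k2, ?_⟩
  · rw [← hW]
    exact hcs.isVolume
  · rw [hk, hW]

end Pool.Agent.MX2
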