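import Pool.Agent.MX.FinMZ
import Pool.Agent.MX.E.Clasp
import Pool.Agent.MX.E.HG3
import Pool.Agent.MX2.CritT
import Pool.Agent.MX2.Hyp

/-!
# The critical point of a tree with arbitrary signs and clasps

The weights are `a i`, the signs `σ i`. The clasps are the leaves with `a k = 2`; `NO a i` and `NC a i`
are the neighbours of `i` which are not clasps and those which are. The vertex `i` of the abstract
system has the coefficient `a i + c / 2` and the half slots `c / 2`, where `c` is the number of clasps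
at `i`; the clasps themselves are isolated vertices of the abstract system.
-/

set_option autoImplicit false

namespace Pool.Agent.MX2

open Pool.Agent.S3 hiding oth oth_cs oth_su Cfg cfgOf Qv EdC β_eq yc_eq Qv_neg Qv_pos uc_neg uc_pos
  slc_op slc_cl mem_Op crit edC
open Pool.Agent.AT (Tr oth Adj mem_NN NN NN_nonempty NN_symm card_NN sum_NN)
open Pool.Agent.MX (E.Nbr E.Zr E.exists_zero qC qm_opp qm_same nb_of)
open Pool.Agent.MX.G (qm)
open Complex Pool.Agent.S3.E Pool.Agent.H63.VC7
open scoped BigOperators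

variable {m : ℕ} [Tr m]

/-- The neighbours which are not clasps. -/
def NO (a : Fin (m + 1) → ℕ) (i : Fin (m + 1)) : Finset (Fin (m + 1)) :=
  (NN i).filter fun k => a k ≠ 2

/-- The clasps. -/
def NC (a : Fin (m + 1) → ℕ) (i : Fin (m + 1)) : Finset (Fin (m + 1)) :=
  (NN i).filter fun k => a k = 2

theorem mem_NO {a : Fin (m + 1) → ℕ} {i k : Fin (m + 1)} : k ∈ NO a i ↔ Adj i k ∧ a k ≠ 2 := by
  unfold NO
  rw [Finset.mem_filter, mem_NN]

theorem mem_NC {a : Fin (m + 1) → ℕ} {i k : Fin (m + 1)} : k ∈ NC a i ↔ Adj i k ∧ a k = 2 := by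
  unfold NC
  rw [Finset.mem_filter, mem_NN]

/-- Counting neighbours and counting edges. -/
theorem card_filter_NN (p : Fin (m + 1) → Prop) [DecidablePred p] (i : Fin (m + 1)) :
    ((NN i).filter p).card =
      ((inc (Tr.par (m := m)) Fin.succ i).filter fun j => p (oth j i)).card := by
  rw [Finset.card_filter, Finset.card_filter]
  exact sum_NN (fun k => if p k then 1 else 0) i

/-- The coefficients of the abstract system. -/
noncomputable def av (a : Fin (m + 1) → ℕ) (i : Fin (m + 1)) : ℝ :=
  if a i = 2 then 7 / 2 else (a i : ℝ) + ((NC a i).card : ℝ) / 2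

/-- The half slots. -/
noncomputable def wv (a : Fin (m + 1) → ℕ) (i : Fin (m + 1)) : ℝ :=
  if a i = 2 then 1 / 2 else ((NC a i).card : ℝ) / 2

/-- The neighbours. -/
def Nv (a : Fin (m + 1) → ℕ) (i : Fin (m + 1)) : Finset (Fin (m + 1)) :=
  if a i = 2 then ∅ else NO a i

theorem mem_Nv {a : Fin (m + 1) → ℕ} {i k : Fin (m + 1)} :
    k ∈ Nv a i ↔ a i ≠ 2 ∧ Adj i k ∧ a k ≠ 2 := by
  unfold Nv
  split_ifs with h
  · simp [h]
  · rw [mem_NO]
    simp [h]

/-- The data. -/
structure Cls (a : Fin (m + 1) → ℕ) (σ : Fin (m + 1) → ℤ) : Prop where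
  sg : ∀ i, σ i = 1 ∨ σ i = -1
  a3 : ∀ i, a i ≠ 2 → 3 ≤ a i
  lf : ∀ i, a i = 2 → ∃ j, inc (Tr.par (m := m)) Fin.succ i = {j}
  one : ∀ i k, Adj i k → a i = 2 → a k ≠ 2
  clo : ∀ i k, Adj i k → a i ≠ 2 → a k = 2 → σ i ≠ σ k
  a5 : ∀ i k, Adj i k → a i ≠ 2 → a k ≠ 2 → σ i = σ k → 5 ≤ a i
  d3 : ∀ i, a i ≠ 2 → 2 * (NO a i).card ≤ 3 * a i
  dm : ∀ i k, Adj i k → a i ≠ 2 → a k ≠ 2 → σ i ≠ σ k → (NO a i).card ≤ a i
  dc : ∀ i k, Adj i k → a i ≠ 2 → a k = 2 → 6 * (NO a i).card ≤ 5 * a i
  g3 : ∀ i k l, Adj i k → Adj i l → a i = 3 → a k = 2 → a l ≠ 2 →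
    (NO a i).card + (NC a i).card ≤ 3

theorem Cls.two_le {a : Fin (m + 1) → ℕ} {σ : Fin (m + 1) → ℤ} (h : Cls a σ) (i : Fin (m + 1)) :
    2 ≤ a i := by
  by_cases hi : a i = 2
  · exact hi.ge
  · exact (by norm_num : 2 ≤ 3).trans (h.a3 i hi)

/-- **Existence of the critical point.** -/
theorem exists_mz2 (hm : 1 ≤ m) {a : Fin (m + 1) → ℕ} {σ : Fin (m + 1) → ℤ} (h : Cls a σ) :
    ∃ z : Fin (m + 1) → ℂ, MZ2 a σ z ∧ MG2 a σ z := by
  set s : Fin (m + 1) → Bool := fun i => decide (σ i = 1) with hs
  have hse : ∀ i k, s i = s k ↔ σ i = σ k := by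
    intro i k
    rw [hs]
    simp only [decide_eq_decide]
    rcases h.sg i with h1 | h1 <;> rcases h.sg k with h2 | h2 <;> rw [h1, h2] <;> simp
  have hBn : ∀ i, MX.E.Bn (Nv a) s i ↔ a i ≠ 2 ∧ ∃ k, Adj i k ∧ a k ≠ 2 ∧ σ i = σ k := by
    intro i
    unfold MX.E.Bn
    constructor
    · rintro ⟨k, hk, h⟩
      obtain ⟨h1, h2, h3⟩ := mem_Nv.1 hk
      exact ⟨h1, k, h2, h3, (hse i k).1 h⟩
    · rintro ⟨h1, k, h2, h3, h⟩
      exact ⟨k, mem_Nv.2 ⟨h1, h2, h3⟩, (hse i k).2 h⟩
  have hNv : ∀ i, a i ≠ 2 → Nv a i = NO a i := fun i hi => if_neg hi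
  have hav : ∀ i, a i ≠ 2 → av a i = (a i : ℝ) + ((NC a i).card : ℝ) / 2 := fun i hi => if_neg hi
  have hwv : ∀ i, a i ≠ 2 → wv a i = ((NC a i).card : ℝ) / 2 := fun i hi => if_neg hi
  have hcc : ∀ i, (0 : ℝ) ≤ ((NC a i).card : ℝ) := fun i => Nat.cast_nonneg _
  have ha3 : ∀ i, a i ≠ 2 → (3 : ℝ) ≤ a i := fun i hi => by exact_mod_cast h.a3 i hi
  -- a vertex with a clasp
  have hwpos : ∀ i, a i ≠ 2 → 0 < wv a i → ∃ k, Adj i k ∧ a k = 2 := by
    intro i hi hw
    rw [hwv i hi] at hw
    have h1 : 0 < (NC a i).card := by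
      have : (0 : ℝ) < ((NC a i).card : ℝ) := by linarith
      exact_mod_cast this
    obtain ⟨k, hk⟩ := Finset.card_pos.1 h1
    exact ⟨k, mem_NC.1 hk⟩
  have hposw : ∀ i k, Adj i k → a i ≠ 2 → a k = 2 → 1 ≤ (NC a i).card := by
    intro i k hik hi hk
    exact Finset.card_pos.2 ⟨k, mem_NC.2 ⟨hik, hk⟩⟩
  have hN : MX.E.Nbr (av a) (wv a) (Nv a) s :=
    { a3 := fun i => by
        by_cases hi : a i = 2
        · unfold av; rw [if_pos hi]; norm_num
        · rw [hav i hi]; linarith [hcc i, ha3 i hi]
      w0 := fun i => by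
        by_cases hi : a i = 2
        · unfold wv; rw [if_pos hi]; norm_num
        · rw [hwv i hi]; linarith [hcc i]
      ne := fun i => by
        by_cases hi : a i = 2
        · right; unfold wv; rw [if_pos hi]; norm_num
        · obtain ⟨k, hk⟩ := NN_nonempty hm i
          by_cases hk2 : a k = 2
          · right
            have h1 := hposw i k (mem_NN.1 hk) hi hk2
            rw [hwv i hi]
            have : (1 : ℝ) ≤ ((NC a i).card : ℝ) := by exact_mod_cast h1
            linarith
          · left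
            exact ⟨k, mem_Nv.2 ⟨hi, mem_NN.1 hk, hk2⟩⟩
      big := fun i hw => by
        by_cases hi : a i = 2
        · unfold wv av; rw [if_pos hi, if_pos hi]; norm_num
        · obtain ⟨k, hk, hk2⟩ := hwpos i hi hw
          have h1 := hposw i k hk hi hk2
          have h2 : (1 : ℝ) ≤ ((NC a i).card : ℝ) := by exact_mod_cast h1
          rw [hwv i hi, hav i hi]
          have := ha3 i hi
          constructor <;> linarith
      card := fun i hi => by
        by_cases hi2 : a i = 2
        · unfold Nv wv av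
          rw [if_pos hi2, if_pos hi2, if_pos hi2]
          norm_num
        · rw [hNv i hi2, hwv i hi2, hav i hi2]
          have h3 := ha3 i hi2
          have key : ((NO a i).card : ℝ) ≤ a i := by
            rcases (NO a i).eq_empty_or_nonempty with he | ⟨k, hk⟩
            · rw [he, Finset.card_empty]; push_cast; linarith
            · have h4 : ∃ k, Adj i k ∧ a k ≠ 2 ∧ σ i ≠ σ k := by
                rcases hi with hi | ⟨l, hl, h5⟩
                · obtain ⟨k1, k2⟩ := mem_NO.1 hk
                  refine ⟨k, k1, k2, fun h' => hi ?_⟩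
                  exact (hBn i).2 ⟨hi2, k, k1, k2, h'⟩
                · obtain ⟨-, l2, l3⟩ := mem_Nv.1 hl
                  exact ⟨l, l2, l3, fun h' => h5 ((hse i l).2 h')⟩
              obtain ⟨l, l1, l2, l3⟩ := h4
              exact_mod_cast h.dm i l l1 hi2 l2 l3
          refine ⟨by linarith, fun hw => ?_⟩
          have h4 : 0 < wv a i := by rw [hwv i hi2]; exact hw
          obtain ⟨k, hk, hk2⟩ := hwpos i hi2 h4
          have h5 := h.dc i k hk hi2 hk2
          have h6 : 6 * ((NO a i).card : ℝ) ≤ 5 * a i := by exact_mod_cast h5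
          linarith
      pure := fun i hi => by
        obtain ⟨hi2, k, k1, k2, k3⟩ := (hBn i).1 hi
        rw [hNv i hi2, hwv i hi2, hav i hi2]
        have h5 : (5 : ℝ) ≤ a i := by exact_mod_cast h.a5 i k k1 hi2 k2 k3
        have h6 : 2 * ((NO a i).card : ℝ) ≤ 3 * a i := by exact_mod_cast h.d3 i hi2
        have := hcc i
        constructor <;> linarith
      symm := fun i j hj => by
        obtain ⟨h1, h2, h3⟩ := mem_Nv.1 hj
        exact mem_Nv.2 ⟨h3, h2.symm, h1⟩ }
  obtain ⟨z, hz⟩ := MX.E.exists_zero hN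
  have hop : ∀ {i k}, Adj i k → a i ≠ 2 → a k ≠ 2 → k ∈ Nv a i :=
    fun {i k} hik hi hk => mem_Nv.2 ⟨hi, hik, hk⟩
  have hq : ∀ i k, Adj i k → a i ≠ 2 → a k ≠ 2 →
      qm (σ i) (σ k) (z i) (z k) = MX.E.qs s 1 z i k := by
    intro i k hik hi hk
    by_cases h : σ i = σ k
    · rw [qm_same h]
      exact hz.q_same (hop hik hi hk) ((hse i k).2 h)
    · rw [qm_opp h]
      exact hz.q_opp (hop hik hi hk) (fun h' => h ((hse i k).1 h'))
  have hopp : ∀ i k, σ i ≠ σ k → s i ≠ s k := fun i k h h' => h ((hse i k).1 h')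
  have hx : ∀ i k, Adj i k → a i ≠ 2 → a k = 2 → (z i).im < xx (z i).re (z i).im := by
    intro i k hik hi hk
    have h1 : (1 : ℝ) ≤ ((NC a i).card : ℝ) := by exact_mod_cast hposw i k hik hi hk
    apply hz.im_lt_xx
    · rw [hwv i hi]; linarith
    · intro _
      rw [hNv i hi, hwv i hi, hav i hi]
      have h2 : 6 * ((NO a i).card : ℝ) ≤ 5 * a i := by exact_mod_cast h.dc i k hik hi hk
      linarith
  have hqc : ∀ i k, Adj i k → a i ≠ 2 → a k = 2 → qx a σ z i k = (E.uu (z i) + I * z i) / 2 := by
    intro i k hik hi hk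
    have hne := h.clo i k hik hi hk
    have h1 : -(σ i * σ k) = 1 := by
      rcases h.sg i with s1 | s1 <;> rcases h.sg k with s2 | s2
      · exact absurd (by rw [s1, s2]) hne
      · rw [s1, s2]; decide
      · rw [s1, s2]; decide
      · exact absurd (by rw [s1, s2]) hne
    rw [qx_cl hk, h1, qC]
    push_cast
    rw [one_mul]
  have huu : ∀ i, MX.E.asr (tan (z i)) = E.uu (z i) := fun i =>
    MX.E.asr_tan (hz.pos i).1 (hz.pos i).2.1 (hz.pos i).2.2
  have hR : ∀ i, (z i).re / Real.pi < 13 / 40 := fun i => by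
    rw [div_lt_iff₀ Real.pi_pos]
    have := hz.R_lt i
    have := Real.pi_pos
    linarith
  refine ⟨z, ?_, ?_⟩
  · refine
      { sg := h.sg
        a3 := h.a3
        lf := h.lf
        clo := h.clo
        clT := fun i k hik hi hk => ?_
        one := h.one
        pos := fun i _ => hz.pos i
        vertex := fun i hi => ?_
        qx_re := fun i k hik hi => ?_
        opp := fun i k hik hi hk h => (hz.oe (hop hik hi hk) (hopp i k h)).oppHyp
        crit := fun i k hik hi hk h => (hz.oe (hop hik hi hk) (hopp i k h)).ecrit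
        same := fun i k hik hi hk h => ?_
        share := fun i k hik hi hk h => ?_
        nb := fun i k hik hi hk h' => ?_
        hR := fun i _ => hR i
        hT := fun i _ => hz.th_le i
        hG := fun i k hik hi hk h' => ?_ }
    · -- clT
      by_cases hB : MX.E.Bn (Nv a) s i
      · have := hz.thB hB
        linarith
      · obtain ⟨hR0, hR1, hI⟩ := hz.pos i
        have hv := hz.vx hB
        have hch := MX.E.Vx.chord hv (hz.chord hB)
        have h1 : (1 : ℝ) ≤ ((NC a i).card : ℝ) := by exact_mod_cast hposw i k hik hi hk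
        have hw : 0 < wv a i := by rw [hwv i hi]; linarith
        have h2 := (hz.nb.big i hw).2
        have hx0 := xx_pos hR0 hR1 hI
        have ht0 := th_pos hR0 hR1 hI
        have ht1 := th_lt hR0 hR1 hI
        have hc : 0 < Real.cos (z i).re := Real.cos_pos_of_mem_Ioo ⟨by linarith, hR1⟩
        have hct : 0 < Real.cos (th (z i).re (z i).im) :=
          Real.cos_pos_of_mem_Ioo ⟨by linarith, ht1⟩
        have e1 := tan_R_eq hR0 hR1 hI
        have e3 := MX.E.tan_th_eq hR0 hR1 hI
        refine th_half hR0 hR1 ht0 ht1 hI.le hx0 ?_ ?_ (hx i k hik hi hk).le ?_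
        · rw [Real.tan_eq_sin_div_cos] at e1
          field_simp at e1
          linarith
        · rw [Real.tan_eq_sin_div_cos] at e3
          field_simp at e3
          linarith
        · refine le_trans (mul_le_mul_of_nonneg_right h2 ?_) hch
          positivity
    · -- vertex
      have h1 := hz.eqn i
      rw [huu i, hNv i hi, hwv i hi, hav i hi] at h1
      have h2 : ∑ j ∈ inc (Tr.par (m := m)) Fin.succ i, qx a σ z i (oth j i) =
          ∑ k ∈ NO a i, MX.E.qs s 1 z i k +
            ((NC a i).card : ℂ) * ((E.uu (z i) + I * z i) / 2) := by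
        rw [← sum_NN (fun k => qx a σ z i k) i]
        have h3 := Finset.sum_filter_add_sum_filter_not (NN i) (fun k => a k ≠ 2)
          (fun k => qx a σ z i k)
        rw [← h3]
        congr 1
        · refine Finset.sum_congr rfl fun k hk => ?_
          obtain ⟨k1, k2⟩ := mem_NO.1 hk
          rw [qx_op k2]
          exact hq i k k1 hi k2
        · have h4 : ((NN i).filter fun k => ¬a k ≠ 2) = NC a i := by
            unfold NC
            congr 1
            funext k
            exact propext not_not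
          rw [h4, Finset.sum_congr rfl (fun k hk => hqc i k (mem_NC.1 hk).1 hi (mem_NC.1 hk).2),
            Finset.sum_const, nsmul_eq_mul]
      rw [h2]
      push_cast at h1 ⊢
      linear_combination h1 + (-((NC a i).card : ℂ) * z i / 2) * I_sq
    · -- qx_re
      by_cases hk : a k = 2
      · rw [hqc i k hik hi hk]
        have h1 := hx i k hik hi hk
        have e : ((E.uu (z i) + I * z i) / 2).re = (xx (z i).re (z i).im - (z i).im) / 2 := by
          have e1 : (E.uu (z i) + I * z i) / 2 =
              (((1 / 2 : ℝ)) : ℂ) * (E.uu (z i) + I * z i) := by push_cast; ring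
          have e2 : (E.uu (z i)).re = xx (z i).re (z i).im := by
            rw [E.uu, UU_re]
          rw [e1, re_ofReal_mul, add_re, I_mul_re, e2]
          ring
        rw [e]
        linarith
      · rw [qx_op hk, hq i k hik hi hk]
        exact MX.E.asr_re_pos (hz.w_pos (hop hik hi hk))
    · -- same
      have h1 := hz.bn_of (hop hik hi hk) ((hse i k).2 h)
      have h2 := hz.thB h1.1
      have h3 := hz.thB h1.2
      exact ⟨(hz.pv i).thpos, (hz.pv k).thpos, by linarith, by linarith⟩
    · -- share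
      have h1 := hz.share (hop hik hi hk) ((hse i k).2 h)
      unfold bx
      rw [qx_op hk, hq i k hik hi hk, lt_div_iff₀ (hz.pos i).2.2]
      exact h1
    · -- nb
      have hs' := (hse i k).2 h'
      have h1 := (hz.bn_of (hop hik hi hk) hs').1
      have h5 := h.a5 i k hik hi hk h'
      have h2 := hz.share (hop hik hi hk) hs'
      have h4 := hz.sinh_ge (hop hik hi hk) hs'
      have hR := (hz.nm h1).R1
      unfold bx
      rw [qx_op hk, hq i k hik hi hk]
      exact nb_of (by exact_mod_cast h5) (hz.pos i).1 (hz.pos i).2.1 (hz.pos i).2.2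
        (by linarith) (hz.thB h1) h4 h2.le
    · -- hG
      have hi2 : a i ≠ 2 := by rw [hi]; decide
      obtain ⟨hR0, hR1, hI⟩ := hz.pos i
      have hB : ¬MX.E.Bn (Nv a) s i := by
        intro hB
        obtain ⟨-, l, l1, l2, l3⟩ := (hBn i).1 hB
        have := h.a5 i l l1 hi2 l2 l3
        omega
      have ht0 := th_pos hR0 hR1 hI
      have ht1 := th_lt hR0 hR1 hI
      unfold bx
      rw [qx_op hk, hq i k hik hi2 hk, ← mul_div_assoc, div_le_iff₀ hI]
      rcases Nat.eq_zero_or_pos (NC a i).card with h0 | h0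
      · have hw0 : wv a i = 0 := by rw [hwv i hi2, h0]; simp
        have ha0 : av a i = 3 := by rw [hav i hi2, h0, hi]; simp
        have h1 := hz.th_ge ha0
        have h2 : (MX.E.qs s 1 z i k).re ≤ 3 * (z i).im := by
          have e := hz.eqI i
          rw [hw0, ha0, zero_mul, add_zero] at e
          rw [e]
          exact Finset.single_le_sum (f := fun k => (MX.E.qs s 1 z i k).re)
            (fun k _ => MX.E.asr_re_nonneg _) (hop hik hi2 hk)
        have h3 : 9 / 32 ≤ Real.tan (th (z i).re (z i).im) := by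
          have h4 : Real.tan (7 / 25) ≤ Real.tan (th (z i).re (z i).im) := by
            rcases h1.eq_or_lt with h5 | h5
            · rw [h5]
            · exact (Real.tan_lt_tan_of_nonneg_of_lt_pi_div_two (by norm_num) ht1 h5).le
          refine le_trans ?_ h4
          have hc : 0 < Real.cos (7 / 25) :=
            Real.cos_pos_of_mem_Ioo ⟨by linarith [Real.pi_gt_three], by linarith [Real.pi_gt_three]⟩
          rw [Real.tan_eq_sin_div_cos, le_div_iff₀ hc]
          have h5 := AT.E.V4_sin3 (x := 7 / 25) (by norm_num)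
          have h6 := AT.E.V4_cos4 (x := 7 / 25) (by norm_num)
          norm_num at h5 h6 ⊢
          linarith
        have h4 : 9 / 32 * (z i).im ≤ Real.tan (th (z i).re (z i).im) * (z i).im :=
          mul_le_mul_of_nonneg_right h3 hI.le
        linarith
      · obtain ⟨l, hl⟩ := Finset.card_pos.1 h0
        obtain ⟨l1, l2⟩ := mem_NC.1 hl
        have hc := h.g3 i l k l1 hik hi l2 hk
        have hd : 0 < (NO a i).card := Finset.card_pos.2 ⟨k, mem_NO.2 ⟨hik, hk⟩⟩
        have hv := hz.vx hB
        refine MX.E.Vx.hg3 hv ?_ (hz.k2_le hB) (hx i l l1 hi2 l2) ?_ (hz.chord hB) k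
          (hop hik hi2 hk)
        · rw [hNv i hi2, hwv i hi2, hav i hi2, hi]
          have hcs : (NC a i).card = 1 ∨ (NC a i).card = 2 := by omega
          rcases hcs with h1 | h1
          · left
            rw [h1]
            refine ⟨by norm_num, by norm_num, by omega⟩
          · right
            rw [h1]
            refine ⟨by norm_num, by norm_num, by omega⟩
        · intro j hj
          have hsj : s i ≠ s j := fun hs' => hB ⟨j, hj, hs'⟩
          by_cases hBj : MX.E.Bn (Nv a) s j
          · right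
            refine ⟨hz.rho_B hj hsj hBj, ?_⟩
            show arg (MX.E.bs s 1 z i j) ≤ 1 / 5
            rw [MX.E.bs_opp hsj, MX.E.arg_conj_cos (hz.pos j).1 (hz.pos j).2.1 (hz.pos j).2.2]
            exact hz.phB hBj
          · left
            refine ⟨hz.norm_le_max i j le_rfl (hz.normA hBj).2, ?_⟩
            show arg (MX.E.bs s 1 z i j) ≤ 9 / 20
            rw [MX.E.bs_opp hsj, MX.E.arg_conj_cos (hz.pos j).1 (hz.pos j).2.1 (hz.pos j).2.2]
            exact (hz.pv j).phi.1
  · refine
      { good := fun i k hik hi hk h => (hz.oe (hop hik hi hk) (hopp i k h)).good_edge.1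
        qlt := fun i k hik hi hk => ?_ }
    by_cases h : σ i = σ k
    · rw [hq i k hik hi hk]
      exact hz.q_add_lt (hop hik hi hk) ((hse i k).2 h)
    · have h1 := hz.oe (hop hik hi hk) (hopp i k h)
      rw [qm_opp h, abs_of_pos h1.qe_pos.2.1]
      exact h1.qe_add_lt

end Pool.Agent.MX2
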