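import Pool.Agent.MX2.All
import Pool.Agent.MX2.FinMZ

/-!
# The complexified volume conjecture for trees with arbitrary signs and clasps
-/

set_option autoImplicit false

namespace Pool.Agent.MX2

open Pool.Agent.AT (Tr Adj oth oth_cs oth_su mem_inc mem_inc_par mem_inc_succ)
open Pool.Agent.AT2.Hyp (IsVolume IsComplexVolume)
open Pool.Agent.H63.VC7 (inc)
open Pool.Agent.H63.VC10 (coloredJones)
open Pool.Agent.H63.VC11 (coloredSU)
open Complex Filter Topology
open scoped BigOperators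

variable {m : ℕ}

/-- The number of neighbours of `i` with another weight than `2` and `-2`. -/
def nodes (par : Fin m → Fin (m + 1)) (a : Fin (m + 1) → ℤ) (i : Fin (m + 1)) : ℕ :=
  (Finset.univ.filter fun j : Fin m =>
    (par j = i ∧ |a j.succ| ≠ 2) ∨ (j.succ = i ∧ |a (par j)| ≠ 2)).card

/-- The number of neighbours of `i` with weight `2` or `-2`. -/
def clasps (par : Fin m → Fin (m + 1)) (a : Fin (m + 1) → ℤ) (i : Fin (m + 1)) : ℕ :=
  (Finset.univ.filter fun j : Fin m =>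
    (par j = i ∧ |a j.succ| = 2) ∨ (j.succ = i ∧ |a (par j)| = 2)).card

/-- The condition on the weights of the tree. -/
structure Adm (par : Fin m → Fin (m + 1)) (a : Fin (m + 1) → ℤ) : Prop where
  two : ∀ i, 2 ≤ |a i|
  leaf : ∀ i, |a i| = 2 → nodes par a i = 1 ∧ clasps par a i = 0
  same : ∀ j, 0 < a (par j) * a j.succ → 5 ≤ |a (par j)| ∧ 5 ≤ |a j.succ|
  opp : ∀ j, a (par j) * a j.succ < 0 →
    (nodes par a (par j) : ℤ) ≤ |a (par j)| ∧ (nodes par a j.succ : ℤ) ≤ |a j.succ|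
  deg : ∀ i, 2 * (nodes par a i : ℤ) ≤ 3 * |a i|
  clasp : ∀ i, clasps par a i ≠ 0 → 6 * (nodes par a i : ℤ) ≤ 5 * |a i|
  three : ∀ i, |a i| = 3 → nodes par a i = 0 ∨ clasps par a i = 0 ∨
    nodes par a i + clasps par a i ≤ 3

private theorem mul_sign_pos {x y : ℤ} (hx : x ≠ 0) (h : x.sign = y.sign) : 0 < x * y := by
  rcases lt_or_gt_of_ne hx with hx | hx
  · rw [Int.sign_eq_neg_one_of_neg hx] at h
    have hy : y < 0 := Int.sign_eq_neg_one_iff_neg.1 h.symm
    exact mul_pos_of_neg_of_neg hx hy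
  · rw [Int.sign_eq_one_of_pos hx] at h
    have hy : 0 < y := Int.sign_eq_one_iff_pos.1 h.symm
    exact mul_pos hx hy

private theorem mul_sign_neg {x y : ℤ} (hx : x ≠ 0) (hy : y ≠ 0) (h : x.sign ≠ y.sign) :
    x * y < 0 := by
  rcases lt_or_gt_of_ne hx with h1 | h1 <;> rcases lt_or_gt_of_ne hy with h2 | h2
  · exact absurd (by rw [Int.sign_eq_neg_one_of_neg h1, Int.sign_eq_neg_one_of_neg h2]) h
  · exact mul_neg_of_neg_of_pos h1 h2
  · exact mul_neg_of_pos_of_neg h1 h2
  · exact absurd (by rw [Int.sign_eq_one_of_pos h1, Int.sign_eq_one_of_pos h2]) h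

/-- The filter of the edges at a node and the filter of the edges with a condition on the other
end. -/
private theorem card_aux [Tr m] (p : Fin (m + 1) → Prop) [DecidablePred p] (i : Fin (m + 1)) :
    ((inc (Tr.par (m := m)) Fin.succ i).filter fun j => p (oth j i)).card =
      (Finset.univ.filter fun j : Fin m =>
        (Tr.par j = i ∧ p j.succ) ∨ (j.succ = i ∧ p (Tr.par j))).card := by
  congr 1
  ext j
  rw [Finset.mem_filter, Finset.mem_filter]
  constructor
  · rintro ⟨h1, h2⟩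
    refine ⟨Finset.mem_univ _, ?_⟩
    rcases mem_inc h1 with e | e
    · rw [e, oth_cs] at h2
      exact Or.inl ⟨e.symm, h2⟩
    · rw [e, oth_su] at h2
      exact Or.inr ⟨e.symm, h2⟩
  · rintro ⟨-, ⟨rfl, h2⟩ | ⟨rfl, h2⟩⟩
    · rw [oth_cs]
      exact ⟨mem_inc_par j, h2⟩
    · rw [oth_su]
      exact ⟨mem_inc_succ j, h2⟩

private theorem abs_two {x : ℤ} : |x| = 2 ↔ x.natAbs = 2 := by
  rw [Int.abs_eq_natAbs]
  norm_cast

/-- The class in the form used for the existence of the critical point. -/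
theorem Adm.cls [Tr m] {a : Fin (m + 1) → ℤ} (h : Adm (Tr.par (m := m)) a) :
    Cls (m := m) (fun i => (a i).natAbs) (fun i => (a i).sign) := by
  have hne : ∀ i, a i ≠ 0 := by
    intro i h0
    have := h.two i
    rw [h0] at this
    simp at this
  have hNO : ∀ i, (NO (m := m) (fun i => (a i).natAbs) i).card = nodes Tr.par a i := by
    intro i
    unfold NO nodes
    rw [card_filter_NN (fun k => (a k).natAbs ≠ 2) i]
    refine (card_aux (fun k => (a k).natAbs ≠ 2) i).trans ?_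
    simp only [Ne, abs_two]
  have hNC : ∀ i, (NC (m := m) (fun i => (a i).natAbs) i).card = clasps Tr.par a i := by
    intro i
    unfold NC clasps
    rw [card_filter_NN (fun k => (a k).natAbs = 2) i]
    refine (card_aux (fun k => (a k).natAbs = 2) i).trans ?_
    simp only [abs_two]
  have hsame : ∀ i k, Adj (m := m) i k → (a i).sign = (a k).sign → 5 ≤ |a i| := by
    rintro i k ⟨j, ⟨rfl, rfl⟩ | ⟨rfl, rfl⟩⟩ hk
    · exact (h.same j (mul_sign_pos (hne _) hk)).1
    · exact (h.same j (mul_sign_pos (hne _) hk.symm)).2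
  refine
    { sg := fun i => ?_
      a3 := fun i hi => ?_
      lf := fun i hi => ?_
      one := fun i k hik hi hk => ?_
      clo := fun i k hik hi hk hs => ?_
      a5 := fun i k hik hi hk hs => ?_
      d3 := fun i hi => ?_
      dm := fun i k hik hi hk hs => ?_
      dc := fun i k hik hi hk => ?_
      g3 := fun i k l hik hil hi hk hl => ?_ }
  · rcases lt_or_gt_of_ne (hne i) with h | h
    · exact Or.inr (Int.sign_eq_neg_one_of_neg h)
    · exact Or.inl (Int.sign_eq_one_of_pos h)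
  · have := h.two i
    rw [Int.abs_eq_natAbs] at this
    omega
  · obtain ⟨h1, h2⟩ := h.leaf i (abs_two.2 hi)
    rw [← hNO] at h1
    rw [← hNC] at h2
    have h3 : (AT.NN (m := m) i).card = 1 := by
      have h4 := Finset.card_filter_add_card_filter_not (s := AT.NN (m := m) i)
        (fun k => (a k).natAbs = 2)
      have h5 : ((AT.NN (m := m) i).filter fun k => (a k).natAbs = 2).card = 0 := h2
      have h6 : ((AT.NN (m := m) i).filter fun k => ¬ (a k).natAbs = 2).card = 1 := h1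
      omega
    rw [AT.card_NN, Finset.card_eq_one] at h3
    exact h3
  · obtain ⟨-, h2⟩ := h.leaf i (abs_two.2 hi)
    rw [← hNC] at h2
    have h3 : k ∈ NC (m := m) (fun i => (a i).natAbs) i := mem_NC.2 ⟨hik, hk⟩
    rw [Finset.card_eq_zero] at h2
    rw [h2] at h3
    exact absurd h3 (Finset.notMem_empty _)
  · have := hsame k i hik.symm hs.symm
    rw [Int.abs_eq_natAbs] at this
    have hk' : (a k).natAbs = 2 := hk
    omega
  · have := hsame i k hik hs
    rw [Int.abs_eq_natAbs] at this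
    have : (5 : ℤ) ≤ ((a i).natAbs : ℤ) := this
    show 5 ≤ (a i).natAbs
    omega
  · have := h.deg i
    rw [Int.abs_eq_natAbs] at this
    rw [hNO]
    show 2 * nodes Tr.par a i ≤ 3 * (a i).natAbs
    omega
  · rw [hNO]
    show nodes Tr.par a i ≤ (a i).natAbs
    have key : (nodes (Tr.par (m := m)) a i : ℤ) ≤ |a i| := by
      obtain ⟨j, ⟨rfl, rfl⟩ | ⟨rfl, rfl⟩⟩ := hik
      · exact (h.opp j (mul_sign_neg (hne _) (hne _) hs)).1
      · exact (h.opp j (mul_sign_neg (hne _) (hne _) (Ne.symm hs))).2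
    rw [Int.abs_eq_natAbs] at key
    omega
  · rw [hNO]
    show 6 * nodes Tr.par a i ≤ 5 * (a i).natAbs
    have h1 : clasps (Tr.par (m := m)) a i ≠ 0 := by
      rw [← hNC]
      exact (Finset.card_pos.2 ⟨k, mem_NC.2 ⟨hik, hk⟩⟩).ne'
    have := h.clasp i h1
    rw [Int.abs_eq_natAbs] at this
    omega
  · have h3 : |a i| = 3 := by
      rw [Int.abs_eq_natAbs]
      have : (a i).natAbs = 3 := hi
      omega
    have h1 : clasps (Tr.par (m := m)) a i ≠ 0 := by
      rw [← hNC]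
      exact (Finset.card_pos.2 ⟨k, mem_NC.2 ⟨hik, hk⟩⟩).ne'
    have h2 : nodes (Tr.par (m := m)) a i ≠ 0 := by
      rw [← hNO]
      exact (Finset.card_pos.2 ⟨l, mem_NO.2 ⟨hil, hl⟩⟩).ne'
    rw [hNO, hNC]
    rcases h.three i h3 with h4 | h4 | h4
    · exact absurd h4 h2
    · exact absurd h4 h1
    · exact h4

/-- **The complexified volume conjecture for trees with arbitrary signs and clasps, Kashaev's
invariant and the colored `SU(n)` invariants.** -/
theorem final_all {m : ℕ} (hm : 1 ≤ m) (par : Fin m → Fin (m + 1))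
    (hpar : ∀ j, par j ≤ j.castSucc) (a : Fin (m + 1) → ℤ) (ha : Adm par a) :
    ∃ (V : ℝ) (Z : ℂ), IsVolume par Fin.succ a V ∧ IsComplexVolume par Fin.succ a Z ∧
      (∀ e : ℤ, ∃ C : ℝ, (∃ k : ℤ, Z = I * (V + C * I) + k * (Real.pi : ℂ) ^ 2) ∧
        ∃ J : ℕ → ℂ,
          (∀ N : ℕ, Tendsto (fun q => coloredJones (Pool.Agent.H63.VC10.diagram par a) e N q)
            (𝓝[≠] exp (Real.pi * I / ((N + 1 : ℕ) : ℂ))) (𝓝 (J N))) ∧
          (∃ L : ℕ → ℂ, (∀ᶠ N : ℕ in atTop, exp (L N) = J N) ∧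
            Tendsto (fun N : ℕ => 2 * (Real.pi : ℂ) * L N / (N + 1)) atTop (𝓝 (V + C * I))) ∧
          Tendsto (fun N : ℕ => 2 * (Real.pi : ℂ) * log (J N) / (N + 1)) atTop (𝓝 (V : ℂ)) ∧
          ∃ κ : ℂ, κ ≠ 0 ∧ Tendsto (fun N : ℕ => J N /
            ((((N : ℝ) + 1) ^ (3 / 2 : ℝ) : ℝ) *
              exp ((N + 1) * (V + C * I) / (2 * Real.pi)))) atTop (𝓝 κ)) ∧
      ∀ r : Fin (m + 1) → ℤ, (∀ i, a i = 2 * r i) →
        ∃ C : ℝ, (∃ k : ℤ, Z = I * (V + C * I) + k * (Real.pi : ℂ) ^ 2) ∧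
        ∀ n g : ℕ, 2 ≤ n → 1 ≤ g → g < n → ∃ J : ℕ → ℂ,
          (∀ N : ℕ, n ≤ N → Tendsto (fun q => coloredSU
            (Pool.Agent.H63.VC11.diagram par r) n N q)
            (𝓝[≠] exp (Real.pi * I / (N + g))) (𝓝 (J N))) ∧
          (∃ L : ℕ → ℂ, (∀ᶠ N : ℕ in atTop, exp (L N) = J N) ∧
            Tendsto (fun N : ℕ => 2 * (Real.pi : ℂ) * L N / (N + 1)) atTop (𝓝 (V + C * I))) ∧
          Tendsto (fun N : ℕ => 2 * (Real.pi : ℂ) * log (J N) / (N + 1)) atTop (𝓝 (V : ℂ)) ∧
          ∃ κ : ℂ, κ ≠ 0 ∧ Tendsto (fun N : ℕ => J N /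
            ((((N : ℝ) + g) ^ (2 * (n : ℝ) - 5 / 2) : ℝ) *
              exp ((N + g) * (V + C * I) / (2 * Real.pi)))) atTop (𝓝 κ) := by
  let _ : Tr m := ⟨par, hpar⟩
  have hab : wt (fun i => (a i).natAbs) (fun i => (a i).sign) = a :=
    funext fun i => Int.sign_mul_natAbs (a i)
  have hC : Cls (m := m) (fun i => (a i).natAbs) (fun i => (a i).sign) := Adm.cls ha
  obtain ⟨z, hz, hg⟩ := exists_mz2 hm hC
  have key := all_tr hm (fun i => (a i).natAbs) (fun i => (a i).sign) hz hg fun i hi => by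
    obtain ⟨k, hk, hs⟩ := hi
    by_cases h1 : (a i).natAbs = 2
    · have h2 : (a k).natAbs ≠ 2 := hC.one i k hk h1
      exact absurd hs.symm (hC.clo k i hk.symm h2 h1)
    · by_cases h2 : (a k).natAbs = 2
      · exact absurd hs (hC.clo i k hk h1 h2)
      · exact (by norm_num : 4 ≤ 5).trans (hC.a5 i k hk h1 h2 hs)
  rw [hab] at key
  exact key

end Pool.Agent.MX2
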